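import Pool.Agent.Q207.DB.Ten

/-!
# Descent of spans
-/

set_option autoImplicit false

open Finset

namespace Q207.DB

/-- combinations over `ℂ` of vectors over `K` -/
lemma span_desc {K : Subfield ℂ} {W : Type} {G : Set (W → ℂ)} (hG : ∀ g ∈ G, ∀ w, g w ∈ K) {x : W → ℂ} (hx : ∀ w, x w ∈ K)
    (h : x ∈ Submodule.span ℂ G) : x ∈ Submodule.span K G := by
  obtain ⟨φ, hφ⟩ := LinearMap.exists_leftInverse_of_injective (Algebra.linearMap K ℂ)
    (LinearMap.ker_eq_bot.2 (algebraMap K ℂ).injective)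
  have hφ' : ∀ y : K, φ (y : ℂ) = y := fun y => LinearMap.congr_fun hφ y
  obtain ⟨n, f, g, hfg⟩ := Submodule.mem_span_set'.1 h
  have h1 : x = ∑ i, φ (f i) • (g i : W → ℂ) := by
    funext w
    have h2 : (⟨x w, hx w⟩ : K) = ∑ i, φ (f i) * ⟨(g i : W → ℂ) w, hG _ (g i).2 w⟩ := by
      rw [← hφ' ⟨x w, hx w⟩]
      show φ (x w) = _
      rw [← hfg, Finset.sum_apply, map_sum]
      refine sum_congr rfl fun i _ => ?_
      rw [Pi.smul_apply, smul_eq_mul]
      have h3 : f i * (g i : W → ℂ) w = (⟨(g i : W → ℂ) w, hG _ (g i).2 w⟩ : K) • f i := by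
        rw [Subfield.smul_def, smul_eq_mul, mul_comm]
      rw [h3, map_smul, smul_eq_mul, mul_comm]
    have h4 := congrArg K.subtype h2
    simp only [map_sum, map_mul] at h4
    have h5 : x w = K.subtype ⟨x w, hx w⟩ := rfl
    rw [h5, h4, Finset.sum_apply]
    rfl
  rw [h1]
  exact Submodule.sum_mem _ fun i _ => Submodule.smul_mem _ _ (Submodule.subset_span (g i).2)

variable {X κ : Type}

/-- products of combinations -/
lemma prod_span {L : Type} [Fintype L] [DecidableEq L] {s : L → ℕ} (e : (Σ l, Fin (s l)) ≃ κ) {u : ∀ l, (Fin (s l) → X) → ℂ}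
    {S : ∀ l, Set ((Fin (s l) → X) → ℂ)} (h : ∀ l, u l ∈ Submodule.span ℂ (S l)) :
    prodT e u ∈ Submodule.span ℂ {y | ∃ u' : ∀ l, (Fin (s l) → X) → ℂ, (∀ l, u' l ∈ S l) ∧ y = prodT e u'} := by
  choose n f g hfg using fun l => Submodule.mem_span_set'.1 (h l)
  have h1 : prodT e u = ∑ φ : ∀ l, Fin (n l), (∏ l, f l (φ l)) • prodT e fun l => (g l (φ l) : (Fin (s l) → X) → ℂ) := by
    funext w
    rw [Finset.sum_apply]
    unfold prodT
    have h2 := Finset.prod_univ_sum (fun l : L => (univ : Finset (Fin (n l))))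
      (fun l i => f l i * (g l i : (Fin (s l) → X) → ℂ) fun a => w (e ⟨l, a⟩))
    rw [Fintype.piFinset_univ] at h2
    have h3 : ∀ l, u l (fun a => w (e ⟨l, a⟩)) = ∑ i, f l i * (g l i : (Fin (s l) → X) → ℂ) fun a => w (e ⟨l, a⟩) := by
      intro l
      rw [← hfg l, Finset.sum_apply]
      rfl
    simp only [h3]
    rw [h2]
    refine sum_congr rfl fun φ _ => ?_
    rw [prod_mul_distrib]
    rfl
  rw [h1]
  exact Submodule.sum_mem _ fun φ _ => Submodule.smul_mem _ _ (Submodule.subset_span ⟨_, fun l => (g l (φ l)).2, rfl⟩)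

end Q207.DB
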