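import Pool.Agent.Q207.DB.Ten

/-!
# The invariant tensors of the standard product of classical groups
-/

set_option autoImplicit false

open Finset

namespace Q207.DB

variable {I : Type} [Fintype I] [DecidableEq I] {Λ : Labels I} {ε : Letter Λ → ℂ}

/-- the standard group -/
def GD (Λ : Labels I) (ε : Letter Λ → ℂ) : Set (Matrix (Letter Λ) (Letter Λ) ℂ) := {g | InD ε g}

omit [Fintype I] [DecidableEq I] in
lemma ex_letter {y : Letter Λ} {i : I} (h : y.1 = i) : ∃ c : Fin (Λ.dim i), y = ⟨i, c⟩ := by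
  obtain ⟨i', c⟩ := y
  obtain rfl : i' = i := h
  exact ⟨c, rfl⟩

lemma det_inv {i : I} (hi : Λ.star i ≠ i ∨ Λ.orth i = true) : Inv (GD Λ ε) (detOf (Λ := Λ) i) := by
  classical
  intro g hg
  funext w
  rw [actM_apply]
  have h1 : detOf (Λ := Λ) i w = (Matrix.of fun a b : Fin (Λ.dim i) => g (w a) ⟨i, b⟩).det := by
    have h2 : (Matrix.of fun a b : Fin (Λ.dim i) => g (w a) ⟨i, b⟩) =
        (Matrix.of fun a b : Fin (Λ.dim i) => if w a = ⟨i, b⟩ then (1 : ℂ) else 0) *
          Matrix.of fun a b : Fin (Λ.dim i) => g ⟨i, a⟩ ⟨i, b⟩ := by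
      ext a b
      rw [Matrix.mul_apply]
      simp only [Matrix.of_apply, ite_mul, one_mul, zero_mul]
      by_cases h3 : (w a).1 = i
      · obtain ⟨c, hc⟩ := ex_letter h3
        rw [hc]
        rw [sum_eq_single c]
        · rw [if_pos rfl]
        · intro c' _ hc'
          rw [if_neg]
          intro h4
          exact hc' (eq_of_heq (Sigma.mk.inj_iff.1 h4).2).symm
        · intro h4
          exact absurd (mem_univ _) h4
      · rw [hg.block _ _ (by simpa using h3)]
        refine (sum_eq_zero fun c _ => ?_).symm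
        rw [if_neg]
        intro h4
        exact h3 (by rw [h4])
    rw [h2, Matrix.det_mul, hg.det i hi, mul_one]
    rfl
  rw [h1]
  have h5 : (Matrix.of fun a b : Fin (Λ.dim i) => g (w a) ⟨i, b⟩) =
      fun a => ∑ y : Letter Λ, g (w a) y • (fun b : Fin (Λ.dim i) => if y = ⟨i, b⟩ then (1 : ℂ) else 0) := by
    funext a b
    rw [Finset.sum_apply]
    simp only [Pi.smul_apply, smul_eq_mul, mul_ite, mul_one, mul_zero, sum_ite_eq', mem_univ, if_true]
    rfl
  have h6 := (Matrix.detRowAlternating (n := Fin (Λ.dim i)) (R := ℂ)).toMultilinearMap.map_sum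
    (fun (a : Fin (Λ.dim i)) (y : Letter Λ) => g (w a) y • (fun b : Fin (Λ.dim i) => if y = ⟨i, b⟩ then (1 : ℂ) else 0))
  have h7 : (Matrix.of fun a b : Fin (Λ.dim i) => g (w a) ⟨i, b⟩).det =
      ∑ v : Fin (Λ.dim i) → Letter Λ, (Matrix.detRowAlternating (n := Fin (Λ.dim i)) (R := ℂ)).toMultilinearMap
        (fun a => g (w a) (v a) • (fun b : Fin (Λ.dim i) => if v a = ⟨i, b⟩ then (1 : ℂ) else 0)) := by
    rw [h5]
    exact h6
  rw [h7]
  refine sum_congr rfl fun v _ => ?_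
  rw [MultilinearMap.map_smul_univ, smul_eq_mul]
  rfl

/-- sums over pairs -/
lemma sum_two {α : Type} [Fintype α] (f : (Fin 2 → α) → ℂ) : ∑ v : Fin 2 → α, f v = ∑ y : α, ∑ z : α, f ![y, z] := by
  rw [← Fintype.sum_prod_type']
  refine Fintype.sum_equiv (finTwoArrowEquiv α) _ _ fun v => ?_
  congr 1
  funext k
  fin_cases k <;> rfl

lemma pair_inv (i : I) : Inv (GD Λ ε) (fun w : Fin 2 → Letter Λ => pairOf ε i (w 0) (w 1)) := by
  classical
  intro g hg
  funext w
  rw [actM_apply, sum_two]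
  have h1 : ∀ x y : Letter Λ, pairOf ε i x y = if x.1 = i then form ε x y else 0 := fun x y => rfl
  have h2 : ∀ y z : Letter Λ, (∏ k : Fin 2, g (w k) (![y, z] k)) * pairOf ε i (![y, z] 0) (![y, z] 1) =
      if (w 0).1 = i then g (w 0) y * form ε y z * g (w 1) z else 0 := by
    intro y z
    rw [Fin.prod_univ_two]
    show g (w 0) y * g (w 1) z * pairOf ε i y z = _
    rw [h1]
    by_cases h3 : (w 0).1 = y.1
    · rw [h3]
      split_ifs
      · ring
      · rw [mul_zero]
    · rw [hg.block _ _ h3]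
      simp
  simp only [h2]
  rw [h1]
  by_cases h4 : (w 0).1 = i
  · simp only [if_pos h4]
    have h5 := congrFun (congrFun hg.form (w 0)) (w 1)
    rw [← h5, Matrix.mul_apply, sum_comm]
    refine sum_congr rfl fun z _ => ?_
    rw [Matrix.mul_apply, sum_mul]
    rfl
  · simp only [if_neg h4, sum_const_zero]

theorem fgen (hε : ∀ x : Letter Λ, ¬ Λ.orth x.1 = true → ε (dual x) = -ε x) (hε0 : ∀ x, ε x ≠ 0) :
    GenP (GD Λ ε) fun s => s = 2 ∨ ∃ i, (Λ.star i ≠ i ∨ Λ.orth i = true) ∧ s = Λ.dim i := by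
  intro κ _ _ x hx
  have h1 := fft hε hε0 (x := x) fun g hg => hx g hg
  refine (?_ : algT Λ ε κ ≤ _) h1
  unfold algT
  rw [Submodule.span_le]
  rintro y ⟨l, p, μ, ν, e, hμ, rfl⟩
  set s : Fin l ⊕ Fin p → ℕ := Sum.elim (fun j => Λ.dim (μ j)) fun _ => 2 with hs
  set e' : (Σ a : Fin l ⊕ Fin p, Fin (s a)) ≃ κ :=
    ((Equiv.sumSigmaDistrib (fun a => Fin (s a))).trans (Equiv.sumCongr (Equiv.refl _) (Equiv.sigmaEquivProd (Fin p) (Fin 2)))).trans e with he'
  set u : ∀ a : Fin l ⊕ Fin p, (Fin (s a) → Letter Λ) → ℂ := fun a => match a with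
    | Sum.inl j => detOf (μ j)
    | Sum.inr q => fun w => pairOf ε (ν q) (w (0 : Fin 2)) (w (1 : Fin 2)) with hu
  have h2 : prodOf ε μ ν e = prodT e' u := by
    funext w
    unfold prodOf prodT
    rw [Fintype.prod_sum_type]
    rfl
  rw [h2]
  refine gens_of e' u fun a => ?_
  rcases a with j | q
  · exact ⟨Or.inr ⟨μ j, hμ j, rfl⟩, det_inv (hμ j)⟩
  · exact ⟨Or.inl rfl, pair_inv (ν q)⟩

end Q207.DB
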