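import Pool.Agent.Q207.HM.Pkg

/-!
# The group of one fibre, with the types
-/

set_option autoImplicit false

open Matrix

namespace Q207.HM

open Pool.Agent.Y119.HY (Am cm QD QB)
open Pool.Agent.Y123.GN (Clf Spf GB)

/-- symmetric exponents, with the type -/
theorem exb_sym2 {n : ℕ} (hn : 2 ≤ n) {α : Fin n → ℚ} (hα : ∀ i, ∀ a : ℤ, α i ≠ a) (hs : cls α = cls fun i => -α i) :
    ∃ (h : HB n) (α' : Fin n → ℚ), ExB h α' ∧ cls α' = cls α ∧ (Even n → h.k = Ki.s) := by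
  obtain ⟨m, β, hβ, h1⟩ := sym_cls hα hs
  have hβ' : ∀ j, NI (β j) := fun j l h0 => hβ j l h0.symm
  rcases h1 with ⟨rfl, h2⟩ | ⟨rfl, h2⟩
  · have hQ := Pool.Agent.Y119.HZ.QD_QB (by omega : 1 ≤ m) (NI_two hβ')
    refine ⟨⟨QA (ab β), 1, Ki.s⟩, ab β, ⟨⟨?_, fun h' => Ki.noConfusion h', fun h' => Ki.noConfusion h', fun _ => ?_⟩, rfl, ?_, fun _ => ?_⟩,
      h2, fun _ => rfl⟩
    · show QG (2 * m) (QA (ab β))
      rw [QA_ab]
      exact QD_g hQ
    · show QD (2 * m) (QA (ab β))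
      rw [QA_ab]
      exact hQ
    · intro i a h0
      exact NI_ab hβ' i a h0.symm
    · exact mono_ab β hβ
  · have hQ := QO_ao (by omega : 1 ≤ m) hβ'
    refine ⟨⟨QA (ao β), QB β, Ki.o⟩, ao β, ⟨⟨hQ.g, fun h' => Ki.noConfusion h', fun _ => hQ, fun h' => Ki.noConfusion h'⟩, rfl, ?_,
      fun h' => Ki.noConfusion h'⟩, h2, fun h' => ?_⟩
    · intro i a h0
      exact NI_ao hβ' i a h0.symm
    · exact absurd h' (by
        rw [Nat.not_even_iff_odd]
        exact ⟨m, rfl⟩)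

section

variable {r : ℕ} {n : Fin r → ℕ}

/-- **The group of one fibre.** -/
theorem pkg2 {α : ∀ j, Fin (n j) → ℚ} (hα : ∀ j i, ∀ a : ℤ, α j i ≠ a) (hn : ∀ j, 2 ≤ n j)
    (had : ∀ j, (cls (α j) = cls fun i => -α j i) ∨ ∀ a : ℤ, 2 * ∑ i, α j i ≠ a) :
    ∃ (r' : ℕ) (m : Fin r' → ℕ) (B : ∀ a, Matrix (Fin (m a)) (Fin (m a)) ℂ) (q : Fin r → Fin r') (d : Fin r → Bool)
      (P : ∀ j, Matrix (Fin (n j)) (Fin (m (q j))) ℂ) (P' : ∀ j, Matrix (Fin (m (q j))) (Fin (n j)) ℂ),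
      Function.Surjective q ∧ (∀ j, cls (α j) = (cls fun i => -α j i) → Even (n j) → Spf (B (q j))) ∧
      (∀ a, Clf (B a)) ∧ (∀ j, P j * P' j = 1) ∧ (∀ j, P' j * P j = 1) ∧
      (∀ κ : ∀ a, Matrix (Fin (m a)) (Fin (m a)) ℂ, (∀ a, (κ a).det = 1 ∧ (κ a)ᵀ * B a * κ a = B a) → ∀ t : ℕ, 2 ≤ t →
        (fun j => Yx (n j) (QA (α j)) (1 / (t : ℝ)) * lk (d j) (P j) (P' j) (κ (q j))) ∈ TP α t) ∧
      ∀ t : ℕ, 2 ≤ t → ∀ g ∈ TP α t, ∃ κ : ∀ a, Matrix (Fin (m a)) (Fin (m a)) ℂ, (∀ a, (κ a).det = 1 ∧ (κ a)ᵀ * B a * κ a = B a) ∧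
        ∀ j, g j = Yx (n j) (QA (α j)) (1 / (t : ℝ)) * lk (d j) (P j) (P' j) (κ (q j)) := by
  classical
  set s := relSetoid α with hs
  let : DecidableRel s.r := Classical.decRel _
  let : Fintype (Quotient s) := Fintype.ofFinite _
  set ε := Fintype.equivFin (Quotient s) with hε
  set e : Fin (Fintype.card (Quotient s)) → Fin r := fun a => (ε.symm a).out with he
  set q : Fin r → Fin (Fintype.card (Quotient s)) := fun j => ε (Quotient.mk s j) with hq
  have hlk : ∀ j, cls (α (e (q j))) = cls (α j) ∨ cls (α (e (q j))) = cls fun i => -α j i := by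
    intro j
    have h1 : (Quotient.mk s (e (q j))) = Quotient.mk s j := by
      rw [he, hq]
      simp only [Equiv.symm_apply_apply]
      exact Quotient.out_eq _
    exact Quotient.exact h1
  have hnl : ∀ a a', a ≠ a' → ¬ (cls (α (e a)) = cls (α (e a')) ∨ cls (α (e a)) = cls fun i => -α (e a') i) := by
    intro a a' haa h1
    apply haa
    have h2 : Quotient.mk s (e a) = Quotient.mk s (e a') := Quotient.sound h1
    rw [he] at h2
    simp only [Quotient.out_eq] at h2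
    exact ε.symm.injective h2
  have hex : ∀ a, ∃ (h : HB (n (e a))) (α' : Fin (n (e a)) → ℚ), ExB h α' ∧ cls α' = cls (α (e a)) ∧
      (cls (α (e a)) = (cls fun i => -α (e a) i) → Even (n (e a)) → h.k = Ki.s) := by
    intro a
    by_cases h1 : cls (α (e a)) = cls fun i => -α (e a) i
    · obtain ⟨h, α', h2, h3, h4⟩ := exb_sym2 (hn (e a)) (hα (e a)) h1
      exact ⟨h, α', h2, h3, fun _ => h4⟩
    · obtain ⟨h, h2⟩ := exb_l (hn (e a)) (hα (e a)) ((had (e a)).resolve_left h1)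
      exact ⟨h, α (e a), h2, rfl, fun h3 => absurd h3 h1⟩
  choose h' α' hx hcl hkd using hex
  have hgau : ∀ a, ∃ (G : ℝ → Matrix (Fin (n (e a))) (Fin (n (e a))) ℂ) (c : Matrix (Fin (n (e a))) (Fin (n (e a))) ℚ),
      Gau (α (e a)) (h' a) G c := by
    intro a
    obtain ⟨G, c, h1, h2, h3, h4, h5⟩ := LE.of_cls (hn (e a)) (hx a).ni (hα (e a)) (hcl a)
    exact ⟨G, c, h1, h2, h3, h4, fun x hx0 hx1 => by rw [(hx a).q]; exact h5 x hx0 hx1⟩
  choose G c hg using hgau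
  choose b hb using fun a => blk_exists (hx a).ok
  obtain ⟨d, P, P', h1, h2, h3, h4⟩ := gal_full e q hα hx hcl hg hb (fun a a' haa => (hx a).neq (hx a') (hb a) (hb a')
    (fun h1 => by
      rw [hcl, hcl] at h1
      exact hnl a a' haa (Or.inl h1))
    (fun h1 => by
      rw [hcl, cls_neg (hcl a')] at h1
      exact hnl a a' haa (Or.inr h1))) hlk
  refine ⟨Fintype.card (Quotient s), fun a => n (e a), fun a => fB (b a), q, d, P, P', ?_, fun j hj1 hj2 => ?_,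
    fun a => fB_clf (hb a).1, h1, h2,
    fun κ hκ t ht => ⟨fun R hR hR0 => ?_, fun j => ?_⟩, fun t ht g hg => ?_⟩
  · intro a
    refine ⟨e a, ?_⟩
    rw [hq, he]
    simp only
    have h5 : Quotient.mk s ((ε.symm a).out) = ε.symm a := Quotient.out_eq _
    rw [h5, Equiv.apply_symm_apply]
  · have hs1 : cls (α (e (q j))) = cls fun i => -α (e (q j)) i := by
      rcases hlk j with h5 | h5
      · rw [h5, cls_neg h5]
        exact hj1
      · rw [h5, cls_neg h5]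
        simp only [neg_neg]
        exact hj1.symm
    have hs2 : Even (n (e (q j))) := by
      rcases hlk j with h5 | h5
      · rw [cls_size h5]
        exact hj2
      · rw [cls_size h5]
        exact hj2
    have hk := hkd (q j) hs1 hs2
    have hbk : (b (q j)).k = Ki.s := by rw [(hb (q j)).2.2.2.1, hk]
    obtain ⟨hJ, hd, -, -⟩ := (hb (q j)).1.s hbk
    show Spf (fB (b (q j)))
    unfold fB
    rw [hbk, if_neg (by decide)]
    exact ⟨(Matrix.isUnit_iff_isUnit_det _).2 (Ne.isUnit hd), hJ⟩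
  · obtain ⟨ht0, ht1⟩ := tpos ht
    have h5 := h3 κ (fun a => fB_SG (hκ a).1 (hκ a).2) (toV R) (fun x hx0 hx1 => by
      rw [eval_toV]
      exact hR0 x hx0 hx1) _ ht0 ht1
    rw [eval_toV] at h5
    exact h5
  · obtain ⟨ht0, ht1⟩ := tpos ht
    rw [Matrix.det_mul, lk_det (h1 j) (h2 j) (hκ (q j)).1, mul_one,
      det_Yt (QG_QA (hn j) fun l a h0 => hα j l a h0.symm) ht, QA_coeff (by have := hn j; omega) (α j)]
  · obtain ⟨hq1, hq2⟩ := hg
    obtain ⟨κ, hκ, hgκ⟩ := h4 t ht g (fun j j' => hq1.lin j j') (fun j j' => hq1.bil j j') hq2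
    exact ⟨κ, fun a => SG_fB (hb a).1 (hκ a), hgκ⟩

end

end Q207.HM
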