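import Pool.Agent.Q207.DB.StB
import Pool.Agent.Q207.DB.Pk2
import Pool.Agent.Q207.HM.Tts

/-!
# De Rham-Betti tensors and subtorsors
-/

set_option autoImplicit false

open Finset Matrix Module
open scoped commutatorElement

namespace Q207.DB

open Pool.Agent.Y123.GN (Clf Spf GB Ug Ug_le)
open Pool.Agent.TH127.PT (IsSubtorsor)
open Q207.HM (lk Emb FF GP FF_mem mem_GP)

section line

variable {X κ : Type} [Fintype X] [DecidableEq X] [Fintype κ] [DecidableEq κ]

/-- the matrices which map the tensor `x` to a multiple of `a` -/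
def Tl (x a : (κ → X) → ℂ) : Set (Matrix X X ℂ) :=
  {y | IsUnit y ∧ ∀ w w', actM (fun _ => y) x w * a w' = actM (fun _ => y) x w' * a w}

variable {x a : (κ → X) → ℂ}

omit [DecidableEq X] in
lemma actM_mul (y z : Matrix X X ℂ) (x : (κ → X) → ℂ) : actM (fun _ => y * z) x = actM (fun _ => y) (actM (fun _ => z) x) :=
  (actM_comp (fun _ => y) (fun _ => z) x).symm

lemma actM_inv {y : Matrix X X ℂ} (hy : IsUnit y) (x : (κ → X) → ℂ) : actM (fun _ => y⁻¹) (actM (fun _ => y) x) = x := by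
  rw [← actM_mul, Matrix.nonsing_inv_mul _ ((Matrix.isUnit_iff_isUnit_det _).1 hy), actM_one]

lemma actM_inv' {y : Matrix X X ℂ} (hy : IsUnit y) (x : (κ → X) → ℂ) : actM (fun _ => y) (actM (fun _ => y⁻¹) x) = x := by
  rw [← actM_mul, Matrix.mul_nonsing_inv _ ((Matrix.isUnit_iff_isUnit_det _).1 hy), actM_one]

lemma line_mu {y : Matrix X X ℂ} (hy : y ∈ Tl x a) (hx : x ≠ 0) (ha : a ≠ 0) : ∃ μ : ℂ, μ ≠ 0 ∧ actM (fun _ => y) x = μ • a := by
  obtain ⟨w₀, hw₀⟩ := Function.ne_iff.1 ha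
  rw [Pi.zero_apply] at hw₀
  have h1 : actM (fun _ => y) x = (actM (fun _ => y) x w₀ / a w₀) • a := by
    funext w
    rw [Pi.smul_apply, smul_eq_mul, div_mul_eq_mul_div, eq_div_iff hw₀]
    exact hy.2 w w₀
  refine ⟨_, fun h2 => ?_, h1⟩
  rw [h2, zero_smul] at h1
  apply hx
  rw [← actM_inv hy.1 x, h1, map_zero]

lemma mem_Tl {y : Matrix X X ℂ} (hy : IsUnit y) {μ : ℂ} (h : actM (fun _ => y) x = μ • a) : y ∈ Tl x a := by
  refine ⟨hy, fun w w' => ?_⟩
  rw [h, Pi.smul_apply, Pi.smul_apply, smul_eq_mul, smul_eq_mul]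
  ring

/-- the polynomials -/
noncomputable def pT (K : Subfield ℂ) (x a : (κ → X) → K) (w w' : κ → X) : MvPolynomial (X × X) K :=
  (∑ v : κ → X, (∏ k, MvPolynomial.X (w k, v k)) * MvPolynomial.C (x v)) * MvPolynomial.C (a w') -
    (∑ v : κ → X, (∏ k, MvPolynomial.X (w' k, v k)) * MvPolynomial.C (x v)) * MvPolynomial.C (a w)

omit [DecidableEq X] in
lemma pT_eval (K : Subfield ℂ) (x a : (κ → X) → K) (w w' : κ → X) (y : Matrix X X ℂ) :
    MvPolynomial.eval (fun b => y b.1 b.2) (MvPolynomial.map (algebraMap K ℂ) (pT K x a w w')) =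
      actM (fun _ => y) (fun v => (x v : ℂ)) w * (a w' : ℂ) - actM (fun _ => y) (fun v => (x v : ℂ)) w' * (a w : ℂ) := by
  unfold pT
  simp only [map_sub, map_mul, map_sum, map_prod, MvPolynomial.map_X, MvPolynomial.map_C, MvPolynomial.eval_X, MvPolynomial.eval_C]
  rfl

/-- **The subtorsor of a pair of tensors.** -/
theorem Tl_sub {K : Subfield ℂ} (hxK : ∀ w, x w ∈ K) (haK : ∀ w, a w ∈ K) (hx : x ≠ 0) (ha : a ≠ 0) : IsSubtorsor K (Tl x a) := by
  refine ⟨fun y hy => hy.1, fun y hy z hz t ht => ?_, ?_⟩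
  · obtain ⟨μ₁, h1, h2⟩ := line_mu hy hx ha
    obtain ⟨μ₂, h3, h4⟩ := line_mu hz hx ha
    obtain ⟨μ₃, h5, h6⟩ := line_mu ht hx ha
    have h7 : actM (fun _ => z⁻¹) a = μ₂⁻¹ • x := by
      have e1 := actM_inv hz.1 x
      rw [h4, map_smul] at e1
      rw [← e1, smul_smul, inv_mul_cancel₀ h3, one_smul]
    have hu : IsUnit (y * z⁻¹ * t) := by
      refine (hy.1.mul ?_).mul ht.1
      rw [Matrix.isUnit_nonsing_inv_iff]
      exact hz.1
    refine mem_Tl (μ := μ₃ * μ₂⁻¹ * μ₁) hu ?_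
    rw [actM_mul, actM_mul, h6, map_smul, h7, map_smul, map_smul, h2, smul_smul, smul_smul]
  · set x' : (κ → X) → K := fun w => ⟨x w, hxK w⟩ with hx'
    set a' : (κ → X) → K := fun w => ⟨a w, haK w⟩ with ha'
    refine ⟨{p | ∃ w w', p = MvPolynomial.map (algebraMap K ℂ) (pT K x' a' w w')}, ?_, fun y => ?_⟩
    · rintro _ ⟨w, w', rfl⟩ m
      rw [MvPolynomial.coeff_map]
      exact (MvPolynomial.coeff m (pT K x' a' w w')).2
    · refine and_congr_right fun _ => ?_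
      constructor
      · rintro h _ ⟨w, w', rfl⟩
        rw [pT_eval, sub_eq_zero]
        exact h w w'
      · intro h w w'
        have h1 := h _ ⟨w, w', rfl⟩
        rw [pT_eval, sub_eq_zero] at h1
        exact h1

end line

section flat

variable {J A κ : Type} [Fintype J] [DecidableEq J] [Fintype A] [DecidableEq A] [Fintype κ] [DecidableEq κ]
  {ν : J → ℕ} {μ : A → ℕ} {q : J → A}

/-- **The tensor is invariant under the perfect group.** -/
theorem flat_main (E : Emb ν μ q) {B : ∀ a, Matrix (Fin (μ a)) (Fin (μ a)) ℂ} (hB : ∀ a, Clf (B a))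
    {x a : (κ → Fin 0 ⊕ Σ j, Fin (ν j)) → ℂ} {c : Matrix (Fin 0 ⊕ Σ j, Fin (ν j)) (Fin 0 ⊕ Σ j, Fin (ν j)) ℂ} (hc : IsUnit c)
    {l : ℂ} (hcx : actM (fun _ => c) x = l • a) (hx : x ≠ 0)
    (hT : ∀ v : ∀ a, (Matrix (Fin (μ a)) (Fin (μ a)) ℂ)ˣ, (∀ a, v a ∈ GB (B a)) → c * (FF 0 E v).val ∈ Tl x a) :
    ∀ v : ∀ a, (Matrix (Fin (μ a)) (Fin (μ a)) ℂ)ˣ, (∀ a, v a ∈ GB (B a)) → actM (fun _ => (FF 0 E v).val) x = x := by
  have hla : l • a ≠ 0 := by
    intro h
    rw [h] at hcx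
    apply hx
    rw [← actM_inv hc x, hcx, map_zero]
  have ha : a ≠ 0 := fun h => hla (by rw [h, smul_zero])
  have hl : l ≠ 0 := fun h => hla (by rw [h, zero_smul])
  -- the stabiliser of the line
  have hline : ∀ v : ∀ a, (Matrix (Fin (μ a)) (Fin (μ a)) ℂ)ˣ, (∀ a, v a ∈ GB (B a)) →
      ∃ χ : ℂ, actM (fun _ => (FF 0 E v).val) x = χ • x := by
    intro v hv
    obtain ⟨m, h1, h2⟩ := line_mu (hT v hv) hx ha
    refine ⟨m * l⁻¹, ?_⟩
    have h3 : actM (fun _ => c) (actM (fun _ => (FF 0 E v).val) x) = actM (fun _ => c) ((m * l⁻¹) • x) := by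
      rw [← actM_mul, h2, map_smul, hcx, smul_smul, mul_assoc, inv_mul_cancel₀ hl, mul_one]
    have h4 := congrArg (actM (fun _ => c⁻¹)) h3
    rwa [actM_inv hc, actM_inv hc] at h4
  set S : Subgroup (Matrix (Fin 0 ⊕ Σ j, Fin (ν j)) (Fin 0 ⊕ Σ j, Fin (ν j)) ℂ)ˣ :=
    { carrier := {u | ∃ χ : ℂ, actM (fun _ => u.val) x = χ • x}
      one_mem' := ⟨1, by rw [Units.val_one, actM_one, one_smul]⟩
      mul_mem' := by
        rintro u u' ⟨χ, h1⟩ ⟨χ', h2⟩
        refine ⟨χ' * χ, ?_⟩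
        rw [Units.val_mul, actM_mul, h2, map_smul, h1, smul_smul]
      inv_mem' := by
        rintro u ⟨χ, h1⟩
        have h0 : χ ≠ 0 := by
          rintro rfl
          rw [zero_smul] at h1
          apply hx
          rw [← actM_inv u.isUnit x, h1, map_zero]
        refine ⟨χ⁻¹, ?_⟩
        have h2 := congrArg (actM (fun _ => (u⁻¹).val)) h1
        rw [← actM_mul, Units.inv_mul, actM_one, map_smul] at h2
        have h3 : actM (fun _ => (u⁻¹).val) x = χ⁻¹ • (χ • actM (fun _ => (u⁻¹).val) x) := by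
          rw [smul_smul, inv_mul_cancel₀ h0, one_smul]
        rw [h3, ← h2] } with hS
  set F : Subgroup (Matrix (Fin 0 ⊕ Σ j, Fin (ν j)) (Fin 0 ⊕ Σ j, Fin (ν j)) ℂ)ˣ :=
    { carrier := {u | actM (fun _ => u.val) x = x}
      one_mem' := by
        show actM (fun _ => (1 : (Matrix (Fin 0 ⊕ Σ j, Fin (ν j)) (Fin 0 ⊕ Σ j, Fin (ν j)) ℂ)ˣ).val) x = x
        rw [Units.val_one, actM_one]
      mul_mem' := by
        intro u u' h1 h2
        show actM (fun _ => (u * u').val) x = x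
        rw [Units.val_mul, actM_mul]
        have h2' : actM (fun _ => u'.val) x = x := h2
        rw [h2']
        exact h1
      inv_mem' := by
        intro u h1
        have h1' : actM (fun _ => u.val) x = x := h1
        have h2 := congrArg (actM (fun _ => (u⁻¹).val)) h1'
        rw [← actM_mul, Units.inv_mul, actM_one] at h2
        exact h2.symm } with hF
  have hSF : ⁅S, S⁆ ≤ F := by
    rw [Subgroup.commutator_le]
    rintro u ⟨χ, h1⟩ u' ⟨χ', h2⟩
    have h0 : ∀ (u : (Matrix (Fin 0 ⊕ Σ j, Fin (ν j)) (Fin 0 ⊕ Σ j, Fin (ν j)) ℂ)ˣ) (χ : ℂ), actM (fun _ => u.val) x = χ • x →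
        χ ≠ 0 ∧ actM (fun _ => (u⁻¹).val) x = χ⁻¹ • x := by
      intro u χ h1
      have h0 : χ ≠ 0 := by
        rintro rfl
        rw [zero_smul] at h1
        apply hx
        rw [← actM_inv u.isUnit x, h1, map_zero]
      refine ⟨h0, ?_⟩
      have h2 := congrArg (actM (fun _ => (u⁻¹).val)) h1
      rw [← actM_mul, Units.inv_mul, actM_one, map_smul] at h2
      have h3 : actM (fun _ => (u⁻¹).val) x = χ⁻¹ • (χ • actM (fun _ => (u⁻¹).val) x) := by
        rw [smul_smul, inv_mul_cancel₀ h0, one_smul]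
      rw [h3, ← h2]
    obtain ⟨e1, e2⟩ := h0 u χ h1
    obtain ⟨e3, e4⟩ := h0 u' χ' h2
    show actM (fun _ => (⁅u, u'⁆).val) x = x
    rw [commutatorElement_def, Units.val_mul, Units.val_mul, Units.val_mul, actM_mul, actM_mul, actM_mul]
    simp only [e4, map_smul, e2, h2, h1, smul_smul]
    have e6 : ∀ y : ℂ, y = 1 → y • x = x := fun y hy => by rw [hy, one_smul]
    exact e6 _ (by field_simp)
  intro v hv
  have h1 := FF_mem (r₀ := 0) E hB hv
  have h2 : (GP B).map (FF 0 E) ≤ S := by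
    rintro _ ⟨v', hv', rfl⟩
    exact hline v' (mem_GP.1 hv')
  exact hSF (Subgroup.commutator_mono ((Ug_le _).trans h2) ((Ug_le _).trans h2) h1)

end flat

end Q207.DB
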