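import Mathlib

/-!
# Families of spaces with forms: labels and letters

The label `i` stands for a space `V_i`; the spaces `V_i` and `V_(star i)` are paired. For `star i = i`
the pairing is symmetric on the orthogonal labels and alternating on the others.
-/

namespace Q207.DB

open Finset

/-- The labels of a family of spaces with pairings: `dim i` is the dimension of `V_i`. -/
structure Labels (I : Type) where
  star : I → I
  star_star : ∀ i, star (star i) = i
  orth : I → Bool
  orth_star : ∀ i, orth i = true → star i = i
  dim : I → ℕ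
  dim_star : ∀ i, dim (star i) = dim i

variable {I : Type} (Λ : Labels I)

/-- The letters, which index a basis of the sum `H` of all `V_i`. -/
abbrev Letter : Type := Σ i : I, Fin (Λ.dim i)

variable {Λ}

/-- The dual letter: the basis of `V_i` is orthogonal if `i` is orthogonal; otherwise the basis of
`V_(star i)` is the dual basis of that of `V_i`, in the opposite order. -/
def dual (x : Letter Λ) : Letter Λ :=
  if Λ.orth x.1 then x else ⟨Λ.star x.1, Fin.cast (Λ.dim_star x.1).symm (Fin.rev x.2)⟩

lemma letter_ext {x y : Letter Λ} (h1 : x.1 = y.1) (h2 : (x.2 : ℕ) = y.2) : x = y := by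
  obtain ⟨μ, i⟩ := x
  obtain ⟨ν, j⟩ := y
  obtain rfl : μ = ν := h1
  obtain rfl : i = j := Fin.ext h2
  rfl

lemma dual_of_orth {x : Letter Λ} (h : Λ.orth x.1 = true) : dual x = x := by
  unfold dual
  rw [if_pos h]

lemma dual_of_not {x : Letter Λ} (h : ¬ Λ.orth x.1 = true) :
    dual x = ⟨Λ.star x.1, Fin.cast (Λ.dim_star x.1).symm (Fin.rev x.2)⟩ := by
  unfold dual
  rw [if_neg h]

lemma dual_fst (x : Letter Λ) : (dual x).1 = Λ.star x.1 := by
  by_cases h : Λ.orth x.1 = true
  · rw [dual_of_orth h, Λ.orth_star _ h]
  · rw [dual_of_not h]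

lemma orth_star_iff (i : I) : Λ.orth (Λ.star i) = true ↔ Λ.orth i = true := by
  constructor
  · intro h
    have h1 := Λ.orth_star _ h
    rw [Λ.star_star] at h1
    rw [h1]
    exact h
  · intro h
    rw [Λ.orth_star _ h]
    exact h

lemma dual_dual (x : Letter Λ) : dual (dual x) = x := by
  by_cases h : Λ.orth x.1 = true
  · rw [dual_of_orth h, dual_of_orth h]
  · have h2 : ¬ Λ.orth (dual x).1 = true := by
      rw [dual_fst, orth_star_iff]
      exact h
    refine letter_ext (by rw [dual_fst, dual_fst, Λ.star_star]) ?_
    rw [dual_of_not h2]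
    simp only [Fin.val_cast, Fin.val_rev]
    rw [dual_of_not h]
    simp only [Fin.val_cast, Fin.val_rev]
    have := x.2.2
    have h := Λ.dim_star x.1
    omega

variable [DecidableEq I]

/-- The matrix of the form, given by the numbers `ε`. -/
def form (ε : Letter Λ → ℂ) : Matrix (Letter Λ) (Letter Λ) ℂ :=
  Matrix.of fun x y => if y = dual x then ε x else 0

variable [Fintype I]

/-- The group `D` of the linear maps of `H` that preserve the subspaces `V_i` and the pairings and
have the determinant one on `V_i` (if `star i = i` and `i` is not orthogonal this is automatic). So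
`D` is the product of special linear groups, one for each pair `V_i, V_(star i)` with `star i ≠ i`,
of special orthogonal groups (`i` orthogonal) and of symplectic groups (`star i = i`, `i` not
orthogonal). -/
structure InD (ε : Letter Λ → ℂ) (g : Matrix (Letter Λ) (Letter Λ) ℂ) : Prop where
  block : ∀ x y, x.1 ≠ y.1 → g x y = 0
  form : g * form ε * g.transpose = form ε
  det : ∀ i : I, (Λ.star i ≠ i ∨ Λ.orth i = true) →
    (Matrix.of fun a b : Fin (Λ.dim i) => g ⟨i, a⟩ ⟨i, b⟩).det = 1

/-- The action of a linear map on the tensor power of `H` (the coordinates of the tensors are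
indexed by the words in the letters). -/
noncomputable def act {κ : Type} [Fintype κ] [DecidableEq κ]
    (g : Matrix (Letter Λ) (Letter Λ) ℂ)
    (x : (κ → Letter Λ) → ℂ) : (κ → Letter Λ) → ℂ :=
  fun w => ∑ v : κ → Letter Λ, (∏ k, g (w k) (v k)) * x v

omit [Fintype I] in
/-- The determinant of `V_i`, a tensor with `dim i` factors. -/
noncomputable def detOf (i : I) (w : Fin (Λ.dim i) → Letter Λ) : ℂ :=
  (Matrix.of fun a b : Fin (Λ.dim i) => if w a = ⟨i, b⟩ then (1 : ℂ) else 0).det

omit [Fintype I] in
/-- The pairing of `V_i` and `V_(star i)`, a tensor with two factors. -/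
noncomputable def pairOf (ε : Letter Λ → ℂ) (i : I) (x y : Letter Λ) : ℂ :=
  if x.1 = i then (if y = dual x then ε x else 0) else 0

omit [Fintype I] in
/-- A product of determinants and pairings, put in an arbitrary order by `e`. -/
noncomputable def prodOf (ε : Letter Λ → ℂ) {κ L P : Type} [Fintype L] [Fintype P]
    (μ : L → I) (ν : P → I)
    (e : (Σ j : L, Fin (Λ.dim (μ j))) ⊕ (P × Fin 2) ≃ κ) (w : κ → Letter Λ) : ℂ :=
  (∏ j, detOf (μ j) fun a => w (e (Sum.inl ⟨j, a⟩))) *
    ∏ q, pairOf ε (ν q) (w (e (Sum.inr (q, 0)))) (w (e (Sum.inr (q, 1))))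

end Q207.DB
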