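import Pool.Agent.Q207.DB.GNet

/-!
# Adding determinants to an invariant tensor
-/

namespace Q207.DB

open Finset Pool.Agent.H204R3.SP Pool.Agent.H204R3.GP Pool.Agent.Q59.GC

variable {I : Type} {Λ : Labels I} [DecidableEq I] {ε : Letter Λ → ℂ}

lemma detOf_update_of_ne {i : I} {c : Letter Λ} (hc : c.1 ≠ i)
    (w : Fin (Λ.dim i) → Letter Λ) (k : Fin (Λ.dim i)) : detOf i (Function.update w k c) = 0 := by
  refine Matrix.det_eq_zero_of_row_eq_zero k fun j => ?_
  rw [Matrix.of_apply, Function.update_self, if_neg]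
  intro h
  exact hc (congrArg Sigma.fst h)

lemma detOf_cls {i : I} {w : Fin (Λ.dim i) → Letter Λ} (h : detOf i w ≠ 0) (k : Fin (Λ.dim i)) :
    (w k).1 = i := by
  by_contra hk
  apply h
  have := detOf_update_of_ne hk w k
  rwa [Function.update_eq_self] at this

/-- the replacement of the letter `i a` by the letter `c` -/
lemma det_sum_aux {i : I} (a j : Fin (Λ.dim i)) (w : Fin (Λ.dim i) → Letter Λ) :
    ∑ k, (if w k = ⟨i, a⟩ then (1 : ℂ) else 0) * detOf i (Function.update w k ⟨i, j⟩) =
      if j = a then detOf i w else 0 := by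
  set M : Matrix (Fin (Λ.dim i)) (Fin (Λ.dim i)) ℂ :=
    Matrix.of fun k b : Fin (Λ.dim i) => if w k = ⟨i, b⟩ then (1 : ℂ) else 0 with hM
  have e2 : ∀ k, detOf i (Function.update w k ⟨i, j⟩) = M.adjugate j k := by
    intro k
    rw [Matrix.adjugate_apply]
    unfold detOf
    congr 1
    ext b b'
    rw [Matrix.of_apply]
    by_cases hb : b = k
    · subst hb
      rw [Function.update_self, Matrix.updateRow_self, Pi.single_apply]
      by_cases h : b' = j
      · subst h; rw [if_pos rfl, if_pos rfl]
      · rw [if_neg h, if_neg]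
        intro h2
        exact h (mk_eq_iff.mp h2).symm
    · rw [Function.update_of_ne hb, Matrix.updateRow_ne hb, hM, Matrix.of_apply]
  have e3 : ∑ k, (if w k = ⟨i, a⟩ then (1 : ℂ) else 0) * detOf i (Function.update w k ⟨i, j⟩) =
      (M.adjugate * M) j a := by
    rw [Matrix.mul_apply]
    refine sum_congr rfl fun k _ => ?_
    rw [e2, mul_comm]
    rfl
  rw [e3, Matrix.adjugate_mul, Matrix.smul_apply, smul_eq_mul]
  by_cases h : j = a
  · rw [if_pos h, h, Matrix.one_apply_eq, mul_one]
    rfl
  · rw [if_neg h, Matrix.one_apply_ne h, mul_zero]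

lemma det_sum (i : I) {b c : Letter Λ} (hbc : (dual b).1 = c.1)
    (w : Fin (Λ.dim i) → Letter Λ) :
    ∑ k, JJ dual ε b (w k) * detOf i (Function.update w k c) =
      if c.1 = i ∧ c = dual b then ε b * detOf i w else 0 := by
  by_cases hc : c.1 = i
  swap
  · rw [if_neg fun h => hc h.1]
    exact sum_eq_zero fun k _ => by rw [detOf_update_of_ne hc, mul_zero]
  obtain ⟨j, hj⟩ := exists_mk c hc
  obtain ⟨a, ha⟩ := exists_mk (dual b) (hbc.trans hc)
  have e1 : ∀ k, JJ dual ε b (w k) * detOf i (Function.update w k c) =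
      ε b * ((if w k = ⟨i, a⟩ then (1 : ℂ) else 0) * detOf i (Function.update w k ⟨i, j⟩)) := by
    intro k
    rw [JJ, ha, hj]
    split_ifs <;> ring
  rw [sum_congr rfl fun k _ => e1 k, ← mul_sum, det_sum_aux]
  by_cases h : c = dual b
  · have hij : j = a := by
      rw [hj, ha] at h
      exact mk_eq_iff.mp h
    rw [if_pos hij, if_pos ⟨hc, h⟩]
  · have hij : j ≠ a := by
      rintro rfl
      exact h (by rw [hj, ha])
    rw [if_neg hij, if_neg fun h' => h h'.2, mul_zero]

/-- in a nonzero determinant every letter occurs once -/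
lemma detOf_occ {i : I} {w : Fin (Λ.dim i) → Letter Λ} (h : detOf i w ≠ 0) (z : Letter Λ) :
    (univ.filter fun k => w k = z).card = if z.1 = i then 1 else 0 := by
  classical
  by_cases hz : z.1 = i
  · rw [if_pos hz]
    obtain ⟨a, rfl⟩ := exists_mk z hz
    -- the word is injective
    have hinj : Function.Injective w := by
      intro k l hkl
      by_contra hne
      apply h
      refine Matrix.det_zero_of_row_eq hne ?_
      funext j
      rw [Matrix.of_apply, Matrix.of_apply, hkl]
    let f : Fin (Λ.dim i) → Fin (Λ.dim i) := fun k => (exists_mk (w k) (detOf_cls h k)).choose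
    have hf : ∀ k, w k = ⟨i, f k⟩ := fun k => (exists_mk (w k) (detOf_cls h k)).choose_spec
    have hfi : Function.Injective f := by
      intro k l hkl
      apply hinj
      rw [hf k, hf l, hkl]
    obtain ⟨k0, hk0⟩ := (Finite.injective_iff_surjective.mp hfi) a
    rw [card_eq_one]
    refine ⟨k0, ?_⟩
    ext k
    rw [mem_filter, mem_singleton, hf k, mk_eq_iff]
    constructor
    · rintro ⟨-, h2⟩
      exact hfi (by rw [h2, hk0])
    · rintro rfl
      exact ⟨mem_univ _, hk0⟩
  · rw [if_neg hz, card_eq_zero, filter_eq_empty_iff]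
    intro k _ hk
    exact hz (by rw [← hk, detOf_cls h k])

variable [Fintype I]

section Add

variable {κ L : Type} [Fintype κ] [DecidableEq κ] [Fintype L] [DecidableEq L]

omit [DecidableEq I] [Fintype I] in
/-- the positions of the added determinants -/
abbrev Added (μ : L → I) : Type := Σ j : L, Fin (Λ.dim (Λ.star (μ j)))

omit [Fintype I] in
variable (Λ) in
/-- the tensor with the determinants of the classes `star (μ j)` added -/
noncomputable def addDet (μ : L → I) (F : (κ → Letter Λ) → ℂ) :
    (κ ⊕ Added (Λ := Λ) μ → Letter Λ) → ℂ :=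
  fun K => F (fun k => K (Sum.inl k)) * ∏ j, detOf (Λ.star (μ j)) fun a => K (Sum.inr ⟨j, a⟩)

omit [Fintype I] in
lemma kappa_part (F : (κ → Letter Λ) → ℂ) {b : Letter Λ} (w : κ → Letter Λ)
    (hb : ε (dual b) = -ε b) :
    ∑ k, (JJ dual ε b (w k) * F (Function.update w k (dual b)) +
      JJ dual ε (dual b) (w k) * F (Function.update w k b)) = -(ε b * net w b * F w) := by
  have e1 : ∀ k, JJ dual ε b (w k) * F (Function.update w k (dual b)) =
      if w k = dual b then ε b * F w else 0 := by
    intro k
    unfold JJ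
    by_cases h : w k = dual b
    · rw [if_pos h, if_pos h, ← h, Function.update_eq_self]
    · rw [if_neg h, if_neg h, zero_mul]
  have e2 : ∀ k, JJ dual ε (dual b) (w k) * F (Function.update w k b) =
      if w k = b then -(ε b * F w) else 0 := by
    intro k
    unfold JJ
    rw [dual_dual]
    by_cases h : w k = b
    · rw [if_pos h, if_pos h, hb, ← h, Function.update_eq_self]; ring
    · rw [if_neg h, if_neg h, zero_mul]
  rw [sum_add_distrib, sum_congr rfl fun k _ => e1 k, sum_congr rfl fun k _ => e2 k,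
    ← sum_filter, ← sum_filter, sum_const, sum_const, net, occ, occ]
  push_cast
  simp only [nsmul_eq_mul]
  ring

omit [Fintype I] [Fintype κ] in
lemma addDet_update_inl (μ : L → I) (F : (κ → Letter Λ) → ℂ) (K : κ ⊕ Added (Λ := Λ) μ → Letter Λ)
    (k : κ) (z : Letter Λ) : addDet Λ μ F (Function.update K (Sum.inl k) z) =
      F (Function.update (fun k => K (Sum.inl k)) k z) *
        ∏ j, detOf (Λ.star (μ j)) fun a => K (Sum.inr ⟨j, a⟩) := by
  unfold addDet
  congr 1
  congr 1
  funext l
  by_cases h : l = k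
  · subst h; rw [Function.update_self, Function.update_self]
  · rw [Function.update_of_ne h, Function.update_of_ne fun h' => h (Sum.inl_injective h')]

omit [Fintype I] [Fintype κ] in
lemma addDet_update_inr (μ : L → I) (F : (κ → Letter Λ) → ℂ) (K : κ ⊕ Added (Λ := Λ) μ → Letter Λ)
    (j : L) (a : Fin (Λ.dim (Λ.star (μ j)))) (z : Letter Λ) :
    addDet Λ μ F (Function.update K (Sum.inr ⟨j, a⟩) z) = F (fun k => K (Sum.inl k)) *
      (detOf (Λ.star (μ j)) (Function.update (fun a => K (Sum.inr ⟨j, a⟩)) a z) *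
        ∏ l ∈ univ.erase j, detOf (Λ.star (μ l)) fun a => K (Sum.inr ⟨l, a⟩)) := by
  unfold addDet
  congr 1
  rw [← mul_prod_erase univ _ (mem_univ j)]
  congr 1
  · congr 1
    funext l
    by_cases h : l = a
    · subst h; rw [Function.update_self, Function.update_self]
    · rw [Function.update_of_ne h, Function.update_of_ne]
      intro h'
      have h3 := Sum.inr_injective h'
      exact h (eq_of_heq (Sigma.mk.inj_iff.mp h3).2)
  · refine prod_congr rfl fun l hl => ?_
    congr 1
    funext i'
    rw [Function.update_of_ne]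
    intro h'
    have h3 := Sum.inr_injective h'
    exact (ne_of_mem_erase hl) (congrArg Sigma.fst h3)

omit [Fintype I] in
lemma added_part (μ : L → I) (F : (κ → Letter Λ) → ℂ) (K : κ ⊕ Added (Λ := Λ) μ → Letter Λ)
    {b c : Letter Λ} (hbc : (dual b).1 = c.1) :
    ∑ q : Added (Λ := Λ) μ, JJ dual ε b (K (Sum.inr q)) *
      addDet Λ μ F (Function.update K (Sum.inr q) c) =
      if c = dual b then ε b * ((univ.filter fun j => μ j = b.1).card : ℂ) *
        (F (fun k => K (Sum.inl k)) * ∏ j, detOf (Λ.star (μ j)) fun a => K (Sum.inr ⟨j, a⟩))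
        else 0 := by
  set D : L → ℂ := fun j => detOf (Λ.star (μ j)) fun a => K (Sum.inr ⟨j, a⟩) with hDdef
  set w : κ → Letter Λ := fun k => K (Sum.inl k) with hw
  rw [Fintype.sum_sigma]
  have h4 : ∀ j, ∑ a : Fin (Λ.dim (Λ.star (μ j))), JJ dual ε b (K (Sum.inr ⟨j, a⟩)) *
      addDet Λ μ F (Function.update K (Sum.inr ⟨j, a⟩) c) =
      if c = dual b then (if μ j = b.1 then ε b * (F w * ∏ j, D j) else 0) else 0 := by
    intro j
    have h5 : ∑ a : Fin (Λ.dim (Λ.star (μ j))), JJ dual ε b (K (Sum.inr ⟨j, a⟩)) *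
        addDet Λ μ F (Function.update K (Sum.inr ⟨j, a⟩) c) =
        (∑ a : Fin (Λ.dim (Λ.star (μ j))), JJ dual ε b (K (Sum.inr ⟨j, a⟩)) *
          detOf (Λ.star (μ j)) (Function.update (fun a => K (Sum.inr ⟨j, a⟩)) a c)) *
          (F w * ∏ l ∈ univ.erase j, D l) := by
      rw [sum_mul]
      exact sum_congr rfl fun a _ => by rw [addDet_update_inr]; ring
    rw [h5, det_sum (Λ.star (μ j)) hbc]
    by_cases hc : c = dual b
    · have h6 : (c.1 = Λ.star (μ j) ∧ c = dual b) = (μ j = b.1) := by
        rw [eq_iff_iff]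
        constructor
        · rintro ⟨h7, -⟩
          rw [hc, dual_fst] at h7
          rw [← Λ.star_star (μ j), ← h7, Λ.star_star]
        · intro h7
          exact ⟨by rw [hc, h7, dual_fst], hc⟩
      simp only [h6, if_pos hc]
      by_cases h7 : μ j = b.1
      · rw [if_pos h7, if_pos h7, ← mul_prod_erase univ _ (mem_univ j)]
        change ε b * D j * (F w * ∏ l ∈ univ.erase j, D l) = ε b * (F w * (D j * _))
        ring
      · rw [if_neg h7, if_neg h7, zero_mul]
    · rw [if_neg fun h => hc h.2, if_neg hc, zero_mul]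
  rw [sum_congr rfl fun j _ => h4 j]
  by_cases hc : c = dual b
  · simp only [if_pos hc]
    rw [← sum_filter, sum_const, nsmul_eq_mul]
    ring
  · simp only [if_neg hc, sum_const_zero]

omit [Fintype I] in
lemma addDet_mem (hε : ∀ x : Letter Λ, ¬ Λ.orth x.1 = true → ε (dual x) = -ε x) {μ : L → I}
    {t : κ → I} {F : (κ → Letter Λ) → ℂ}
    (h1 : ∀ b c : Letter Λ, ¬ Λ.orth b.1 = true → (dual b).1 = c.1 → c ≠ dual b →
      ∀ w : κ → Letter Λ, ∑ k, (JJ dual ε b (w k) * F (Function.update w k c) +
        JJ dual ε c (w k) * F (Function.update w k b)) = 0)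
    (h1' : ∀ b c : Letter Λ, Λ.orth b.1 = true → b.1 = c.1 →
      ∀ w : κ → Letter Λ, ∑ k, (JJ dual ε b (w k) * F (Function.update w k c) -
        JJ dual ε c (w k) * F (Function.update w k b)) = 0)
    (h2 : ∀ w, F w ≠ 0 → ∀ k, (w k).1 = t k)
    (h3 : ∀ w, F w ≠ 0 → ∀ x : Letter Λ, ¬ Λ.orth x.1 = true → net w x =
      ((univ.filter fun j => μ j = x.1).card : ℤ) - (univ.filter fun j => μ j = Λ.star x.1).card)
    (h4 : ∀ w, F w ≠ 0 → ∀ x : Letter Λ, Λ.orth x.1 = true →
      Even (occ w x + (univ.filter fun j => μ j = x.1).card)) :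
    InvM (fun i => Λ.orth i = true) (Sigma.fst : Letter Λ → I) dual ε
      (Sum.elim t fun b : Added (Λ := Λ) μ => Λ.star (μ b.1)) (addDet Λ μ F) := by
  refine ⟨fun b c hb hbc K => ?_, fun b c hb hbc K => ?_, fun o ho K hK => ?_, fun K hK k => ?_⟩
  · set w : κ → Letter Λ := fun k => K (Sum.inl k) with hw
    set D : ℂ := ∏ j, detOf (Λ.star (μ j)) fun a => K (Sum.inr ⟨j, a⟩) with hD
    have hcb : (dual c).1 = b.1 := by rw [dual_fst, ← hbc, dual_fst, Λ.star_star]
    rw [Fintype.sum_sum_type]
    have e1 : ∑ k : κ, (JJ dual ε b (K (Sum.inl k)) *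
        addDet Λ μ F (Function.update K (Sum.inl k) c) +
        JJ dual ε c (K (Sum.inl k)) * addDet Λ μ F (Function.update K (Sum.inl k) b)) =
        (∑ k, (JJ dual ε b (w k) * F (Function.update w k c) +
          JJ dual ε c (w k) * F (Function.update w k b))) * D := by
      rw [sum_mul]
      exact sum_congr rfl fun k _ => by rw [addDet_update_inl, addDet_update_inl]; ring
    have e2 : ∑ q : Added (Λ := Λ) μ, (JJ dual ε b (K (Sum.inr q)) *
        addDet Λ μ F (Function.update K (Sum.inr q) c) +
        JJ dual ε c (K (Sum.inr q)) * addDet Λ μ F (Function.update K (Sum.inr q) b)) =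
        ∑ q : Added (Λ := Λ) μ, JJ dual ε b (K (Sum.inr q)) *
          addDet Λ μ F (Function.update K (Sum.inr q) c) +
        ∑ q : Added (Λ := Λ) μ, JJ dual ε c (K (Sum.inr q)) *
          addDet Λ μ F (Function.update K (Sum.inr q) b) := sum_add_distrib
    rw [e1, e2, added_part μ F K hbc, added_part μ F K hcb]
    by_cases hc : c = dual b
    · subst hc
      rw [kappa_part F w (hε b hb), if_pos rfl, if_pos (dual_dual b).symm, hε b hb]
      by_cases hF : F w = 0
      · rw [hF]; ring
      · have h5 : (net w b : ℂ) = ((univ.filter fun j => μ j = b.1).card : ℂ) -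
            ((univ.filter fun j => μ j = Λ.star b.1).card : ℂ) := by
          rw [h3 w hF b hb]; push_cast; ring
        rw [h5, dual_fst]
        ring
    · rw [h1 b c hb hbc hc, if_neg hc, if_neg fun h => hc (by rw [h, dual_dual])]
      ring
  · by_cases hbc' : b = c
    · subst hbc'
      exact sum_eq_zero fun k _ => sub_self _
    set w : κ → Letter Λ := fun k => K (Sum.inl k) with hw
    set D : ℂ := ∏ j, detOf (Λ.star (μ j)) fun a => K (Sum.inr ⟨j, a⟩) with hD
    have hc : Λ.orth c.1 = true := by rw [← hbc]; exact hb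
    have h5 : (dual b).1 = c.1 := by rw [dual_of_orth hb, hbc]
    have h6 : (dual c).1 = b.1 := by rw [dual_of_orth hc, hbc]
    rw [Fintype.sum_sum_type]
    have e1 : ∑ k : κ, (JJ dual ε b (K (Sum.inl k)) *
        addDet Λ μ F (Function.update K (Sum.inl k) c) -
        JJ dual ε c (K (Sum.inl k)) * addDet Λ μ F (Function.update K (Sum.inl k) b)) =
        (∑ k, (JJ dual ε b (w k) * F (Function.update w k c) -
          JJ dual ε c (w k) * F (Function.update w k b))) * D := by
      rw [sum_mul]
      exact sum_congr rfl fun k _ => by rw [addDet_update_inl, addDet_update_inl]; ring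
    have e2 : ∑ q : Added (Λ := Λ) μ, (JJ dual ε b (K (Sum.inr q)) *
        addDet Λ μ F (Function.update K (Sum.inr q) c) -
        JJ dual ε c (K (Sum.inr q)) * addDet Λ μ F (Function.update K (Sum.inr q) b)) =
        ∑ q : Added (Λ := Λ) μ, JJ dual ε b (K (Sum.inr q)) *
          addDet Λ μ F (Function.update K (Sum.inr q) c) -
        ∑ q : Added (Λ := Λ) μ, JJ dual ε c (K (Sum.inr q)) *
          addDet Λ μ F (Function.update K (Sum.inr q) b) := sum_sub_distrib _ _
    rw [e1, e2, added_part μ F K h5, added_part μ F K h6, h1' b c hb hbc,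
      if_neg (by rw [dual_of_orth hb]; exact Ne.symm hbc'), if_neg (by rw [dual_of_orth hc]; exact hbc')]
    ring
  · have hF : F (fun k => K (Sum.inl k)) ≠ 0 := left_ne_zero_of_mul hK
    have hD := right_ne_zero_of_mul hK
    rw [prod_ne_zero_iff] at hD
    have e1 : (univ.filter fun k => K k = o).card = occ (fun k => K (Sum.inl k)) o +
        (univ.filter fun q : Added (Λ := Λ) μ => K (Sum.inr q) = o).card := by
      rw [card_filter, Fintype.sum_sum_type, occ, card_filter, card_filter]
    have e2 : (univ.filter fun q : Added (Λ := Λ) μ => K (Sum.inr q) = o).card =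
        (univ.filter fun j => μ j = o.1).card := by
      rw [card_filter, card_filter, Fintype.sum_sigma]
      refine sum_congr rfl fun j _ => ?_
      rw [← card_filter, detOf_occ (hD j (mem_univ j)) o]
      by_cases h : μ j = o.1
      · rw [if_pos h, if_pos]
        rw [h, Λ.orth_star _ ho]
      · rw [if_neg h, if_neg]
        intro h5
        apply h
        rw [← Λ.star_star (μ j), ← h5, Λ.orth_star _ ho]
    rw [e1, e2]
    exact h4 _ hF o ho
  · have hF : F (fun k => K (Sum.inl k)) ≠ 0 := left_ne_zero_of_mul hK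
    have hD := right_ne_zero_of_mul hK
    rw [prod_ne_zero_iff] at hD
    rcases k with k | ⟨j, a⟩
    · exact h2 _ hF k
    · exact detOf_cls (hD j (mem_univ j)) a

end Add

end Q207.DB
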