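import Pool.Agent.Q207.DB.GCore

/-!
# The first fundamental theorem for products of classical groups
-/

namespace Q207.DB

open Finset Pool.Agent.H204R3.SP Pool.Agent.Q59.GC

variable {I : Type} {Λ : Labels I} [DecidableEq I] {ε : Letter Λ → ℂ}

variable {κ : Type}

/-- the span of the products of pairings and determinants -/
noncomputable def algT (Λ : Labels I) (ε : Letter Λ → ℂ) (κ : Type) : Submodule ℂ ((κ → Letter Λ) → ℂ) :=
  Submodule.span ℂ {x | ∃ (l p : ℕ) (μ : Fin l → I) (ν : Fin p → I)
    (e : (Σ j : Fin l, Fin (Λ.dim (μ j))) ⊕ (Fin p × Fin 2) ≃ κ),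
    (∀ j, Λ.star (μ j) ≠ μ j ∨ Λ.orth (μ j) = true) ∧ x = prodOf ε μ ν e}

lemma detSpan_le {L : Type} [Fintype L] (μ : L → I) (h : ∀ j, Λ.star (μ j) ≠ μ j ∨ Λ.orth (μ j) = true) :
    DetSpan ε μ κ ≤ algT Λ ε κ := by
  unfold DetSpan
  rw [Submodule.span_le]
  rintro x ⟨p, ν, e, rfl⟩
  let η := Fintype.equivFin L
  refine Submodule.subset_span ⟨Fintype.card L, p, fun j => μ (η.symm j), ν,
    (Equiv.sumCongr (Equiv.sigmaCongrLeft (β := fun j => Fin (Λ.dim (μ j))) η.symm)
      (Equiv.refl _)).trans e, fun j => h _, ?_⟩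
  funext w
  unfold prodOf
  congr 1
  exact Fintype.prod_equiv η _ _ fun j => by
    obtain ⟨j', rfl⟩ := η.symm.surjective j
    rw [Equiv.apply_symm_apply]
    rfl

variable [Fintype κ] [DecidableEq κ]

/-- the parities of the numbers of the orthogonal letters -/
def pv (w : κ → Letter Λ) (x : Letter Λ) : ZMod 2 :=
  if Λ.orth x.1 = true then (occ w x : ZMod 2) else 0

lemma occ_update (w : κ → Letter Λ) (k : κ) (c x : Letter Λ) :
    (occ (Function.update w k c) x : ZMod 2) =
      occ w x + (if w k = x then 1 else 0) + (if c = x then 1 else 0) := by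
  have h1 : ∀ v : κ → Letter Λ, (occ v x : ZMod 2) =
      (if v k = x then 1 else 0) + ∑ l ∈ univ.erase k, if v l = x then 1 else 0 := by
    intro v
    rw [add_sum_erase univ (fun l => if v l = x then (1 : ZMod 2) else 0) (mem_univ k)]
    unfold occ
    rw [card_filter]
    push_cast
    rfl
  rw [h1, h1 w, Function.update_self]
  have h2 : ∑ l ∈ univ.erase k, (if Function.update w k c l = x then (1 : ZMod 2) else 0) =
      ∑ l ∈ univ.erase k, if w l = x then 1 else 0 :=
    sum_congr rfl fun l hl => by rw [Function.update_of_ne (ne_of_mem_erase hl)]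
  rw [h2]
  have h3 : (if w k = x then (1 : ZMod 2) else 0) + (if w k = x then 1 else 0) = 0 :=
    CharTwo.add_self_eq_zero _
  linear_combination -h3

variable [Fintype I]

/-- the part of one type and one parity vector -/
noncomputable def part (x : (κ → Letter Λ) → ℂ) (t : κ → I) (p : Letter Λ → ZMod 2) :
    (κ → Letter Λ) → ℂ :=
  fun w => if (fun k => (w k).1) = t ∧ pv w = p then x w else 0

lemma sum_part (x : (κ → Letter Λ) → ℂ) :
    ∑ t : κ → I, ∑ p : Letter Λ → ZMod 2, part x t p = x := by
  funext w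
  rw [Finset.sum_apply]
  have h1 : ∀ t : κ → I, (∑ p : Letter Λ → ZMod 2, part x t p) w =
      if (fun k => (w k).1) = t then x w else 0 := by
    intro t
    rw [Finset.sum_apply]
    unfold part
    by_cases ht : (fun k => (w k).1) = t
    · simp only [ht, true_and]
      rw [sum_ite_eq, if_pos (mem_univ _), if_pos trivial]
    · simp only [ht, false_and, if_false, sum_const_zero]
  rw [sum_congr rfl fun t _ => h1 t, sum_ite_eq, if_pos (mem_univ _)]

omit [Fintype κ] [DecidableEq I] [Fintype I] in
lemma typ_update {w : κ → Letter Λ} {k : κ} {c : Letter Λ} (h : (w k).1 = c.1) :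
    (fun l => (Function.update w k c l).1) = fun l => (w l).1 := by
  funext l
  by_cases hl : l = k
  · subst hl
    rw [Function.update_self, h]
  · rw [Function.update_of_ne hl]

lemma part_gl {x : (κ → Letter Λ) → ℂ}
    (h1 : ∀ b c : Letter Λ, ¬ Λ.orth b.1 = true → (dual b).1 = c.1 → c ≠ dual b →
      ∀ w : κ → Letter Λ, ∑ k, (JJ dual ε b (w k) * x (Function.update w k c) +
        JJ dual ε c (w k) * x (Function.update w k b)) = 0) (t : κ → I)
    (p : Letter Λ → ZMod 2) :
    ∀ b c : Letter Λ, ¬ Λ.orth b.1 = true → (dual b).1 = c.1 → c ≠ dual b →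
      ∀ w : κ → Letter Λ, ∑ k, (JJ dual ε b (w k) * part x t p (Function.update w k c) +
        JJ dual ε c (w k) * part x t p (Function.update w k b)) = 0 := by
  intro b c hb hbc hne w
  have hcb : (dual c).1 = b.1 := by rw [dual_fst, ← hbc, dual_fst, Λ.star_star]
  have hc : ¬ Λ.orth c.1 = true := by rw [← hbc, orth_dual]; exact hb
  have key : ∀ (b c : Letter Λ), ¬ Λ.orth b.1 = true → ¬ Λ.orth c.1 = true → (dual b).1 = c.1 →
      ∀ k, JJ dual ε b (w k) * part x t p (Function.update w k c) =
      if (fun k => (w k).1) = t ∧ pv w = p then JJ dual ε b (w k) * x (Function.update w k c)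
        else 0 := by
    intro b c hb hc hbc k
    unfold JJ
    by_cases h2 : w k = dual b
    · have h3 := typ_update (w := w) (k := k) (c := c) (by rw [h2, hbc])
      have h4 : pv (Function.update w k c) = pv w := by
        funext z
        unfold pv
        by_cases hz : Λ.orth z.1 = true
        · rw [if_pos hz, if_pos hz, occ_update, if_neg, if_neg, add_zero, add_zero]
          · rintro rfl
            exact hc hz
          · intro h5
            rw [h2] at h5
            apply hb
            rw [← orth_dual, h5]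
            exact hz
        · rw [if_neg hz, if_neg hz]
      unfold part
      rw [h3, h4]
      split_ifs <;> simp
    · rw [if_neg h2, zero_mul, zero_mul]
      split_ifs <;> rfl
  have h2 : ∀ k, JJ dual ε b (w k) * part x t p (Function.update w k c) +
      JJ dual ε c (w k) * part x t p (Function.update w k b) =
      if (fun k => (w k).1) = t ∧ pv w = p then (JJ dual ε b (w k) * x (Function.update w k c) +
        JJ dual ε c (w k) * x (Function.update w k b)) else 0 := by
    intro k
    rw [key b c hb hc hbc k, key c b hc hb hcb k]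
    split_ifs <;> simp
  rw [sum_congr rfl fun k _ => h2 k]
  by_cases h3 : (fun k => (w k).1) = t ∧ pv w = p
  · simp only [if_pos h3]
    exact h1 b c hb hbc hne w
  · simp only [if_neg h3, sum_const_zero]

lemma part_so {x : (κ → Letter Λ) → ℂ}
    (h1 : ∀ b c : Letter Λ, Λ.orth b.1 = true → b.1 = c.1 →
      ∀ w : κ → Letter Λ, ∑ k, (JJ dual ε b (w k) * x (Function.update w k c) -
        JJ dual ε c (w k) * x (Function.update w k b)) = 0) (t : κ → I)
    (p : Letter Λ → ZMod 2) :
    ∀ b c : Letter Λ, Λ.orth b.1 = true → b.1 = c.1 →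
      ∀ w : κ → Letter Λ, ∑ k, (JJ dual ε b (w k) * part x t p (Function.update w k c) -
        JJ dual ε c (w k) * part x t p (Function.update w k b)) = 0 := by
  intro b c hb hbc w
  have hc : Λ.orth c.1 = true := by rw [← hbc]; exact hb
  let q : Letter Λ → ZMod 2 := fun z => pv w z + (if b = z then 1 else 0) + (if c = z then 1 else 0)
  have key : ∀ (b' c' : Letter Λ), Λ.orth b'.1 = true → b'.1 = c'.1 →
      (∀ z, pv w z + (if b' = z then 1 else 0) + (if c' = z then 1 else 0) = q z) →
      ∀ k, JJ dual ε b' (w k) * part x t p (Function.update w k c') =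
      if (fun k => (w k).1) = t ∧ q = p then JJ dual ε b' (w k) * x (Function.update w k c')
        else 0 := by
    intro b' c' hb' hbc' hq k
    have hc' : Λ.orth c'.1 = true := by rw [← hbc']; exact hb'
    unfold JJ
    rw [dual_of_orth hb']
    by_cases h2 : w k = b'
    · have h3 := typ_update (w := w) (k := k) (c := c') (by rw [h2, hbc'])
      have h4 : pv (Function.update w k c') = q := by
        funext z
        rw [← hq z]
        unfold pv
        by_cases hz : Λ.orth z.1 = true
        · rw [if_pos hz, if_pos hz, occ_update, h2]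
        · rw [if_neg hz, if_neg hz, if_neg, if_neg, add_zero, add_zero]
          · rintro rfl
            exact hz hc'
          · rintro rfl
            exact hz hb'
      unfold part
      rw [h3, h4]
      split_ifs <;> simp
    · rw [if_neg h2, zero_mul, zero_mul]
      split_ifs <;> rfl
  have h2 : ∀ k, JJ dual ε b (w k) * part x t p (Function.update w k c) -
      JJ dual ε c (w k) * part x t p (Function.update w k b) =
      if (fun k => (w k).1) = t ∧ q = p then (JJ dual ε b (w k) * x (Function.update w k c) -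
        JJ dual ε c (w k) * x (Function.update w k b)) else 0 := by
    intro k
    rw [key b c hb hbc (fun z => rfl) k, key c b hc hbc.symm (fun z => by
      change _ = pv w z + (if b = z then 1 else 0) + (if c = z then 1 else 0)
      ring) k]
    split_ifs <;> simp
  rw [sum_congr rfl fun k _ => h2 k]
  by_cases h3 : (fun k => (w k).1) = t ∧ q = p
  · simp only [if_pos h3]
    exact h1 b c hb hbc w
  · simp only [if_neg h3, sum_const_zero]

/-- **The first fundamental theorem.** -/
theorem fft (hε : ∀ x : Letter Λ, ¬ Λ.orth x.1 = true → ε (dual x) = -ε x)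
    (hε0 : ∀ x, ε x ≠ 0) {x : (κ → Letter Λ) → ℂ} (hx : ∀ g, InD ε g → act g x = x) : x ∈ algT Λ ε κ := by
  classical
  rw [← sum_part x]
  refine Submodule.sum_mem _ fun t _ => Submodule.sum_mem _ fun p _ => ?_
  by_cases h0 : part x t p = 0
  · rw [h0]; exact Submodule.zero_mem _
  obtain ⟨w0, hw0⟩ := Function.ne_iff.mp h0
  rw [Pi.zero_apply] at hw0
  have hpart : ∀ w, part x t p w ≠ 0 → ((fun k => (w k).1) = t ∧ pv w = p) ∧ x w ≠ 0 := by
    intro w hw
    unfold part at hw
    split_ifs at hw with h
    · exact ⟨h, hw⟩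
    · exact absurd rfl hw
  have heq : ∀ w, part x t p w ≠ 0 → ∀ (i : I) (a b : Fin (Λ.dim i)),
      net w ⟨i, a⟩ = net w ⟨i, b⟩ := fun w hw i a b => net_eq hx (hpart w hw).2 i a b
  have hpar : ∀ w, part x t p w ≠ 0 → ∀ (i : I), Λ.orth i = true → ∀ (a b : Fin (Λ.dim i)),
      occ w ⟨i, a⟩ % 2 = occ w ⟨i, b⟩ % 2 :=
    fun w hw i hi a b => parity_eq hx (hpart w hw).2 hi a b
  have hcore := core hε hε0
    (part_gl (fun b c hb hbc hne w => root_rel hε hε0 hx hb hbc hne w) t p)
    (part_so (fun b c hb hbc w => rot_rel hε0 hx hb hbc w) t p)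
    (fun w hw k => congrFun (hpart w hw).1.1 k) heq hpar hw0 (fun w hw z hz => by
      have h1 : pv w z = pv w0 z := by rw [(hpart w hw).1.2, (hpart w0 hw0).1.2]
      unfold pv at h1
      rw [if_pos hz, if_pos hz] at h1
      exact (ZMod.natCast_eq_natCast_iff' _ _ 2).mp h1)
  refine detSpan_le _ (fun j => ?_) hcore
  obtain ⟨i, j⟩ := j
  by_contra hcon
  rw [not_or, not_not] at hcon
  have hj : 0 < mult w0 i := (Nat.zero_le _).trans_lt j.2
  unfold mult at hj
  split_ifs at hj with h1 h2
  · exact hcon.2 h2
  · have h3 := heq w0 hw0 i ⟨0, h1⟩ (Fin.rev ⟨0, h1⟩)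
    have h4 : (⟨i, Fin.rev ⟨0, h1⟩⟩ : Letter Λ) = dual ⟨i, ⟨0, h1⟩⟩ := by
      refine letter_ext ?_ ?_
      · rw [dual_fst]
        exact hcon.1.symm
      · rw [dual_of_not h2]
        rfl
    rw [h4] at h3
    have h5 : net w0 (dual ⟨i, ⟨0, h1⟩⟩) = -net w0 ⟨i, ⟨0, h1⟩⟩ := net_dual _ _
    rw [h5] at h3
    omega
  · exact absurd hj (lt_irrefl _)

end Q207.DB
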