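import Pool.Agent.Q207.DB.GRot

/-!
# The numbers of the letters in the words of an invariant tensor
-/

namespace Q207.DB

open Finset Pool.Agent.H204R3.SP Pool.Agent.Q59.GC

variable {I : Type} {Λ : Labels I} [DecidableEq I] {ε : Letter Λ → ℂ} [Fintype I]

/-- the number of the letters `x` -/
def occ {κ : Type} [Fintype κ] (w : κ → Letter Λ) (x : Letter Λ) : ℕ :=
  (univ.filter fun k => w k = x).card

/-- the number of the letters `x`, minus the number of the dual letters -/
def net {κ : Type} [Fintype κ] (w : κ → Letter Λ) (x : Letter Λ) : ℤ :=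
  (occ w x : ℤ) - occ w (dual x)

omit [Fintype I] in
lemma net_dual {κ : Type} [Fintype κ] (w : κ → Letter Λ) (x : Letter Λ) :
    net w (dual x) = - net w x := by
  unfold net
  rw [dual_dual]; ring

omit [Fintype I] in
lemma net_orth {κ : Type} [Fintype κ] (w : κ → Letter Λ) {x : Letter Λ}
    (hx : Λ.orth x.1 = true) : net w x = 0 := by
  unfold net
  rw [dual_of_orth hx]; ring

omit [Fintype I] [DecidableEq I] in
lemma prod_pow_net {κ : Type} [Fintype κ] [DecidableEq κ] (w : κ → Letter Λ) (a : Letter Λ → ℤ) :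
    ∏ k, (2 : ℂ) ^ a (w k) = (2 : ℂ) ^ (∑ k, a (w k)) := by
  classical
  induction (univ : Finset κ) using Finset.induction_on with
  | empty => simp
  | insert k s hk ih => rw [prod_insert hk, sum_insert hk, ih, zpow_add₀ two_ne_zero]

lemma sum_eq_zero_of_diag {κ : Type} [Fintype κ] [DecidableEq κ] {x : (κ → Letter Λ) → ℂ}
    (hx : ∀ g, InD ε g → act g x = x) {w : κ → Letter Λ} (hw : x w ≠ 0) (a : Letter Λ → ℤ)
    (h1 : ∀ y, a y + a (dual y) = 0)
    (h2 : ∀ i : I, (Λ.star i ≠ i ∨ Λ.orth i = true) → ∑ j, a ⟨i, j⟩ = 0) :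
    ∑ k, a (w k) = 0 := by
  classical
  have h3 : InD ε (Matrix.diagonal fun y => (2 : ℂ) ^ a y) := by
    refine inD_diagonal (fun y => ?_) (fun i hi => ?_)
    · rw [← zpow_add₀ two_ne_zero, h1, zpow_zero]
    · have h4 : ∀ s : Finset (Fin (Λ.dim i)), ∏ j ∈ s, (2 : ℂ) ^ a ⟨i, j⟩ =
          (2 : ℂ) ^ (∑ j ∈ s, a ⟨i, j⟩) := by
        intro s
        induction s using Finset.induction_on with
        | empty => simp
        | insert k s hk ih => rw [prod_insert hk, sum_insert hk, ih, zpow_add₀ two_ne_zero]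
      rw [h4, h2 i hi, zpow_zero]
  have h4 := congrFun (hx _ h3) w
  rw [act_diagonal, prod_pow_net] at h4
  have h5 : (2 : ℂ) ^ (∑ k, a (w k)) = 1 := mul_right_cancel₀ hw (by rw [h4, one_mul])
  have h6 : (2 : ℝ) ^ (∑ k, a (w k)) = 1 := by
    have := congrArg norm h5
    rwa [norm_zpow, norm_one, Complex.norm_two] at this
  exact (zpow_eq_one_iff_right₀ (by norm_num) (by norm_num)).mp h6

omit [Fintype I] in
lemma sum_single {κ : Type} [Fintype κ] (w : κ → Letter Λ) (x : Letter Λ) :
    ∑ k, ((if w k = x then (1 : ℤ) else 0) - (if w k = dual x then 1 else 0)) = net w x := by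
  rw [sum_sub_distrib, sum_boole, sum_boole]
  rfl

omit [Fintype I] [DecidableEq I] in
lemma dual_eq_iff {x y : Letter Λ} : dual x = y ↔ x = dual y :=
  ⟨fun h => by rw [← h, dual_dual], fun h => by rw [h, dual_dual]⟩

/-- in every class all differences are equal -/
lemma net_eq {κ : Type} [Fintype κ]
    [DecidableEq κ] {x : (κ → Letter Λ) → ℂ}
    (hx : ∀ g, InD ε g → act g x = x) {w : κ → Letter Λ} (hw : x w ≠ 0) (i : I)
    (a b : Fin (Λ.dim i)) : net w ⟨i, a⟩ = net w ⟨i, b⟩ := by
  by_cases ho : Λ.orth i = true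
  · rw [net_orth w (x := ⟨i, a⟩) ho, net_orth w (x := ⟨i, b⟩) ho]
  by_cases hi : Λ.star i = i
  · have key : ∀ y : Letter Λ, y.1 = i → net w y = 0 := by
      intro y hy
      rw [← sum_single w y]
      refine sum_eq_zero_of_diag hx hw (fun z => (if z = y then (1 : ℤ) else 0) -
        (if z = dual y then 1 else 0)) (fun z => ?_) (fun ν hν => ?_)
      · simp only [dual_eq_iff, dual_dual]
        ring
      · have hνi : ν ≠ i := by
          rintro rfl
          rcases hν with h | h
          · exact h hi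
          · exact ho h
        refine sum_eq_zero fun k _ => ?_
        rw [if_neg, if_neg]
        · ring
        · intro h
          apply hνi
          have h1 : ν = (dual y).1 := congrArg Sigma.fst h
          rw [h1, dual_fst, hy, hi]
        · intro h
          apply hνi
          have h1 : ν = y.1 := congrArg Sigma.fst h
          rw [h1, hy]
    rw [key _ rfl, key _ rfl]
  · have h0 := sum_eq_zero_of_diag hx hw (fun z =>
      ((if z = ⟨i, a⟩ then (1 : ℤ) else 0) - (if z = dual ⟨i, a⟩ then 1 else 0)) -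
      ((if z = ⟨i, b⟩ then (1 : ℤ) else 0) - (if z = dual ⟨i, b⟩ then 1 else 0))) (fun z => ?_)
      (fun ν hν => ?_)
    · rw [sum_sub_distrib, sum_single, sum_single] at h0
      linarith
    · simp only [dual_eq_iff, dual_dual]
      ring
    · by_cases h1 : ν = i
      · subst h1
        have e2 : ∀ k c, (⟨ν, k⟩ : Letter Λ) ≠ dual ⟨ν, c⟩ := by
          intro k c h
          have h2 : ν = (dual (⟨ν, c⟩ : Letter Λ)).1 := congrArg Sigma.fst h
          rw [dual_fst] at h2
          exact hi h2.symm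
        simp only [mk_eq_iff, if_neg (e2 _ _), sub_zero]
        rw [sum_sub_distrib, sum_ite_eq' univ a, sum_ite_eq' univ b, if_pos (mem_univ _),
          if_pos (mem_univ _), sub_self]
      by_cases h2 : ν = Λ.star i
      · have e2 : ∀ k c, (⟨ν, k⟩ : Letter Λ) ≠ ⟨i, c⟩ := fun k c h => h1 (congrArg Sigma.fst h)
        have e3 : ∀ c, ∃ c' : Fin (Λ.dim ν), dual ⟨i, c⟩ = (⟨ν, c'⟩ : Letter Λ) := by
          intro c
          exact exists_mk _ (by rw [dual_fst, h2])
        obtain ⟨a', ha'⟩ := e3 a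
        obtain ⟨b', hb'⟩ := e3 b
        simp only [if_neg (e2 _ _), ha', hb', mk_eq_iff, zero_sub]
        rw [sum_sub_distrib, sum_neg_distrib, sum_neg_distrib, sum_ite_eq' univ a',
          sum_ite_eq' univ b', if_pos (mem_univ _), if_pos (mem_univ _), sub_self]
      · refine sum_eq_zero fun k _ => ?_
        have e2 : ∀ c, (⟨ν, k⟩ : Letter Λ) ≠ ⟨i, c⟩ := fun c h => h1 (congrArg Sigma.fst h)
        have e3 : ∀ c, (⟨ν, k⟩ : Letter Λ) ≠ dual ⟨i, c⟩ := by
          intro c h
          apply h2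
          have h3 : ν = (dual (⟨i, c⟩ : Letter Λ)).1 := congrArg Sigma.fst h
          rw [h3, dual_fst]
        rw [if_neg (e2 a), if_neg (e2 b), if_neg (e3 a), if_neg (e3 b)]
        ring

/-- in an orthogonal class all letters occur with the same parity -/
lemma parity_eq {κ : Type} [Fintype κ]
    [DecidableEq κ] {x : (κ → Letter Λ) → ℂ}
    (hx : ∀ g, InD ε g → act g x = x) {w : κ → Letter Λ} (hw : x w ≠ 0) {i : I}
    (hi : Λ.orth i = true)
    (a b : Fin (Λ.dim i)) : occ w ⟨i, a⟩ % 2 = occ w ⟨i, b⟩ % 2 := by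
  classical
  by_cases hab : a = b
  · rw [hab]
  have hab' : (⟨i, a⟩ : Letter Λ) ≠ ⟨i, b⟩ := fun h => hab (mk_eq_iff.mp h)
  set d : Letter Λ → ℂ := fun y => if y = ⟨i, a⟩ ∨ y = ⟨i, b⟩ then -1 else 1 with hd
  have hdd : ∀ y, d (dual y) = d y := by
    intro y
    have h1 : (dual y = ⟨i, a⟩ ∨ dual y = ⟨i, b⟩) ↔ (y = ⟨i, a⟩ ∨ y = ⟨i, b⟩) := by
      rw [dual_eq_iff, dual_eq_iff, dual_of_orth (x := ⟨i, a⟩) hi, dual_of_orth (x := ⟨i, b⟩) hi]
    rw [hd]
    simp only [h1]
  have h3 : InD ε (Matrix.diagonal d) := by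
    refine inD_diagonal (fun y => ?_) (fun j hj => ?_)
    · rw [hdd, hd]
      change (if y = ⟨i, a⟩ ∨ y = ⟨i, b⟩ then (-1 : ℂ) else 1) *
        (if y = ⟨i, a⟩ ∨ y = ⟨i, b⟩ then (-1 : ℂ) else 1) = 1
      split_ifs <;> norm_num
    · by_cases hji : j = i
      · subst hji
        have h4 : ∀ c : Fin (Λ.dim j), d ⟨j, c⟩ = (if c = a then (-1 : ℂ) else 1) *
            (if c = b then (-1 : ℂ) else 1) := by
          intro c
          change (if (⟨j, c⟩ : Letter Λ) = ⟨j, a⟩ ∨ (⟨j, c⟩ : Letter Λ) = ⟨j, b⟩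
            then (-1 : ℂ) else 1) = _
          simp only [mk_eq_iff]
          by_cases h1 : c = a
          · rw [if_pos (Or.inl h1), if_pos h1, if_neg fun h => hab (by rw [← h1, h])]
            ring
          · by_cases h2 : c = b
            · rw [if_pos (Or.inr h2), if_neg h1, if_pos h2]
              ring
            · rw [if_neg fun h => h.elim h1 h2, if_neg h1, if_neg h2]
              ring
        rw [prod_congr rfl fun c _ => h4 c, prod_mul_distrib, prod_ite_eq' univ a,
          prod_ite_eq' univ b, if_pos (mem_univ _), if_pos (mem_univ _)]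
        norm_num
      · refine prod_eq_one fun c _ => ?_
        change (if (⟨j, c⟩ : Letter Λ) = ⟨i, a⟩ ∨ (⟨j, c⟩ : Letter Λ) = ⟨i, b⟩
          then (-1 : ℂ) else 1) = 1
        rw [if_neg]
        rintro (h | h)
        · exact hji (congrArg Sigma.fst h)
        · exact hji (congrArg Sigma.fst h)
  have h4 := congrFun (hx _ h3) w
  rw [act_diagonal] at h4
  have h5 : ∏ k, d (w k) = 1 := mul_right_cancel₀ hw (by rw [h4, one_mul])
  have h6 : ∀ k, d (w k) = (if w k = ⟨i, a⟩ then (-1 : ℂ) else 1) *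
      (if w k = ⟨i, b⟩ then (-1 : ℂ) else 1) := by
    intro k
    change (if w k = ⟨i, a⟩ ∨ w k = ⟨i, b⟩ then (-1 : ℂ) else 1) = _
    by_cases h1 : w k = ⟨i, a⟩
    · rw [if_pos (Or.inl h1), if_pos h1, if_neg fun h => hab' (by rw [← h1, h])]
      ring
    · by_cases h2 : w k = ⟨i, b⟩
      · rw [if_pos (Or.inr h2), if_neg h1, if_pos h2]
        ring
      · rw [if_neg fun h => h.elim h1 h2, if_neg h1, if_neg h2]
        ring
  have h7 : ∀ z : Letter Λ, ∏ k, (if w k = z then (-1 : ℂ) else 1) = (-1) ^ occ w z := by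
    intro z
    rw [prod_ite, prod_const_one, mul_one, prod_const]
    rfl
  rw [prod_congr rfl fun k _ => h6 k, prod_mul_distrib, h7, h7, ← pow_add] at h5
  have h8 : Even (occ w ⟨i, a⟩ + occ w ⟨i, b⟩) := by
    by_contra h9
    rw [Nat.not_even_iff_odd] at h9
    rw [h9.neg_one_pow] at h5
    norm_num at h5
  rw [Nat.even_iff] at h8
  omega

end Q207.DB
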