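import Pool.Agent.Q207.DB.GLie

/-!
# Rotations, signs and diagonal maps
-/

namespace Q207.DB

open Finset Pool.Agent.H204R3.SP Pool.Agent.Q59.GC

variable {I : Type} {Λ : Labels I} [DecidableEq I] {ε : Letter Λ → ℂ} [Fintype I]

/-! ## Blocks -/

/-- the block of a matrix -/
def blk (g : Matrix (Letter Λ) (Letter Λ) ℂ) (i : I) : Matrix (Fin (Λ.dim i)) (Fin (Λ.dim i)) ℂ :=
  Matrix.of fun a b => g ⟨i, a⟩ ⟨i, b⟩

omit [DecidableEq I] in
lemma blk_mul {g h : Matrix (Letter Λ) (Letter Λ) ℂ} (hg : ∀ x y, x.1 ≠ y.1 → g x y = 0) (i : I) :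
    blk (g * h) i = blk g i * blk h i := by
  ext a b
  rw [Matrix.mul_apply]
  change (g * h) ⟨i, a⟩ ⟨i, b⟩ = _
  rw [Matrix.mul_apply, Fintype.sum_sigma, sum_eq_single i]
  · rfl
  · intro j _ hj
    exact sum_eq_zero fun c _ => by rw [hg _ _ (Ne.symm hj), zero_mul]
  · intro h
    exact absurd (mem_univ i) h

lemma det_blk_sq (hε0 : ∀ x, ε x ≠ 0) {g : Matrix (Letter Λ) (Letter Λ) ℂ}
    (hg : ∀ x y, x.1 ≠ y.1 → g x y = 0) (hf : g * form ε * g.transpose = form ε) {i : I}
    (hi : Λ.orth i = true) : (blk g i).det * (blk g i).det = 1 := by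
  have h1 : blk (form ε) i = Matrix.diagonal fun a => ε ⟨i, a⟩ := by
    ext a b
    change form ε ⟨i, a⟩ ⟨i, b⟩ = _
    simp only [form, Matrix.of_apply]
    rw [dual_of_orth hi]
    by_cases h : a = b
    · rw [h, if_pos rfl, Matrix.diagonal_apply_eq]
    · rw [if_neg fun h' => h (mk_eq_iff.mp h').symm, Matrix.diagonal_apply_ne _ h]
  have hfb : ∀ x y, x.1 ≠ y.1 → (g * form ε) x y = g x (dual y) * ε (dual y) := by
    intro x y _
    rw [Matrix.mul_apply, sum_eq_single (dual y)]
    · simp only [form, Matrix.of_apply]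
      rw [dual_dual, if_pos rfl]
    · intro z _ hz
      simp only [form, Matrix.of_apply]
      rw [if_neg, mul_zero]
      intro h
      exact hz (by rw [h, dual_dual])
    · intro h
      exact absurd (mem_univ _) h
  have h2 : blk (g * form ε * g.transpose) i = blk g i * blk (form ε) i * (blk g i).transpose := by
    rw [← blk_mul hg]
    ext a b
    change (g * form ε * g.transpose) ⟨i, a⟩ ⟨i, b⟩ = _
    rw [Matrix.mul_apply, Fintype.sum_sigma, sum_eq_single i, Matrix.mul_apply]
    · rfl
    · intro j _ hj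
      refine sum_eq_zero fun c _ => ?_
      rw [Matrix.transpose_apply, hg ⟨i, b⟩ ⟨j, c⟩ (Ne.symm hj), mul_zero]
    · intro h
      exact absurd (mem_univ i) h
  rw [hf] at h2
  have h3 := congrArg Matrix.det h2
  rw [Matrix.det_mul, Matrix.det_mul, Matrix.det_transpose] at h3
  have h4 : (blk (form ε) i).det ≠ 0 := by
    rw [h1, Matrix.det_diagonal]
    exact prod_ne_zero_iff.mpr fun a _ => hε0 _
  have h5 : (blk (form ε) i).det * ((blk g i).det * (blk g i).det) = (blk (form ε) i).det * 1 := by
    rw [mul_one]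
    linear_combination -h3
  exact mul_left_cancel₀ h4 h5

/-! ## Rotations -/

section Rot

variable (b c : Letter Λ) (w : ℂ)

/-- the projection to the plane of two letters -/
def pr : Matrix (Letter Λ) (Letter Λ) ℂ := Matrix.diagonal fun x => if x = b ∨ x = c then 1 else 0

/-- the generator of the rotations -/
noncomputable def kk (ε : Letter Λ → ℂ) : Matrix (Letter Λ) (Letter Λ) ℂ :=
  Matrix.of fun y z => if y = b ∧ z = c then -(w / ε c) else if y = c ∧ z = b then w / ε b else 0

/-- the rotation -/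
noncomputable def rot (ε : Letter Λ → ℂ) (t : ℂ) : Matrix (Letter Λ) (Letter Λ) ℂ :=
  1 + (Complex.cos t - 1) • pr b c + Complex.sin t • kk b c w ε

variable {b c w}

lemma pr_mul (M : Matrix (Letter Λ) (Letter Λ) ℂ) (y z : Letter Λ) :
    (pr b c * M) y z = if y = b ∨ y = c then M y z else 0 := by
  unfold pr
  rw [Matrix.diagonal_mul]
  split_ifs <;> ring

lemma mul_pr (M : Matrix (Letter Λ) (Letter Λ) ℂ) (y z : Letter Λ) :
    (M * pr b c) y z = if z = b ∨ z = c then M y z else 0 := by
  unfold pr
  rw [Matrix.mul_diagonal]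
  split_ifs <;> ring

lemma kk_mul (hbc : b ≠ c) (M : Matrix (Letter Λ) (Letter Λ) ℂ) (y z : Letter Λ) :
    (kk b c w ε * M) y z = if y = b then -(w / ε c) * M c z else
      if y = c then w / ε b * M b z else 0 := by
  rw [Matrix.mul_apply]
  by_cases hb : y = b
  · rw [if_pos hb, sum_eq_single c]
    · unfold kk
      rw [Matrix.of_apply, if_pos ⟨hb, rfl⟩]
    · intro x _ hx
      unfold kk
      rw [Matrix.of_apply, if_neg fun h => hx h.2, if_neg, zero_mul]
      rintro ⟨h, -⟩
      exact hbc (by rw [← hb, h])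
    · intro h
      exact absurd (mem_univ _) h
  · rw [if_neg hb]
    by_cases hc : y = c
    · rw [if_pos hc, sum_eq_single b]
      · unfold kk
        rw [Matrix.of_apply, if_neg fun h => hb h.1, if_pos ⟨hc, rfl⟩]
      · intro x _ hx
        unfold kk
        rw [Matrix.of_apply, if_neg fun h => hb h.1, if_neg fun h => hx h.2, zero_mul]
      · intro h
        exact absurd (mem_univ _) h
    · rw [if_neg hc]
      refine sum_eq_zero fun x _ => ?_
      unfold kk
      rw [Matrix.of_apply, if_neg fun h => hb h.1, if_neg fun h => hc h.1, zero_mul]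

variable (hbc : b ≠ c) (hε0 : ∀ x, ε x ≠ 0) (hw : w * w = ε b * ε c)

lemma pr_pr : pr b c * pr b c = pr b c := by
  ext y z
  rw [pr_mul]
  by_cases h : y = b ∨ y = c
  · rw [if_pos h]
  · rw [if_neg h]
    unfold pr
    by_cases h2 : y = z
    · rw [h2, Matrix.diagonal_apply_eq, if_neg (by rw [← h2]; exact h)]
    · rw [Matrix.diagonal_apply_ne _ h2]

lemma pr_kk : pr b c * kk b c w ε = kk b c w ε := by
  ext y z
  rw [pr_mul]
  by_cases h : y = b ∨ y = c
  · rw [if_pos h]
  · rw [if_neg h]
    push Not at h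
    unfold kk
    rw [Matrix.of_apply, if_neg fun h2 => h.1 h2.1, if_neg fun h2 => h.2 h2.1]

lemma kk_pr : kk b c w ε * pr b c = kk b c w ε := by
  ext y z
  rw [mul_pr]
  by_cases h : z = b ∨ z = c
  · rw [if_pos h]
  · rw [if_neg h]
    push Not at h
    unfold kk
    rw [Matrix.of_apply, if_neg fun h2 => h.2 h2.2, if_neg fun h2 => h.1 h2.2]

include hbc hε0 hw in
lemma kk_kk : kk b c w ε * kk b c w ε = -pr b c := by
  have h0 := hε0 b
  have h1 := hε0 c
  have e : w / ε c * (w / ε b) = 1 := by
    rw [div_mul_div_comm, hw, mul_comm (ε c)]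
    exact div_self (mul_ne_zero h0 h1)
  ext y z
  rw [kk_mul hbc, Matrix.neg_apply]
  unfold pr
  by_cases hb : y = b
  · subst hb
    rw [if_pos rfl]
    unfold kk
    rw [Matrix.of_apply, if_neg fun h => hbc h.1.symm]
    by_cases hz : z = y
    · subst hz
      rw [if_pos ⟨rfl, rfl⟩, Matrix.diagonal_apply_eq, if_pos (Or.inl rfl)]
      linear_combination -e
    · rw [if_neg fun h => hz h.2, Matrix.diagonal_apply_ne _ (Ne.symm hz)]
      ring
  · rw [if_neg hb]
    by_cases hc : y = c
    · subst hc
      rw [if_pos rfl]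
      unfold kk
      rw [Matrix.of_apply]
      by_cases hz : z = y
      · subst hz
        rw [if_pos ⟨rfl, rfl⟩, Matrix.diagonal_apply_eq, if_pos (Or.inr rfl)]
        linear_combination -e
      · rw [if_neg fun h => hz h.2, if_neg fun h => hbc h.1, Matrix.diagonal_apply_ne _ (Ne.symm hz)]
        ring
    · rw [if_neg hc]
      by_cases hz : y = z
      · subst hz
        rw [Matrix.diagonal_apply_eq, if_neg fun h => h.elim hb hc]
        ring
      · rw [Matrix.diagonal_apply_ne _ hz]
        ring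

variable (hb : Λ.orth b.1 = true) (hc : Λ.orth c.1 = true)

omit [Fintype I] in
include hb hc in
lemma form_pr_aux {y z : Letter Λ} (h : form ε y z ≠ 0) : (y = b ∨ y = c) ↔ (z = b ∨ z = c) := by
  simp only [form, Matrix.of_apply] at h
  have h1 : z = dual y := by
    by_contra h2
    rw [if_neg h2] at h
    exact h rfl
  subst h1
  constructor
  · rintro (h | h)
    · left; rw [h, dual_of_orth hb]
    · right; rw [h, dual_of_orth hc]
  · rintro (h | h)
    · left; rw [← dual_dual y, h, dual_of_orth hb]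
    · right; rw [← dual_dual y, h, dual_of_orth hc]

include hb hc in
lemma pr_form : pr b c * form ε = form ε * pr b c := by
  ext y z
  rw [pr_mul, mul_pr]
  by_cases h : form ε y z = 0
  · rw [h]
    split_ifs <;> rfl
  · have := form_pr_aux hb hc h
    by_cases h2 : y = b ∨ y = c
    · rw [if_pos h2, if_pos (this.mp h2)]
    · rw [if_neg h2, if_neg fun h3 => h2 (this.mpr h3)]

include hbc hb hc hε0 in
lemma kk_form : kk b c w ε * form ε + form ε * (kk b c w ε).transpose = 0 := by
  have hfb : ∀ z, form ε b z = if z = b then ε b else 0 := by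
    intro z
    simp only [form, Matrix.of_apply]
    rw [dual_of_orth hb]
  have hfc : ∀ z, form ε c z = if z = c then ε c else 0 := by
    intro z
    simp only [form, Matrix.of_apply]
    rw [dual_of_orth hc]
  have h0 := hε0 b
  have h1 := hε0 c
  have hK : ∀ y z, (kk b c w ε * form ε) y z = if y = b ∧ z = c then -w else
      if y = c ∧ z = b then w else 0 := by
    intro y z
    rw [kk_mul hbc, hfb, hfc]
    by_cases hyb : y = b
    · rw [if_pos hyb]
      by_cases hz : z = c
      · rw [if_pos hz, if_pos ⟨hyb, hz⟩]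
        field_simp
      · rw [if_neg hz, if_neg fun h => hz h.2, if_neg fun h => hbc (by rw [← hyb, h.1])]
        ring
    · have h9 : ¬ (y = b ∧ z = c) := fun h => hyb h.1
      rw [if_neg hyb, if_neg h9]
      by_cases hyc : y = c
      · rw [if_pos hyc]
        by_cases hz : z = b
        · rw [if_pos hz, if_pos ⟨hyc, hz⟩]
          field_simp
        · have h11 : ¬ (y = c ∧ z = b) := fun h => hz h.2
          rw [if_neg hz, if_neg h11]
          ring
      · have h10 : ¬ (y = c ∧ z = b) := fun h => hyc h.1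
        rw [if_neg hyc, if_neg h10]
  have hT : form ε * (kk b c w ε).transpose = (kk b c w ε * (form ε).transpose).transpose := by
    rw [Matrix.transpose_mul, Matrix.transpose_transpose]
  have hK2 : kk b c w ε * (form ε).transpose = kk b c w ε * form ε := by
    ext y z
    rw [kk_mul hbc, kk_mul hbc, Matrix.transpose_apply, Matrix.transpose_apply,
      ← form_symm hc, ← form_symm hb]
  rw [hT, hK2]
  ext y z
  rw [Matrix.add_apply, Matrix.transpose_apply, hK, hK, Matrix.zero_apply]
  by_cases h2 : y = b ∧ z = c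
  · rw [if_pos h2, if_neg, if_pos ⟨h2.2, h2.1⟩]
    · ring
    · rintro ⟨h3, -⟩
      exact hbc (by rw [← h3, h2.2])
  · rw [if_neg h2]
    by_cases h3 : y = c ∧ z = b
    · rw [if_pos h3, if_pos ⟨h3.2, h3.1⟩]
      ring
    · rw [if_neg h3, if_neg fun h => h3 ⟨h.2, h.1⟩, if_neg fun h => h2 ⟨h.2, h.1⟩]
      ring

include hbc hε0 hw hb hc in
lemma rot_form (t : ℂ) : rot b c w ε t * form ε * (rot b c w ε t).transpose = form ε := by
  set P := pr b c with hP
  set K := kk b c w ε with hK
  set J := form ε with hJ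
  have hPt : P.transpose = P := Matrix.diagonal_transpose _
  have e1 : P * J = J * P := pr_form hb hc
  have e2 : J * K.transpose = -(K * J) := by
    have := kk_form hbc hε0 hb hc (w := w)
    rw [← hK, ← hJ] at this
    exact eq_neg_of_add_eq_zero_right this
  have e3 : K * P = K := kk_pr
  have e4 : P * K = K := pr_kk
  have e5 : K * K = -P := kk_kk hbc hε0 hw
  have e6 : P * P = P := pr_pr
  have e7 : P * J * P = P * J := by rw [Matrix.mul_assoc, ← e1, ← Matrix.mul_assoc, e6]
  have e8 : K * J * P = K * J := by rw [Matrix.mul_assoc, ← e1, ← Matrix.mul_assoc, e3]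
  have e9 : P * J * K.transpose = -(K * J) := by
    rw [Matrix.mul_assoc, e2, Matrix.mul_neg, ← Matrix.mul_assoc, e4]
  have e10 : K * J * K.transpose = P * J := by
    rw [Matrix.mul_assoc, e2, Matrix.mul_neg, ← Matrix.mul_assoc, e5, Matrix.neg_mul, neg_neg]
  have h1 : rot b c w ε t * J * (rot b c w ε t).transpose =
      J + (Complex.cos t - 1) • (P * J + J * P) + Complex.sin t • (K * J + J * K.transpose) +
      ((Complex.cos t - 1) * (Complex.cos t - 1)) • (P * J * P) +
      ((Complex.cos t - 1) * Complex.sin t) • (P * J * K.transpose + K * J * P) +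
      (Complex.sin t * Complex.sin t) • (K * J * K.transpose) := by
    unfold rot
    rw [Matrix.transpose_add, Matrix.transpose_add, Matrix.transpose_one, Matrix.transpose_smul,
      Matrix.transpose_smul, ← hP, ← hK, hPt]
    simp only [Matrix.add_mul, Matrix.mul_add, Matrix.one_mul, Matrix.mul_one, Matrix.smul_mul,
      Matrix.mul_smul, smul_add, smul_smul]
    rw [mul_comm (Complex.sin t) (Complex.cos t - 1)]
    abel
  rw [h1, ← e1, e2, e7, e9, e8, e10]
  have h2 := Complex.cos_sq_add_sin_sq t
  have h3 : J + (Complex.cos t - 1) • (P * J + P * J) + Complex.sin t • (K * J + -(K * J)) +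
      ((Complex.cos t - 1) * (Complex.cos t - 1)) • (P * J) +
      ((Complex.cos t - 1) * Complex.sin t) • (-(K * J) + K * J) +
      (Complex.sin t * Complex.sin t) • (P * J) =
      J + (2 * (Complex.cos t - 1) + (Complex.cos t - 1) * (Complex.cos t - 1) +
        Complex.sin t * Complex.sin t) • (P * J) := by
    rw [add_neg_cancel, neg_add_cancel, smul_zero, smul_zero, add_zero, add_zero, ← two_smul ℂ,
      smul_smul, add_assoc, add_assoc, ← add_smul, ← add_smul]
    congr 2
    ring
  rw [h3]
  have h4 : 2 * (Complex.cos t - 1) + (Complex.cos t - 1) * (Complex.cos t - 1) +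
        Complex.sin t * Complex.sin t = 0 := by linear_combination h2
  rw [h4, zero_smul, add_zero]

omit [Fintype I] in
lemma rot_block (h1 : b.1 = c.1) (t : ℂ) (x y : Letter Λ) (hxy : x.1 ≠ y.1) :
    rot b c w ε t x y = 0 := by
  unfold rot pr kk
  have hne : x ≠ y := fun h => hxy (by rw [h])
  rw [Matrix.add_apply, Matrix.add_apply, Matrix.smul_apply, Matrix.smul_apply,
    Matrix.one_apply_ne hne, Matrix.diagonal_apply_ne _ hne, Matrix.of_apply, if_neg, if_neg]
  · simp
  · rintro ⟨rfl, rfl⟩
    exact hxy h1.symm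
  · rintro ⟨rfl, rfl⟩
    exact hxy h1

include hbc hε0 hw in
lemma rot_add (s t : ℂ) : rot b c w ε (s + t) = rot b c w ε s * rot b c w ε t := by
  set P := pr b c with hP
  set K := kk b c w ε with hK
  have e3 : K * P = K := kk_pr
  have e4 : P * K = K := pr_kk
  have e5 : K * K = -P := kk_kk hbc hε0 hw
  have e6 : P * P = P := pr_pr
  unfold rot
  rw [← hP, ← hK]
  simp only [Matrix.add_mul, Matrix.mul_add, Matrix.one_mul, Matrix.mul_one, Matrix.smul_mul,
      Matrix.mul_smul, e3, e4, e5, e6, smul_neg]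
  rw [Complex.cos_add, Complex.sin_add]
  module

include hbc hε0 hw hb hc in
lemma inD_rot (h1 : b.1 = c.1) (t : ℂ) : InD ε (rot b c w ε t) := by
  refine ⟨rot_block h1 t, rot_form hbc hε0 hw hb hc t, fun i hi => ?_⟩
  change (blk (rot b c w ε t) i).det = 1
  by_cases hbi : b.1 = i
  · have h2 : t = t / 2 + t / 2 := by ring
    rw [h2, rot_add hbc hε0 hw, blk_mul (rot_block h1 _), Matrix.det_mul]
    exact det_blk_sq hε0 (rot_block h1 _) (rot_form hbc hε0 hw hb hc _) (by rw [← hbi]; exact hb)
  · have e : blk (rot b c w ε t) i = 1 := by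
      ext a a'
      change rot b c w ε t ⟨i, a⟩ ⟨i, a'⟩ = _
      unfold rot pr kk
      have h3 : ∀ a, (⟨i, a⟩ : Letter Λ) ≠ b := fun a h => hbi (by rw [← h])
      have h4 : ∀ a, (⟨i, a⟩ : Letter Λ) ≠ c := fun a h => hbi (by rw [h1, ← h])
      rw [Matrix.add_apply, Matrix.add_apply, Matrix.smul_apply, Matrix.smul_apply, Matrix.of_apply,
        if_neg fun h => h3 _ h.1, if_neg fun h => h4 _ h.1, smul_zero, add_zero]
      by_cases h : a = a'
      · subst h
        rw [Matrix.one_apply_eq, Matrix.one_apply_eq, Matrix.diagonal_apply_eq,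
          if_neg fun h => h.elim (h3 _) (h4 _), smul_zero, add_zero]
      · have h5 : (⟨i, a⟩ : Letter Λ) ≠ ⟨i, a'⟩ := fun h' => h (mk_eq_iff.mp h')
        rw [Matrix.one_apply_ne h, Matrix.one_apply_ne h5, Matrix.diagonal_apply_ne _ h5, smul_zero,
          add_zero]
    rw [e, Matrix.det_one]

end Rot

/-- the relations of the rotations -/
lemma rot_rel (hε0 : ∀ x, ε x ≠ 0) {κ : Type} [Fintype κ]
    [DecidableEq κ] {x : (κ → Letter Λ) → ℂ} (hx : ∀ g, InD ε g → act g x = x) {b c : Letter Λ}
    (hb : Λ.orth b.1 = true) (h1 : b.1 = c.1) (v : κ → Letter Λ) :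
    ∑ k, (JJ dual ε b (v k) * x (Function.update v k c) -
      JJ dual ε c (v k) * x (Function.update v k b)) = 0 := by
  have hc : Λ.orth c.1 = true := by rw [← h1]; exact hb
  by_cases hbc : b = c
  · subst hbc
    exact sum_eq_zero fun k _ => sub_self _
  obtain ⟨w, hw⟩ := IsAlgClosed.exists_pow_nat_eq (ε b * ε c) (n := 2) (by norm_num)
  rw [pow_two] at hw
  have hw0 : w ≠ 0 := by
    rintro rfl
    rw [zero_mul] at hw
    exact (mul_ne_zero (hε0 b) (hε0 c)) hw.symm
  have g0 : rot b c w ε 0 = 1 := by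
    unfold rot
    rw [Complex.cos_zero, Complex.sin_zero, sub_self, zero_smul, zero_smul, add_zero, add_zero]
  have hg : ∀ y z, HasDerivAt (fun t => rot b c w ε t y z) (kk b c w ε y z) 0 := by
    intro y z
    have e1 : HasDerivAt (fun t : ℂ => (1 : Matrix (Letter Λ) (Letter Λ) ℂ) y z +
        (Complex.cos t - 1) * pr b c y z + Complex.sin t * kk b c w ε y z)
        (0 + (-Complex.sin 0) * pr b c y z + Complex.cos 0 * kk b c w ε y z) 0 := by
      refine HasDerivAt.add (HasDerivAt.add (hasDerivAt_const _ _) ?_) ?_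
      · exact ((Complex.hasDerivAt_cos 0).sub_const 1).mul_const _
      · exact (Complex.hasDerivAt_sin 0).mul_const _
    rw [Complex.sin_zero, Complex.cos_zero, neg_zero, zero_mul, one_mul, zero_add, zero_add] at e1
    exact e1
  have h2 := lie_of_group g0 hg (fun t => hx _ (inD_rot hbc hε0 hw hb hc h1 t)) v
  have h3 : ∀ k, ∑ y, kk b c w ε (v k) y * x (Function.update v k y) =
      -(w / (ε b * ε c)) * (JJ dual ε b (v k) * x (Function.update v k c) -
      JJ dual ε c (v k) * x (Function.update v k b)) := by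
    intro k
    have hb0 := hε0 b
    have hc0 := hε0 c
    have e0 := kk_mul (w := w) (ε := ε) hbc (Matrix.of fun y _ => x (Function.update v k y)) (v k) (v k)
    rw [Matrix.mul_apply] at e0
    simp only [Matrix.of_apply] at e0
    rw [e0]
    unfold JJ
    rw [dual_of_orth hb, dual_of_orth hc]
    by_cases hvb : v k = b
    · rw [if_pos hvb, if_pos hvb, if_neg fun h => hbc (by rw [← hvb, h])]
      field_simp
      ring
    · rw [if_neg hvb, if_neg hvb]
      by_cases hvc : v k = c
      · rw [if_pos hvc, if_pos hvc]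
        field_simp
        ring
      · rw [if_neg hvc, if_neg hvc]
        ring
  rw [sum_congr rfl fun k _ => h3 k, ← mul_sum] at h2
  refine (mul_eq_zero.mp h2).resolve_left ?_
  exact neg_ne_zero.mpr (div_ne_zero hw0 (mul_ne_zero (hε0 b) (hε0 c)))

end Q207.DB
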