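import Mathlib

/-!
# Normal forms of symmetric and alternating matrices: statements
-/

set_option autoImplicit false

open Matrix

namespace Q207.DB

/-- the standard alternating matrix -/
def Jst (n : ℕ) : Matrix (Fin n) (Fin n) ℂ :=
  Matrix.of fun i j => if j = Fin.rev i then (if (i : ℕ) < j then 1 else -1) else 0

/-- symmetric matrices are congruent to the identity -/
def S_Sym : Prop := ∀ (n : ℕ) (B : Matrix (Fin n) (Fin n) ℂ), Bᵀ = B → IsUnit B → ∃ S : Matrix (Fin n) (Fin n) ℂ, Sᵀ * S = B

/-- alternating matrices are congruent to the standard one -/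
def S_Alt : Prop := ∀ (n : ℕ) (B : Matrix (Fin n) (Fin n) ℂ), Bᵀ = -B → IsUnit B →
  Even n ∧ ∃ S : Matrix (Fin n) (Fin n) ℂ, Sᵀ * Jst n * S = B

end Q207.DB
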