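import Pool.Agent.Q207.DB.Fl

/-!
# De Rham-Betti tensors at one tuple
-/

set_option autoImplicit false

open Finset Matrix Module

namespace Q207.DB

open Pool.Agent.Y123.GN (Clf Spf GB)
open Pool.Agent.TH127.PT (IsSubtorsor)
open Q207.HM (lk Emb FF FF_val tmt tmt_mul tmt_det TP QA Yx cls GoodT Jn νn)

section hat

variable {S κ : Type} [Fintype S] [Fintype κ] [DecidableEq κ]

/-- the tensor on the larger index set -/
def hat (x : (κ → S) → ℂ) : (κ → Fin 0 ⊕ S) → ℂ := fun w => x fun k => Equiv.emptySum (Fin 0) S (w k)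

lemma hat_act (C : Matrix (Fin 0) (Fin 0) ℂ) (M : Matrix S S ℂ) (x : (κ → S) → ℂ) :
    actM (fun _ => fromBlocks C 0 0 M) (hat x) = hat (actM (fun _ => M) x) := by
  funext w
  show ∑ v : κ → Fin 0 ⊕ S, (∏ k, fromBlocks C 0 0 M (w k) (v k)) * hat x v =
    ∑ v : κ → S, (∏ k, M (Equiv.emptySum (Fin 0) S (w k)) (v k)) * x v
  refine Fintype.sum_equiv (Equiv.piCongrRight fun _ => Equiv.emptySum (Fin 0) S) _ _ fun v => ?_
  have h1 : ∀ u u' : Fin 0 ⊕ S, fromBlocks C 0 0 M u u' = M (Equiv.emptySum (Fin 0) S u) (Equiv.emptySum (Fin 0) S u') := by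
    rintro (u | u) (u' | u')
    · exact u.elim0
    · exact u.elim0
    · exact u'.elim0
    · rfl
  simp only [h1]
  rfl

omit [Fintype S] [Fintype κ] [DecidableEq κ] in
lemma hat_inj {x y : (κ → S) → ℂ} (h : hat x = hat y) : x = y := by
  funext w
  exact congrFun h fun k => Sum.inr (w k)

end hat

section forms

variable {n : ℕ}

lemma size_eq {m n : ℕ} {P : Matrix (Fin n) (Fin m) ℂ} {P' : Matrix (Fin m) (Fin n) ℂ} (h1 : P * P' = 1) (h2 : P' * P = 1) : m = n := by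
  have h3 := Matrix.square_of_invertible P P' h1 h2
  simpa using h3.symm

lemma inv_of_zero (hn : 0 < n) : (0 : Matrix (Fin n) (Fin n) ℂ)⁻¹ = 0 := by
  have : Nonempty (Fin n) := ⟨⟨0, hn⟩⟩
  rw [Matrix.nonsing_inv_apply_not_isUnit]
  rw [Matrix.det_zero]
  exact not_isUnit_zero

lemma clf_inv {B : Matrix (Fin n) (Fin n) ℂ} (hn : 0 < n) (hB : Clf B) : Clf B⁻¹ := by
  rcases hB with rfl | ⟨h1, h2⟩ | ⟨h1, h2, h3⟩
  · rw [inv_of_zero hn]
    exact Or.inl rfl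
  · refine Or.inr (Or.inl ⟨?_, ?_⟩)
    · rw [Matrix.isUnit_nonsing_inv_iff]
      exact h1
    · rw [Matrix.transpose_nonsing_inv, h2]
      have h4 : B * B⁻¹ = 1 := Matrix.mul_nonsing_inv _ ((Matrix.isUnit_iff_isUnit_det _).1 h1)
      refine Matrix.inv_eq_right_inv ?_
      rw [neg_mul_neg, h4]
  · refine Or.inr (Or.inr ⟨?_, ?_, h3⟩)
    · rw [Matrix.isUnit_nonsing_inv_iff]
      exact h1
    · rw [Matrix.transpose_nonsing_inv, h2]

lemma swap_unit {B v : Matrix (Fin n) (Fin n) ℂ} (hB : IsUnit B) (h : vᵀ * B * v = B) : v * B⁻¹ * vᵀ = B⁻¹ := by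
  have hd := (Matrix.isUnit_iff_isUnit_det _).1 hB
  have h1 : B * B⁻¹ = 1 := Matrix.mul_nonsing_inv _ hd
  have h2 : B⁻¹ * B = 1 := Matrix.nonsing_inv_mul _ hd
  have h3 : (B⁻¹ * vᵀ * B) * v = 1 := by
    have e1 : B⁻¹ * vᵀ * B * v = B⁻¹ * (vᵀ * B * v) := by simp only [Matrix.mul_assoc]
    rw [e1, h, h2]
  have h4 : v * (B⁻¹ * vᵀ * B) = 1 := mul_eq_one_comm.1 h3
  calc v * B⁻¹ * vᵀ = v * (B⁻¹ * vᵀ * B) * B⁻¹ := by
        have e2 : v * (B⁻¹ * vᵀ * B) * B⁻¹ = v * B⁻¹ * vᵀ * (B * B⁻¹) := by simp only [Matrix.mul_assoc]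
        rw [e2, h1, Matrix.mul_one]
    _ = B⁻¹ := by rw [h4, Matrix.one_mul]

lemma swap_unit' {B v : Matrix (Fin n) (Fin n) ℂ} (hB : IsUnit B) (h : v * B⁻¹ * vᵀ = B⁻¹) : vᵀ * B * v = B := by
  have h1 : IsUnit B⁻¹ := by
    rw [Matrix.isUnit_nonsing_inv_iff]
    exact hB
  have h2 := swap_unit (B := B⁻¹) (v := vᵀ) h1 (by rw [Matrix.transpose_transpose]; exact h)
  rw [Matrix.nonsing_inv_nonsing_inv _ ((Matrix.isUnit_iff_isUnit_det _).1 hB), Matrix.transpose_transpose] at h2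
  exact h2

lemma mem_GB_inv {B : Matrix (Fin n) (Fin n) ℂ} (hn : 0 < n) (hB : Clf B) (v : (Matrix (Fin n) (Fin n) ℂ)ˣ) :
    v ∈ GB B⁻¹ ↔ (v : Matrix (Fin n) (Fin n) ℂ).det = 1 ∧ (v : Matrix (Fin n) (Fin n) ℂ)ᵀ * B * (v : Matrix (Fin n) (Fin n) ℂ) = B := by
  refine and_congr_right fun _ => ?_
  have key : IsUnit B → ((v : Matrix (Fin n) (Fin n) ℂ) * B⁻¹ * (v : Matrix (Fin n) (Fin n) ℂ)ᵀ = B⁻¹ ↔
      (v : Matrix (Fin n) (Fin n) ℂ)ᵀ * B * (v : Matrix (Fin n) (Fin n) ℂ) = B) := fun h => ⟨swap_unit' h, swap_unit h⟩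
  rcases hB with rfl | ⟨h1, -⟩ | ⟨h1, -, -⟩
  · rw [inv_of_zero hn]
    simp
  · exact key h1
  · exact key h1

end forms

section main

variable {k : ℕ} {r : Fin k → ℕ} {n : ∀ i, Fin (r i) → ℕ}

/-- the block matrix -/
noncomputable abbrev tot (X : ∀ i j, Matrix (Fin (n i j)) (Fin (n i j)) ℂ) :
    Matrix (Σ x : Jn r, Fin (νn n x)) (Σ x : Jn r, Fin (νn n x)) ℂ := blockDiagonal' fun x : Jn r => X x.1 x.2

/-- flat tensors -/
def Flat {κ : Type} [Fintype κ] [DecidableEq κ] (α : ∀ i j, Fin (n i j) → ℚ) (Ω : ∀ i j, Matrix (Fin (n i j)) (Fin (n i j)) ℂ)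
    (t : Fin k → ℕ) (u : (κ → Σ x : Jn r, Fin (νn n x)) → ℂ) : Prop :=
  ∀ g g' : ∀ i j, Matrix (Fin (n i j)) (Fin (n i j)) ℂ, (∀ i, g i ∈ TP (α i) (t i)) → (∀ i, g' i ∈ TP (α i) (t i)) →
    actM (fun _ => tot fun i j => g i j * Ω i j) u = actM (fun _ => tot fun i j => g' i j * Ω i j) u

/-- the degrees -/
def Dg (α : ∀ i j, Fin (n i j) → ℚ) (s : ℕ) : Prop :=
  s = 2 ∨ ∃ i j, s = n i j ∧ ¬ (cls (α i j) = (cls fun l => -α i j l) ∧ Even (n i j))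

/-- **De Rham-Betti tensors are flat and generated in small degrees.** -/
theorem point {D : ℕ} {α : ∀ i j, Fin (n i j) → ℚ} (hα : ∀ i j l, ∀ a : ℤ, α i j l ≠ a) (hn : ∀ i j, 2 ≤ n i j)
    (had : ∀ i j, (cls (α i j) = cls fun l => -α i j l) ∨ ∀ a : ℤ, 2 * ∑ l, α i j l ≠ a)
    {Ω : ∀ i j, Matrix (Fin (n i j)) (Fin (n i j)) ℂ} (hΩ : ∀ i j, (Ω i j).det ≠ 0) {t : Fin k → ℕ} (ht : ∀ i, 2 ≤ t i)
    (hG : GoodT D (1 : Matrix (Fin 0) (Fin 0) ℂ) α Ω t) {K : Subfield ℂ} (hKf : FiniteDimensional ℚ K) (hKD : finrank ℚ K ≤ D)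
    {κ : Type} [Fintype κ] [DecidableEq κ] {x a : (κ → Σ x : Jn r, Fin (νn n x)) → ℂ} (hxK : ∀ w, x w ∈ K) (haK : ∀ w, a w ∈ K)
    {l : ℂ} (hxa : actM (fun _ => tot fun i j => Yx (n i j) (QA (α i j)) (1 / (t i : ℝ)) * Ω i j) x = l • a) :
    Flat α Ω t x ∧ x ∈ Submodule.span ℂ {y | ∃ (l : ℕ) (s : Fin l → ℕ) (e : (Σ j, Fin (s j)) ≃ κ)
      (u : ∀ j, (Fin (s j) → Σ x : Jn r, Fin (νn n x)) → ℂ), (∀ j, Dg α (s j) ∧ Flat α Ω t (u j)) ∧ y = prodT e u} := by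
  classical
  choose r' m B q d P P' hqs hkd hB hP1 hP2 hA hT using fun i => Q207.HM.pkg2 (hα i) (hn i) (had i)
  have hΩ1 : ∀ i j, Ω i j * (Ω i j)⁻¹ = 1 := fun i j => Matrix.mul_nonsing_inv _ (Ne.isUnit (hΩ i j))
  have hΩ2 : ∀ i j, (Ω i j)⁻¹ * Ω i j = 1 := fun i j => Matrix.nonsing_inv_mul _ (Ne.isUnit (hΩ i j))
  have hsize : ∀ i j, m i (q i j) = n i j := fun i j => size_eq (hP1 i j) (hP2 i j)
  have hmpos : ∀ i a, 0 < m i a := fun i a => by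
    obtain ⟨j, rfl⟩ := hqs i a
    rw [hsize]
    have := hn i j
    omega
  set A : Type := Σ i : Fin k, Fin (r' i) with hAd
  set μ : A → ℕ := fun a => m a.1 a.2 with hμ
  set qq : Jn r → A := fun x => ⟨x.1, q x.1 x.2⟩ with hqq
  set BB : ∀ a : A, Matrix (Fin (μ a)) (Fin (μ a)) ℂ := fun a => B a.1 a.2 with hBB
  have hBc : ∀ a, Clf (BB a) := fun a => hB a.1 a.2
  let E : Emb (νn n) μ qq :=
    { d := fun x => d x.1 x.2
      R := fun x => (Ω x.1 x.2)⁻¹ * P x.1 x.2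
      R' := fun x => P' x.1 x.2 * Ω x.1 x.2
      h1 := fun x => by
        calc (Ω x.1 x.2)⁻¹ * P x.1 x.2 * (P' x.1 x.2 * Ω x.1 x.2) = (Ω x.1 x.2)⁻¹ * (P x.1 x.2 * P' x.1 x.2) * Ω x.1 x.2 := by
              simp only [Matrix.mul_assoc]
          _ = 1 := by rw [hP1, Matrix.mul_one, hΩ2]
      h2 := fun x => by
        calc P' x.1 x.2 * Ω x.1 x.2 * ((Ω x.1 x.2)⁻¹ * P x.1 x.2) = P' x.1 x.2 * (Ω x.1 x.2 * (Ω x.1 x.2)⁻¹) * P x.1 x.2 := by
              simp only [Matrix.mul_assoc]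
          _ = 1 := by rw [hΩ1, Matrix.mul_one, hP2] }
  -- the period matrix
  set Y : ∀ i j, Matrix (Fin (n i j)) (Fin (n i j)) ℂ := fun i j => Yx (n i j) (QA (α i j)) (1 / (t i : ℝ)) with hY
  have hlk : ∀ (x : Jn r) (v : Matrix (Fin (μ (qq x))) (Fin (μ (qq x))) ℂ),
      Y x.1 x.2 * Ω x.1 x.2 * lk (E.d x) (E.R x) (E.R' x) v = Y x.1 x.2 * lk (d x.1 x.2) (P x.1 x.2) (P' x.1 x.2) v * Ω x.1 x.2 := by
    intro x v
    show Y x.1 x.2 * Ω x.1 x.2 * ((Ω x.1 x.2)⁻¹ * P x.1 x.2 * (if d x.1 x.2 then (v⁻¹)ᵀ else v) * (P' x.1 x.2 * Ω x.1 x.2)) =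
      Y x.1 x.2 * (P x.1 x.2 * (if d x.1 x.2 then (v⁻¹)ᵀ else v) * P' x.1 x.2) * Ω x.1 x.2
    calc _ = Y x.1 x.2 * (Ω x.1 x.2 * (Ω x.1 x.2)⁻¹) * P x.1 x.2 * (if d x.1 x.2 then (v⁻¹)ᵀ else v) * (P' x.1 x.2 * Ω x.1 x.2) := by
          simp only [Matrix.mul_assoc]
      _ = _ := by
          rw [hΩ1, Matrix.mul_one]
          simp only [Matrix.mul_assoc]
  have htot : ∀ v : ∀ a : A, Matrix (Fin (μ a)) (Fin (μ a)) ℂ,
      tot (fun i j => Y i j * Ω i j) * blockDiagonal' (fun x : Jn r => lk (E.d x) (E.R x) (E.R' x) (v (qq x))) =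
        tot (fun i j => Y i j * lk (d i j) (P i j) (P' i j) (v ⟨i, q i j⟩) * Ω i j) := by
    intro v
    rw [← blockDiagonal'_mul]
    congr 1
    funext x
    exact hlk x _
  have hTPv : ∀ v : ∀ a : A, Matrix (Fin (μ a)) (Fin (μ a)) ℂ, v ∈ GV BB →
      ∀ i, (fun j => Y i j * lk (d i j) (P i j) (P' i j) (v ⟨i, q i j⟩)) ∈ TP (α i) (t i) := by
    intro v hv i
    exact hA i (fun a => v ⟨i, a⟩) (fun a => hv ⟨i, a⟩) (t i) (ht i)
  have hflat : ∀ {κ : Type} [Fintype κ] [DecidableEq κ] (u : (κ → Σ x : Jn r, Fin (νn n x)) → ℂ),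
      Inv (BD (WJ BB qq E.d E.R E.R')) u → Flat α Ω t u := by
    intro κ _ _ u hu
    have key : ∀ g : ∀ i j, Matrix (Fin (n i j)) (Fin (n i j)) ℂ, (∀ i, g i ∈ TP (α i) (t i)) →
        actM (fun _ => tot fun i j => g i j * Ω i j) u = actM (fun _ => tot fun i j => Y i j * Ω i j) u := by
      intro g hg
      choose κ' hκ hgκ using fun i => hT i (t i) (ht i) (g i) (hg i)
      set v : ∀ a : A, Matrix (Fin (μ a)) (Fin (μ a)) ℂ := fun a => κ' a.1 a.2 with hv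
      have h1 : (tot fun i j => g i j * Ω i j) =
          tot (fun i j => Y i j * Ω i j) * blockDiagonal' (fun x : Jn r => lk (E.d x) (E.R x) (E.R' x) (v (qq x))) := by
        rw [htot]
        refine congrArg blockDiagonal' (funext fun x => ?_)
        show g x.1 x.2 * Ω x.1 x.2 = _
        rw [hgκ]
      rw [h1, actM_mul, hu _ ⟨_, ⟨v, fun a => hκ a.1 a.2, fun _ => rfl⟩, rfl⟩]
    intro g g' hg hg'
    rw [key g hg, key g' hg']
  -- the period matrix is invertible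
  have hYTP : ∀ i, Y i ∈ TP (α i) (t i) := by
    intro i
    have h1 := hTPv (fun a => 1) (fun a => ⟨Matrix.det_one, by rw [Matrix.transpose_one, Matrix.one_mul, Matrix.mul_one]⟩) i
    have h2 : (fun j => Y i j * lk (d i j) (P i j) (P' i j) (1 : Matrix (Fin (m i (q i j))) (Fin (m i (q i j))) ℂ)) = Y i := by
      funext j
      rw [Q207.HM.lk_one (hP1 i j), Matrix.mul_one]
    rw [← h2]
    exact h1
  have hYd : ∀ i j, (Y i j).det ≠ 0 := fun i j => by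
    rw [(hYTP i).2 j]
    exact Complex.exp_ne_zero _
  have hunit : ∀ X : ∀ i j, Matrix (Fin (n i j)) (Fin (n i j)) ℂ, (∀ i j, (X i j).det ≠ 0) →
      IsUnit (tmt (1 : Matrix (Fin 0) (Fin 0) ℂ) fun x : Jn r => X x.1 x.2) := by
    intro X hX
    refine ⟨⟨tmt 1 fun x : Jn r => X x.1 x.2, tmt 1 fun x : Jn r => (X x.1 x.2)⁻¹, ?_, ?_⟩, rfl⟩
    · rw [tmt_mul, Matrix.one_mul, ← Q207.HM.tmt_one]
      refine congrArg (tmt 1) (funext fun x => ?_)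
      exact Matrix.mul_nonsing_inv _ (Ne.isUnit (hX _ _))
    · rw [tmt_mul, Matrix.one_mul, ← Q207.HM.tmt_one]
      refine congrArg (tmt 1) (funext fun x => ?_)
      exact Matrix.nonsing_inv_mul _ (Ne.isUnit (hX _ _))
  set c := tmt (ν := νn n) (1 : Matrix (Fin 0) (Fin 0) ℂ) (fun x : Jn r => Y x.1 x.2 * Ω x.1 x.2) with hc
  have hcu : IsUnit c := hunit (fun i j => Y i j * Ω i j) fun i j => by
    rw [Matrix.det_mul]
    exact mul_ne_zero (hYd i j) (hΩ i j)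
  have hca : actM (fun _ => c) (hat x) = l • hat a := by
    rw [hc]
    unfold tmt
    rw [hat_act]
    have h1 : actM (fun _ => blockDiagonal' fun x : Jn r => Y x.1 x.2 * Ω x.1 x.2) x = l • a := hxa
    rw [h1]
    rfl
  have hinv : Inv (BD (WJ BB qq E.d E.R E.R')) x := by
    rintro _ ⟨w, ⟨v, hv, hw⟩, rfl⟩
    by_cases hx0 : x = 0
    · rw [hx0, map_zero]
    have hx : hat x ≠ 0 := fun h => hx0 (hat_inj (h.trans rfl))
    have hla : l • hat a ≠ 0 := by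
      intro h
      rw [h] at hca
      apply hx
      rw [← actM_inv hcu (hat x), hca, map_zero]
    have ha0 : hat a ≠ 0 := fun h => hla (by rw [h, smul_zero])
    have hsub : IsSubtorsor K (Tl (hat x) (hat a)) := Tl_sub (fun w => hxK _) (fun w => haK _) hx ha0
    have hcT : c ∈ Tl (hat x) (hat a) := mem_Tl hcu hca
    have hall := hG K hKf hKD _ hsub hcT
    have h1 := flat_main E (B := fun a => (BB a)⁻¹) (fun a => clf_inv (hmpos _ _) (hBc a)) hcu hca hx (fun v' hv' => by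
      have h2 := hall (fun i j => Y i j * lk (d i j) (P i j) (P' i j) ((v' ⟨i, q i j⟩ : (Matrix (Fin (m i (q i j))) (Fin (m i (q i j))) ℂ)ˣ) :
        Matrix (Fin (m i (q i j))) (Fin (m i (q i j))) ℂ)) fun i =>
          hTPv (fun a => ((v' a : (Matrix (Fin (μ a)) (Fin (μ a)) ℂ)ˣ) : Matrix (Fin (μ a)) (Fin (μ a)) ℂ))
            (fun a => (mem_GB_inv (hmpos _ _) (hBc a) (v' a)).1 (hv' a)) i
      have h3 : c * (FF 0 E v').val = tmt (ν := νn n) (1 : Matrix (Fin 0) (Fin 0) ℂ) (fun x : Jn r => Y x.1 x.2 *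
          lk (d x.1 x.2) (P x.1 x.2) (P' x.1 x.2) ((v' ⟨x.1, q x.1 x.2⟩ : (Matrix (Fin (m x.1 (q x.1 x.2))) (Fin (m x.1 (q x.1 x.2))) ℂ)ˣ) :
            Matrix (Fin (m x.1 (q x.1 x.2))) (Fin (m x.1 (q x.1 x.2))) ℂ) * Ω x.1 x.2) := by
        rw [FF_val, hc, tmt_mul, Matrix.one_mul]
        congr 1
        funext x
        exact hlk x _
      rw [h3]
      exact h2)
    have hvu : ∀ a, IsUnit (v a).det := fun a => by rw [(hv a).1]; exact isUnit_one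
    have h4 := h1 (fun a => Matrix.nonsingInvUnit (v a) (hvu a)) fun a =>
      (mem_GB_inv (hmpos _ _) (hBc a) _).2 (hv a)
    rw [FF_val] at h4
    unfold tmt at h4
    rw [hat_act] at h4
    have h5 := hat_inj h4
    have h6 : w = fun j => lk (E.d j) (E.R j) (E.R' j) (v (qq j)) := funext hw
    rw [h6]
    exact h5
  refine ⟨hflat x hinv, ?_⟩
  have hok : Okf BB := by
    intro a ha
    rcases hBc a with h1 | ⟨h1, h2⟩ | ⟨h1, h2, -⟩
    · exact absurd h1 ha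
    · exact ⟨h1, Or.inl h2⟩
    · exact ⟨h1, Or.inr h2⟩
  have hgen := stB (J := Jn r) (ν := νn n) (q := qq) (d := E.d) (P := E.R) (P' := E.R') hok (fun a => hmpos a.1 a.2) E.h1 E.h2 κ x hinv
  refine (?_ : gens _ _ κ ≤ _) hgen
  refine Submodule.span_mono ?_
  rintro y ⟨l, s, e, u, hu, rfl⟩
  refine ⟨l, s, e, u, fun j => ⟨?_, hflat _ (hu j).2⟩, rfl⟩
  rcases (hu j).1 with h1 | ⟨⟨i, a⟩, h1, h2⟩
  · exact Or.inl h1
  · obtain ⟨j', rfl⟩ := hqs i a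
    refine Or.inr ⟨i, j', h2.trans (hsize i j'), fun h3 => h1 (hkd i j' h3.1 h3.2)⟩

end main

end Q207.DB
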