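import Pool.Agent.Q207.DB.Fgen

/-!
# Transport between block diagonal groups
-/

set_option autoImplicit false

open Finset Matrix

namespace Q207.DB

section

variable {I : Type} [Fintype I] [DecidableEq I] {d : I → ℕ}

/-- the projection to a block -/
def sel (d : I → ℕ) (i : I) : Matrix (Fin (d i)) (Σ i, Fin (d i)) ℂ := Matrix.of fun p y => if y = ⟨i, p⟩ then 1 else 0

lemma sel_bd (D : ∀ i, Matrix (Fin (d i)) (Fin (d i)) ℂ) (i : I) : sel d i * blockDiagonal' D = D i * sel d i := by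
  ext p ⟨j, p'⟩
  rw [Matrix.mul_apply, Matrix.mul_apply]
  have h1 : ∑ y : Σ i, Fin (d i), sel d i p y * blockDiagonal' D y ⟨j, p'⟩ = blockDiagonal' D ⟨i, p⟩ ⟨j, p'⟩ := by
    simp only [sel, Matrix.of_apply, ite_mul, one_mul, zero_mul, sum_ite_eq', mem_univ, if_true]
  rw [h1]
  by_cases h : i = j
  · subst h
    rw [blockDiagonal'_apply_eq, sum_eq_single p']
    · simp [sel]
    · intro c _ hc
      simp only [sel, Matrix.of_apply]
      rw [if_neg, mul_zero]
      intro h2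
      exact hc (eq_of_heq (Sigma.mk.inj_iff.1 h2).2).symm
    · intro h2
      exact absurd (mem_univ _) h2
  · rw [blockDiagonal'_apply_ne _ _ _ h]
    refine (sum_eq_zero fun c _ => ?_).symm
    simp only [sel, Matrix.of_apply]
    rw [if_neg, mul_zero]
    intro h2
    exact h (Sigma.mk.inj_iff.1 h2).1.symm

lemma bd_selT (D : ∀ i, Matrix (Fin (d i)) (Fin (d i)) ℂ) (i : I) : blockDiagonal' D * (sel d i)ᵀ = (sel d i)ᵀ * D i := by
  have h1 := congrArg Matrix.transpose (sel_bd (fun i => (D i)ᵀ) i)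
  rw [Matrix.transpose_mul, Matrix.transpose_mul, blockDiagonal'_transpose] at h1
  simpa only [Matrix.transpose_transpose] using h1

omit [Fintype I] in
lemma sel_selT [Fintype I] (i : I) : sel d i * (sel d i)ᵀ = 1 := by
  ext p p'
  rw [Matrix.mul_apply]
  simp only [sel, Matrix.of_apply, Matrix.transpose_apply, ite_mul, one_mul, zero_mul, sum_ite_eq', mem_univ, if_true]
  rw [Matrix.one_apply]
  by_cases h : p = p'
  · rw [if_pos h, if_pos (by rw [h])]
  · rw [if_neg h, if_neg]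
    intro h2
    exact h (eq_of_heq (Sigma.mk.inj_iff.1 h2).2)

lemma sum_sel : ∑ i, (sel d i)ᵀ * sel d i = 1 := by
  ext ⟨j, p⟩ ⟨j', p'⟩
  rw [Matrix.sum_apply]
  have h1 : ∀ i : I, ((sel d i)ᵀ * sel d i) ⟨j, p⟩ ⟨j', p'⟩ =
      if i = j then (1 : Matrix (Σ i, Fin (d i)) (Σ i, Fin (d i)) ℂ) ⟨j, p⟩ ⟨j', p'⟩ else 0 := by
    intro i
    rw [Matrix.mul_apply]
    simp only [sel, Matrix.of_apply, Matrix.transpose_apply]
    by_cases h : i = j
    · subst h
      rw [if_pos rfl, sum_eq_single p]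
      · rw [if_pos rfl, one_mul, Matrix.one_apply]
        congr 1
        exact propext eq_comm
      · intro c _ hc
        rw [if_neg, zero_mul]
        intro h2
        exact hc (eq_of_heq (Sigma.mk.inj_iff.1 h2).2).symm
      · intro h2
        exact absurd (mem_univ _) h2
    · rw [if_neg h]
      refine sum_eq_zero fun c _ => ?_
      rw [if_neg, zero_mul]
      intro h2
      exact h (Sigma.mk.inj_iff.1 h2).1.symm
  rw [sum_congr rfl fun i _ => h1 i, sum_ite_eq', if_pos (mem_univ _)]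

/-- a set of block diagonal matrices -/
def BD (W : Set (∀ i, Matrix (Fin (d i)) (Fin (d i)) ℂ)) : Set (Matrix (Σ i, Fin (d i)) (Σ i, Fin (d i)) ℂ) :=
  {g | ∃ D ∈ W, g = blockDiagonal' D}

/-- **Transport between block diagonal groups.** -/
theorem GenP.bd {P : Type} [Fintype P] [DecidableEq P] {d' : P → ℕ} {Δ : ℕ → Prop} {V : Set (∀ i, Matrix (Fin (d i)) (Fin (d i)) ℂ)}
    {W : Set (∀ p, Matrix (Fin (d' p)) (Fin (d' p)) ℂ)} (h : GenP (BD V) Δ) (ι : P → I)
    (N : ∀ p, Matrix (Fin (d (ι p))) (Fin (d' p)) ℂ) (N' : ∀ p, Matrix (Fin (d' p)) (Fin (d (ι p))) ℂ) (h0 : ∀ p, N' p * N p = 1)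
    (h1 : ∀ D ∈ V, ∃ w ∈ W, ∀ p, D (ι p) * N p = N p * w p) (h2 : ∀ w ∈ W, ∃ D ∈ V, ∀ p, w p * N' p = N' p * D (ι p)) :
    GenP (BD W) Δ := by
  refine h.trans (fun p => (sel d (ι p))ᵀ * N p * sel d' p) (fun p => (sel d' p)ᵀ * N' p * sel d (ι p)) ?_ ?_ ?_
  · rintro _ ⟨D, hD, rfl⟩
    obtain ⟨w, hw, hDw⟩ := h1 D hD
    refine ⟨_, ⟨w, hw, rfl⟩, fun p => ?_⟩
    calc blockDiagonal' D * ((sel d (ι p))ᵀ * N p * sel d' p) = (blockDiagonal' D * (sel d (ι p))ᵀ) * N p * sel d' p := by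
          simp only [Matrix.mul_assoc]
      _ = (sel d (ι p))ᵀ * (D (ι p) * N p) * sel d' p := by
          rw [bd_selT]
          simp only [Matrix.mul_assoc]
      _ = (sel d (ι p))ᵀ * N p * (w p * sel d' p) := by
          rw [hDw]
          simp only [Matrix.mul_assoc]
      _ = _ := by
          rw [← sel_bd]
          simp only [Matrix.mul_assoc]
  · rintro _ ⟨w, hw, rfl⟩
    obtain ⟨D, hD, hDw⟩ := h2 w hw
    refine ⟨_, ⟨D, hD, rfl⟩, fun p => ?_⟩
    calc blockDiagonal' w * ((sel d' p)ᵀ * N' p * sel d (ι p)) = (blockDiagonal' w * (sel d' p)ᵀ) * N' p * sel d (ι p) := by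
          simp only [Matrix.mul_assoc]
      _ = (sel d' p)ᵀ * (w p * N' p) * sel d (ι p) := by
          rw [bd_selT]
          simp only [Matrix.mul_assoc]
      _ = (sel d' p)ᵀ * N' p * (D (ι p) * sel d (ι p)) := by
          rw [hDw]
          simp only [Matrix.mul_assoc]
      _ = _ := by
          rw [← sel_bd]
          simp only [Matrix.mul_assoc]
  · rw [← sum_sel (d := d')]
    refine sum_congr rfl fun p _ => ?_
    calc (sel d' p)ᵀ * N' p * sel d (ι p) * ((sel d (ι p))ᵀ * N p * sel d' p) =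
          (sel d' p)ᵀ * (N' p * (sel d (ι p) * (sel d (ι p))ᵀ) * N p) * sel d' p := by simp only [Matrix.mul_assoc]
      _ = _ := by
          rw [sel_selT, Matrix.mul_one, h0, Matrix.mul_one]

end

section

variable {X : Type} [Fintype X] {H : Set (Matrix X X ℂ)} {Δ Δ' : ℕ → Prop}

lemma GenP.mono (h : GenP H Δ) (hΔ : ∀ s, Δ s → Δ' s) : GenP H Δ' := by
  intro κ _ _ x hx
  refine (?_ : gens H Δ κ ≤ gens H Δ' κ) (h κ x hx)
  refine Submodule.span_mono ?_
  rintro y ⟨l, s, e, u, hu, rfl⟩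
  exact ⟨l, s, e, u, fun j => ⟨hΔ _ (hu j).1, (hu j).2⟩, rfl⟩

end

end Q207.DB
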