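import Pool.Agent.Q207.DB.Sel
import Pool.Agent.Q207.DB.NfS
import Pool.Agent.Q208.DB.Alt
import Pool.Agent.Q207.HM.Pkg

/-!
# The first fundamental theorem for products of classical groups and their duals, general forms
-/

set_option autoImplicit false

open Finset Matrix

namespace Q207.DB

open Pool.Agent.Y123.GN (Clf Spf)

/-- reversal -/
def Rv (n : ℕ) : Matrix (Fin n) (Fin n) ℂ := Matrix.of fun i j => if j = Fin.rev i then 1 else 0

lemma Rv_mul (n : ℕ) : Rv n * Rv n = 1 := by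
  ext i k
  rw [Matrix.mul_apply]
  simp only [Rv, Matrix.of_apply, ite_mul, one_mul, zero_mul, sum_ite_eq', mem_univ, if_true, Fin.rev_rev]
  rw [Matrix.one_apply]
  exact if_congr eq_comm rfl rfl

lemma Rv_T (n : ℕ) : (Rv n)ᵀ = Rv n := by
  ext i k
  simp only [Rv, Matrix.of_apply, Matrix.transpose_apply]
  refine if_congr ⟨fun h => ?_, fun h => ?_⟩ rfl rfl
  · rw [h, Fin.rev_rev]
  · rw [h, Fin.rev_rev]

lemma lt_rev {n : ℕ} (hn : Even n) (i : Fin n) : (i : ℕ) < Fin.rev i ↔ ¬ ((Fin.rev i : Fin n) : ℕ) < i := by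
  rw [Fin.val_rev]
  have := i.2
  obtain ⟨k, hk⟩ := hn
  omega

lemma Jst_mul {n : ℕ} (hn : Even n) : Jst n * Jst n = -1 := by
  ext i k
  rw [Matrix.mul_apply, sum_eq_single (Fin.rev i)]
  · rw [Matrix.neg_apply, Matrix.one_apply]
    simp only [Jst, Matrix.of_apply, Fin.rev_rev, if_true]
    have h1 := lt_rev hn i
    by_cases h : k = i
    · subst h
      rw [if_pos rfl, if_pos rfl]
      by_cases h2 : (k : ℕ) < Fin.rev k
      · rw [if_pos h2, if_neg (h1.1 h2)]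
        norm_num
      · rw [if_neg h2, if_pos (by_contra fun h3 => h2 (h1.2 h3))]
        norm_num
    · rw [if_neg h, if_neg (Ne.symm h), mul_zero, neg_zero]
  · intro j _ hj
    simp only [Jst, Matrix.of_apply]
    rw [if_neg hj, zero_mul]
  · intro h
    exact absurd (mem_univ _) h

variable {A : Type} {m : A → ℕ} (B : ∀ a, Matrix (Fin (m a)) (Fin (m a)) ℂ)

/-- the index type of the labels -/
abbrev IA : Type := ({a // B a = 0} × Bool) ⊕ {a // B a ≠ 0}

open Classical in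
/-- the labels -/
noncomputable def LA : Labels (IA B) where
  star := Sum.elim (fun p => Sum.inl (p.1, !p.2)) Sum.inr
  star_star := by
    rintro (⟨a, b⟩ | a)
    · simp
    · rfl
  orth := Sum.elim (fun _ => false) fun a => decide ((B a.1)ᵀ = B a.1)
  orth_star := by
    rintro (⟨a, b⟩ | a) h
    · exact absurd h (by simp)
    · rfl
  dim := Sum.elim (fun p => m p.1.1) fun a => m a.1
  dim_star := by
    rintro (⟨a, b⟩ | a)
    · rfl
    · rfl

open Classical in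
/-- the signs -/
noncomputable def eA : Letter (LA B) → ℂ := fun x => match x with
  | ⟨Sum.inl (_, b), _⟩ => if b then -1 else 1
  | ⟨Sum.inr a, p⟩ => if (B a.1)ᵀ = B a.1 then 1 else if ((p : Fin (m a.1)) : ℕ) < Fin.rev (p : Fin (m a.1)) then 1 else -1

open Classical in
/-- the standard forms -/
noncomputable def Jo (a : A) : Matrix (Fin (m a)) (Fin (m a)) ℂ := if (B a)ᵀ = B a then 1 else Jst (m a)

variable {B}

section

variable {I : Type} [Fintype I] [DecidableEq I] {d : I → ℕ}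

lemma sel_entry (M : Matrix (Σ i, Fin (d i)) (Σ i, Fin (d i)) ℂ) (i j : I) (p : Fin (d i)) (p' : Fin (d j)) :
    (sel d i * M * (sel d j)ᵀ) p p' = M ⟨i, p⟩ ⟨j, p'⟩ := by
  rw [Matrix.mul_apply]
  simp only [Matrix.mul_apply, sel, Matrix.of_apply, Matrix.transpose_apply, ite_mul, one_mul, zero_mul, sum_ite_eq', mem_univ,
    if_true, mul_ite, mul_one, mul_zero]

lemma ext_blk {M M' : Matrix (Σ i, Fin (d i)) (Σ i, Fin (d i)) ℂ}
    (h : ∀ i j, sel d i * M * (sel d j)ᵀ = sel d i * M' * (sel d j)ᵀ) : M = M' := by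
  ext ⟨i, p⟩ ⟨j, p'⟩
  rw [← sel_entry M, ← sel_entry M', h]

lemma blk_bd (D : ∀ i, Matrix (Fin (d i)) (Fin (d i)) ℂ) (M : Matrix (Σ i, Fin (d i)) (Σ i, Fin (d i)) ℂ) (i j : I) :
    sel d i * (blockDiagonal' D * M * (blockDiagonal' D)ᵀ) * (sel d j)ᵀ = D i * (sel d i * M * (sel d j)ᵀ) * (D j)ᵀ := by
  have h1 : (blockDiagonal' D)ᵀ * (sel d j)ᵀ = (sel d j)ᵀ * (D j)ᵀ := by
    rw [← Matrix.transpose_mul, sel_bd, Matrix.transpose_mul]
  calc _ = (sel d i * blockDiagonal' D) * M * ((blockDiagonal' D)ᵀ * (sel d j)ᵀ) := by simp only [Matrix.mul_assoc]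
    _ = _ := by
        rw [sel_bd, h1]
        simp only [Matrix.mul_assoc]

end

/-- the block matrices -/
def Dof (x : ∀ (a : {a // B a = 0}) (_ : Bool), Matrix (Fin (m a.1)) (Fin (m a.1)) ℂ)
    (y : ∀ a : {a // B a ≠ 0}, Matrix (Fin (m a.1)) (Fin (m a.1)) ℂ) :
    ∀ i : IA B, Matrix (Fin ((LA B).dim i)) (Fin ((LA B).dim i)) ℂ
  | Sum.inl (a, b) => x a b
  | Sum.inr a => y a

/-- the conditions on the blocks -/
structure OKD (x : ∀ (a : {a // B a = 0}) (_ : Bool), Matrix (Fin (m a.1)) (Fin (m a.1)) ℂ)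
    (y : ∀ a : {a // B a ≠ 0}, Matrix (Fin (m a.1)) (Fin (m a.1)) ℂ) : Prop where
  l1 : ∀ a, (x a false).det = 1
  l2 : ∀ a, x a true = Rv (m a.1) * ((x a false)⁻¹)ᵀ * Rv (m a.1)
  r1 : ∀ a, (y a).det = 1
  r2 : ∀ a, y a * Jo B a.1 * (y a)ᵀ = Jo B a.1

variable [Fintype A] [DecidableEq A]

noncomputable instance : Fintype (IA B) := by
  classical
  exact inferInstanceAs (Fintype (({a // B a = 0} × Bool) ⊕ {a // B a ≠ 0}))

instance : DecidableEq (IA B) := inferInstanceAs (DecidableEq (({a // B a = 0} × Bool) ⊕ {a // B a ≠ 0}))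

/-- the blocks of the form -/
lemma fb_ne {i j : IA B} (h : j ≠ (LA B).star i) :
    sel (LA B).dim i * form (eA B) * (sel (LA B).dim j)ᵀ = 0 := by
  ext p p'
  rw [sel_entry]
  show (if (⟨j, p'⟩ : Letter (LA B)) = dual ⟨i, p⟩ then _ else (0 : ℂ)) = 0
  rw [if_neg]
  intro h2
  apply h
  have h3 := congrArg Sigma.fst h2
  rw [dual_fst] at h3
  exact h3

/-- the block of the form -/
noncomputable def FL (a : {a // B a = 0}) (b : Bool) : Matrix (Fin (m a.1)) (Fin (m a.1)) ℂ :=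
  sel (LA B).dim (Sum.inl (a, b)) * form (eA B) * (sel (LA B).dim (Sum.inl (a, !b)))ᵀ

/-- the block of the form -/
noncomputable def FR (a : {a // B a ≠ 0}) : Matrix (Fin (m a.1)) (Fin (m a.1)) ℂ :=
  sel (LA B).dim (Sum.inr a) * form (eA B) * (sel (LA B).dim (Sum.inr a))ᵀ

lemma FL_eq (a : {a // B a = 0}) (b : Bool) : FL a b = (if b then (-1 : ℂ) else 1) • Rv (m a.1) := by
  ext p p'
  have h0 := sel_entry (d := (LA B).dim) (form (eA B)) (Sum.inl (a, b)) (Sum.inl (a, !b)) p p'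
  unfold FL
  rw [h0]
  show (if (⟨Sum.inl (a, !b), p'⟩ : Letter (LA B)) = dual ⟨Sum.inl (a, b), p⟩ then (if b then (-1 : ℂ) else 1) else (0 : ℂ)) =
    (if b then (-1 : ℂ) else 1) * (if p' = Fin.rev p then 1 else 0)
  have h1 : dual (⟨Sum.inl (a, b), p⟩ : Letter (LA B)) = ⟨Sum.inl (a, !b), (Fin.rev p : Fin (m a.1))⟩ := by
    rw [dual_of_not (by intro h; exact absurd h (by simp [LA]))]
    rfl
  rw [h1, mul_ite, mul_one, mul_zero]
  refine if_congr ⟨fun h => ?_, fun h => ?_⟩ rfl rfl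
  · exact eq_of_heq (Sigma.mk.inj_iff.1 h).2
  · rw [h]

lemma FR_eq (a : {a // B a ≠ 0}) : FR a = Jo B a.1 := by
  classical
  ext p p'
  have h0 := sel_entry (d := (LA B).dim) (form (eA B)) (Sum.inr a) (Sum.inr a) p p'
  unfold FR
  rw [h0]
  by_cases ho : (B a.1)ᵀ = B a.1
  · have h1 : dual (⟨Sum.inr a, p⟩ : Letter (LA B)) = ⟨Sum.inr a, p⟩ := dual_of_orth (by
      show decide ((B a.1)ᵀ = B a.1) = true
      rw [decide_eq_true_iff]
      exact ho)
    have h2 : eA B ⟨Sum.inr a, p⟩ = 1 := if_pos ho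
    unfold Jo
    rw [if_pos ho, Matrix.one_apply]
    show (if (⟨Sum.inr a, p'⟩ : Letter (LA B)) = dual ⟨Sum.inr a, p⟩ then eA B ⟨Sum.inr a, p⟩ else (0 : ℂ)) = _
    rw [h1, h2]
    refine if_congr ⟨fun h => ?_, fun h => ?_⟩ rfl rfl
    · exact (eq_of_heq (Sigma.mk.inj_iff.1 h).2).symm
    · rw [h]
  · have h1 : dual (⟨Sum.inr a, p⟩ : Letter (LA B)) = ⟨Sum.inr a, (Fin.rev p : Fin (m a.1))⟩ := by
      rw [dual_of_not (by
        show ¬ decide ((B a.1)ᵀ = B a.1) = true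
        rw [decide_eq_true_iff]
        exact ho)]
      rfl
    have h2 : eA B ⟨Sum.inr a, p⟩ = if (p : ℕ) < ((Fin.rev (p : Fin (m a.1)) : Fin (m a.1)) : ℕ) then 1 else -1 := if_neg ho
    unfold Jo
    rw [if_neg ho]
    show (if (⟨Sum.inr a, p'⟩ : Letter (LA B)) = dual ⟨Sum.inr a, p⟩ then eA B ⟨Sum.inr a, p⟩ else (0 : ℂ)) =
      if p' = (Fin.rev (p : Fin (m a.1)) : Fin (m a.1)) then (if (p : ℕ) < (p' : ℕ) then 1 else -1) else 0
    rw [h1, h2]
    by_cases h3 : p' = (Fin.rev (p : Fin (m a.1)) : Fin (m a.1))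
    · rw [if_pos h3, if_pos (by rw [h3]), h3]
    · rw [if_neg h3, if_neg]
      intro h4
      exact h3 (eq_of_heq (Sigma.mk.inj_iff.1 h4).2)

lemma Rv_det (n : ℕ) : (Rv n).det * (Rv n).det = 1 := by
  rw [← Matrix.det_mul, Rv_mul, Matrix.det_one]

lemma star_l (a : {a // B a = 0}) (b : Bool) : (LA B).star (Sum.inl (a, b)) = Sum.inl (a, !b) := rfl

lemma star_r (a : {a // B a ≠ 0}) : (LA B).star (Sum.inr a) = Sum.inr a := rfl

lemma inD_of {x : ∀ (a : {a // B a = 0}) (_ : Bool), Matrix (Fin (m a.1)) (Fin (m a.1)) ℂ}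
    {y : ∀ a : {a // B a ≠ 0}, Matrix (Fin (m a.1)) (Fin (m a.1)) ℂ} (h : OKD x y) :
    InD (eA B) (blockDiagonal' (Dof x y)) := by
  have hu : ∀ a, (x a false) * (x a false)⁻¹ = 1 := fun a => Matrix.mul_nonsing_inv _ (by rw [h.l1]; exact isUnit_one)
  refine ⟨?_, ?_, ?_⟩
  · rintro ⟨i, p⟩ ⟨j, p'⟩ hij
    exact blockDiagonal'_apply_ne _ _ _ hij
  · refine ext_blk fun i j => ?_
    rw [blk_bd]
    by_cases hj : j = (LA B).star i
    · subst hj
      rcases i with ⟨a, b⟩ | a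
      · show x a b * FL a b * (x a (!b))ᵀ = FL a b
        rw [FL_eq]
        rcases b with _ | _
        · show x a false * ((1 : ℂ) • Rv (m a.1)) * (x a true)ᵀ = (1 : ℂ) • Rv (m a.1)
          rw [one_smul, h.l2, Matrix.transpose_mul, Matrix.transpose_mul, Rv_T, Matrix.transpose_transpose]
          calc x a false * Rv (m a.1) * (Rv (m a.1) * ((x a false)⁻¹ * Rv (m a.1))) =
                x a false * (Rv (m a.1) * Rv (m a.1)) * (x a false)⁻¹ * Rv (m a.1) := by simp only [Matrix.mul_assoc]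
            _ = Rv (m a.1) := by rw [Rv_mul, Matrix.mul_one, hu, Matrix.one_mul]
        · show x a true * ((-1 : ℂ) • Rv (m a.1)) * (x a false)ᵀ = (-1 : ℂ) • Rv (m a.1)
          rw [h.l2, Matrix.mul_smul, Matrix.smul_mul]
          congr 1
          have e1 : ((x a false)⁻¹)ᵀ * (x a false)ᵀ = 1 := by rw [← Matrix.transpose_mul, hu, Matrix.transpose_one]
          calc Rv (m a.1) * ((x a false)⁻¹)ᵀ * Rv (m a.1) * Rv (m a.1) * (x a false)ᵀ =
                Rv (m a.1) * ((x a false)⁻¹)ᵀ * (Rv (m a.1) * Rv (m a.1)) * (x a false)ᵀ := by simp only [Matrix.mul_assoc]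
            _ = Rv (m a.1) * (((x a false)⁻¹)ᵀ * (x a false)ᵀ) := by rw [Rv_mul, Matrix.mul_one, Matrix.mul_assoc]
            _ = Rv (m a.1) := by rw [e1, Matrix.mul_one]
      · show y a * FR a * (y a)ᵀ = FR a
        rw [FR_eq]
        exact h.r2 a
    · rw [fb_ne hj, Matrix.mul_zero, Matrix.zero_mul]
  · intro i _
    have h1 : (Matrix.of fun p p' : Fin ((LA B).dim i) => blockDiagonal' (Dof x y) ⟨i, p⟩ ⟨i, p'⟩) = Dof x y i := by
      ext p p'
      rw [Matrix.of_apply, blockDiagonal'_apply_eq]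
    rw [h1]
    rcases i with ⟨a, b⟩ | a
    · rcases b with _ | _
      · exact h.l1 a
      · show (x a true).det = 1
        rw [h.l2, Matrix.det_mul, Matrix.det_mul, Matrix.det_transpose, Matrix.det_nonsing_inv, h.l1, Ring.inverse_one, mul_one,
          Rv_det]
    · exact h.r1 a

lemma Jst_T {n : ℕ} (hn : Even n) : (Jst n)ᵀ = -Jst n := by
  ext i k
  rw [Matrix.transpose_apply, Matrix.neg_apply]
  simp only [Jst, Matrix.of_apply]
  have h1 := lt_rev hn i
  by_cases h : k = Fin.rev i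
  · subst h
    rw [if_pos (Fin.rev_rev i).symm, if_pos rfl]
    by_cases h2 : (i : ℕ) < Fin.rev i
    · rw [if_pos h2, if_neg (h1.1 h2)]
    · rw [if_neg h2, if_pos (by_contra fun h3 => h2 (h1.2 h3)), neg_neg]
  · rw [if_neg, if_neg h, neg_zero]
    intro h2
    apply h
    rw [h2, Fin.rev_rev]

lemma Jst_unit {n : ℕ} (hn : Even n) : IsUnit (Jst n) := by
  refine ⟨⟨Jst n, -Jst n, ?_, ?_⟩, rfl⟩
  · rw [Matrix.mul_neg, Jst_mul hn, neg_neg]
  · rw [Matrix.neg_mul, Jst_mul hn, neg_neg]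

/-- the hypothesis on the forms -/
def Okf (B : ∀ a, Matrix (Fin (m a)) (Fin (m a)) ℂ) : Prop :=
  ∀ a, B a ≠ 0 → IsUnit (B a) ∧ ((B a)ᵀ = -B a ∨ (B a)ᵀ = B a)

omit [Fintype A] [DecidableEq A] in
lemma even_of (hB : Okf B) {a : A} (h : B a ≠ 0) (ho : ¬ (B a)ᵀ = B a) : Even (m a) := by
  obtain ⟨h1, h2 | h2⟩ := hB a h
  · exact (Q208.DB.alt_nf (m a) (B a) h2 h1).1
  · exact absurd h2 ho

lemma of_inD (hB : Okf B) {g : Matrix (Letter (LA B)) (Letter (LA B)) ℂ} (hg : InD (eA B) g) :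
    ∃ (x : ∀ (a : {a // B a = 0}) (_ : Bool), Matrix (Fin (m a.1)) (Fin (m a.1)) ℂ)
      (y : ∀ a : {a // B a ≠ 0}, Matrix (Fin (m a.1)) (Fin (m a.1)) ℂ), OKD x y ∧ g = blockDiagonal' (Dof x y) := by
  classical
  set D : ∀ i : IA B, Matrix (Fin ((LA B).dim i)) (Fin ((LA B).dim i)) ℂ := fun i => Matrix.of fun p p' => g ⟨i, p⟩ ⟨i, p'⟩ with hD
  have hgD : g = blockDiagonal' D := by
    ext ⟨i, p⟩ ⟨j, p'⟩
    by_cases h : i = j
    · subst h
      rw [blockDiagonal'_apply_eq]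
      rfl
    · rw [blockDiagonal'_apply_ne _ _ _ h]
      exact hg.block _ _ h
  have hform : ∀ i j, D i * (sel (LA B).dim i * form (eA B) * (sel (LA B).dim j)ᵀ) * (D j)ᵀ =
      sel (LA B).dim i * form (eA B) * (sel (LA B).dim j)ᵀ := by
    intro i j
    rw [← blk_bd, ← hgD, hg.form]
  set x : ∀ (a : {a // B a = 0}) (_ : Bool), Matrix (Fin (m a.1)) (Fin (m a.1)) ℂ := fun a b => D (Sum.inl (a, b)) with hx
  set y : ∀ a : {a // B a ≠ 0}, Matrix (Fin (m a.1)) (Fin (m a.1)) ℂ := fun a => D (Sum.inr a) with hy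
  have hDof : D = Dof x y := by
    funext i
    rcases i with ⟨a, b⟩ | a
    · rfl
    · rfl
  have hl1 : ∀ a, (x a false).det = 1 := fun a => hg.det (Sum.inl (a, false)) (Or.inl (by
    rw [star_l]
    intro h
    have h2 := congrArg Prod.snd (Sum.inl_injective h)
    exact absurd h2 (by simp)))
  have hr2 : ∀ a, y a * Jo B a.1 * (y a)ᵀ = Jo B a.1 := fun a => by
    have h1 : y a * FR a * (y a)ᵀ = FR a := hform (Sum.inr a) (Sum.inr a)
    rwa [FR_eq] at h1
  refine ⟨x, y, ⟨hl1, fun a => ?_, fun a => ?_, hr2⟩, by rw [hgD, hDof]⟩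
  · have h1 : x a false * FL a false * (x a true)ᵀ = FL a false := hform (Sum.inl (a, false)) (Sum.inl (a, true))
    rw [FL_eq] at h1
    have h2 : x a false * Rv (m a.1) * (x a true)ᵀ = Rv (m a.1) := by
      have h3 : x a false * ((1 : ℂ) • Rv (m a.1)) * (x a true)ᵀ = (1 : ℂ) • Rv (m a.1) := h1
      rwa [one_smul] at h3
    have hu : (x a false)⁻¹ * x a false = 1 := Matrix.nonsing_inv_mul _ (by rw [hl1]; exact isUnit_one)
    have h3 : (x a true)ᵀ = Rv (m a.1) * (x a false)⁻¹ * Rv (m a.1) := by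
      calc (x a true)ᵀ = Rv (m a.1) * ((x a false)⁻¹ * x a false) * Rv (m a.1) * (x a true)ᵀ := by
            rw [hu, Matrix.mul_one, Rv_mul, Matrix.one_mul]
        _ = Rv (m a.1) * (x a false)⁻¹ * (x a false * Rv (m a.1) * (x a true)ᵀ) := by simp only [Matrix.mul_assoc]
        _ = _ := by rw [h2]
    have h4 := congrArg Matrix.transpose h3
    rw [Matrix.transpose_transpose, Matrix.transpose_mul, Matrix.transpose_mul, Rv_T, ← Matrix.mul_assoc] at h4
    exact h4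
  · by_cases ho : (B a.1)ᵀ = B a.1
    · exact hg.det (Sum.inr a) (Or.inr (by
        show decide ((B a.1)ᵀ = B a.1) = true
        rw [decide_eq_true_iff]
        exact ho))
    · have hev := even_of hB a.2 ho
      have h1 := hr2 a
      unfold Jo at h1
      rw [if_neg ho] at h1
      exact Pool.Agent.Y123.GN.sp_det1 ⟨Jst_unit hev, Jst_T hev⟩ h1

/-- the group of a product of classical groups -/
def GV (B : ∀ a, Matrix (Fin (m a)) (Fin (m a)) ℂ) : Set (∀ a, Matrix (Fin (m a)) (Fin (m a)) ℂ) :=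
  {v | ∀ a, (v a).det = 1 ∧ (v a)ᵀ * B a * v a = B a}

/-- with the duals -/
noncomputable def wv (v : ∀ a, Matrix (Fin (m a)) (Fin (m a)) ℂ) (p : A × Bool) : Matrix (Fin (m p.1)) (Fin (m p.1)) ℂ :=
  if p.2 then ((v p.1)⁻¹)ᵀ else v p.1

omit [Fintype A] [DecidableEq A] in
lemma exists_S (hB : Okf B) (a : A) (h : B a ≠ 0) : ∃ S : Matrix (Fin (m a)) (Fin (m a)) ℂ, Sᵀ * Jo B a * S = B a := by
  classical
  obtain ⟨h1, h2⟩ := hB a h
  unfold Jo
  by_cases ho : (B a)ᵀ = B a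
  · obtain ⟨S, hS⟩ := Q208.DB.sym_nf (m a) (B a) ho h1
    refine ⟨S, ?_⟩
    rw [if_pos ho, Matrix.mul_one]
    exact hS
  · obtain ⟨-, S, hS⟩ := Q208.DB.alt_nf (m a) (B a) (h2.resolve_right ho) h1
    refine ⟨S, ?_⟩
    rw [if_neg ho]
    exact hS

end Q207.DB
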