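import Pool.Agent.Q207.DB.StA

/-!
# The first fundamental theorem for embedded products of classical groups
-/

set_option autoImplicit false

open Finset Matrix

namespace Q207.DB

open Pool.Agent.Y123.GN (Clf Spf)
open Q207.HM (lk)

variable {A : Type} {m : A → ℕ} {B : ∀ a, Matrix (Fin (m a)) (Fin (m a)) ℂ}

/-- the degrees of the generators -/
def Dl (B : ∀ a, Matrix (Fin (m a)) (Fin (m a)) ℂ) (s : ℕ) : Prop := s = 2 ∨ ∃ a, ¬ Spf (B a) ∧ s = m a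

lemma Jo_sq (hB : Okf B) {a : A} (h : B a ≠ 0) : ∃ c : ℂ, c ≠ 0 ∧ Jo B a * Jo B a = c • 1 := by
  classical
  unfold Jo
  by_cases ho : (B a)ᵀ = B a
  · rw [if_pos ho]
    exact ⟨1, one_ne_zero, by rw [Matrix.one_mul, one_smul]⟩
  · rw [if_neg ho, Jst_mul (even_of hB h ho)]
    exact ⟨-1, by norm_num, by rw [neg_smul, one_smul]⟩

lemma swap_form {n : ℕ} {J y : Matrix (Fin n) (Fin n) ℂ} {c : ℂ} (hc : c ≠ 0) (hJ : J * J = c • 1) (h : yᵀ * J * y = J) :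
    y * J * yᵀ = J := by
  have h1 : (c⁻¹ • (J * yᵀ * J)) * y = 1 := by
    rw [Matrix.smul_mul]
    have e1 : J * yᵀ * J * y = J * (yᵀ * J * y) := by simp only [Matrix.mul_assoc]
    rw [e1, h, hJ, smul_smul, inv_mul_cancel₀ hc, one_smul]
  have h2 : y * (c⁻¹ • (J * yᵀ * J)) = 1 := mul_eq_one_comm.1 h1
  rw [Matrix.mul_smul] at h2
  have h3 : (y * J * yᵀ) * J = c • 1 := by
    have e2 : y * (J * yᵀ * J) = y * J * yᵀ * J := by simp only [Matrix.mul_assoc]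
    rw [e2] at h2
    have h4 := congrArg (fun M => c • M) h2
    simpa only [smul_smul, mul_inv_cancel₀ hc, one_smul] using h4
  have h5 : (y * J * yᵀ) * J * J = J * J * J := by
    rw [h3, hJ]
  have h6 : (y * J * yᵀ) * (J * J) = J * (J * J) := by
    rw [← Matrix.mul_assoc, ← Matrix.mul_assoc]
    exact h5
  rw [hJ, Matrix.mul_smul, Matrix.mul_smul, Matrix.mul_one, Matrix.mul_one] at h6
  have h7 := congrArg (fun M => c⁻¹ • M) h6
  simpa only [smul_smul, inv_mul_cancel₀ hc, one_smul] using h7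

lemma swap_form' {n : ℕ} {J y : Matrix (Fin n) (Fin n) ℂ} {c : ℂ} (hc : c ≠ 0) (hJ : J * J = c • 1) (h : y * J * yᵀ = J) :
    yᵀ * J * y = J := by
  have h1 := swap_form (y := yᵀ) hc hJ (by rw [Matrix.transpose_transpose]; exact h)
  rwa [Matrix.transpose_transpose] at h1

variable [Fintype A] [DecidableEq A]

omit [Fintype A] [DecidableEq A] in
lemma eA_rev (hB : Okf B) (a : {a // B a ≠ 0}) (ho : ¬ (B a.1)ᵀ = B a.1) (p : Fin (m a.1)) :
    eA B ⟨Sum.inr a, (Fin.rev p : Fin (m a.1))⟩ = -eA B ⟨Sum.inr a, p⟩ := by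
  classical
  have h2 : ∀ p : Fin (m a.1), eA B ⟨Sum.inr a, p⟩ = if (p : ℕ) < ((Fin.rev p : Fin (m a.1)) : ℕ) then 1 else -1 := fun p => if_neg ho
  rw [h2, h2, Fin.rev_rev]
  have h4 := lt_rev (even_of hB a.2 ho) p
  by_cases h5 : (p : ℕ) < ((Fin.rev p : Fin (m a.1)) : ℕ)
  · rw [if_neg (h4.1 h5), if_pos h5]
  · rw [if_pos (by_contra fun h6 => h5 (h4.2 h6)), if_neg h5, neg_neg]

/-- the groups of the products with the duals -/
def W1 (B : ∀ a, Matrix (Fin (m a)) (Fin (m a)) ℂ) : Set (∀ p : A × Bool, Matrix (Fin (m p.1)) (Fin (m p.1)) ℂ) :=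
  {w | ∃ v ∈ GV B, w = wv v}

theorem stA (hB : Okf B) (hm : ∀ a, 0 < m a) : GenP (BD (W1 B)) (Dl B) := by
  classical
  have hS0 : ∀ a, ∃ S : Matrix (Fin (m a)) (Fin (m a)) ℂ, B a ≠ 0 → Sᵀ * Jo B a * S = B a := by
    intro a
    by_cases h : B a = 0
    · exact ⟨1, fun h2 => absurd h h2⟩
    · obtain ⟨S, hS⟩ := exists_S hB a h
      exact ⟨S, fun _ => hS⟩
  choose S hS using hS0
  have hSd : ∀ a, B a ≠ 0 → IsUnit (S a).det := by
    intro a h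
    have h1 := (Matrix.isUnit_iff_isUnit_det _).1 (hB a h).1
    rw [← hS a h, Matrix.det_mul, Matrix.det_mul] at h1
    exact isUnit_of_mul_isUnit_right h1
  have hS1 : ∀ a, B a ≠ 0 → S a * (S a)⁻¹ = 1 := fun a h => Matrix.mul_nonsing_inv _ (hSd a h)
  have hS2 : ∀ a, B a ≠ 0 → (S a)⁻¹ * S a = 1 := fun a h => Matrix.nonsing_inv_mul _ (hSd a h)
  set xx : (∀ a, Matrix (Fin (m a)) (Fin (m a)) ℂ) → ∀ (a : {a // B a = 0}) (_ : Bool), Matrix (Fin (m a.1)) (Fin (m a.1)) ℂ :=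
    fun v a b => if b then Rv (m a.1) * ((v a.1)⁻¹)ᵀ * Rv (m a.1) else v a.1 with hxx
  set yy : (∀ a, Matrix (Fin (m a)) (Fin (m a)) ℂ) → ∀ (a : {a // B a ≠ 0}), Matrix (Fin (m a.1)) (Fin (m a.1)) ℂ :=
    fun v a => S a.1 * v a.1 * (S a.1)⁻¹ with hyy
  have hv1 : ∀ v ∈ GV B, ∀ a, v a * (v a)⁻¹ = 1 := fun v hv a => Matrix.mul_nonsing_inv _ (by rw [(hv a).1]; exact isUnit_one)
  have hv2 : ∀ v ∈ GV B, ∀ a, (v a)⁻¹ * v a = 1 := fun v hv a => Matrix.nonsing_inv_mul _ (by rw [(hv a).1]; exact isUnit_one)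
  -- the group
  have hok : ∀ v ∈ GV B, OKD (xx v) (yy v) := by
    intro v hv
    refine ⟨fun a => (hv a.1).1, fun a => rfl, fun a => ?_, fun a => ?_⟩
    · show (S a.1 * v a.1 * (S a.1)⁻¹).det = 1
      rw [Matrix.det_conj_of_mul_eq_one (hS1 _ a.2) (hS2 _ a.2)]
      exact (hv a.1).1
    · obtain ⟨c, hc, hJ⟩ := Jo_sq hB a.2
      refine swap_form hc hJ ?_
      show (S a.1 * v a.1 * (S a.1)⁻¹)ᵀ * Jo B a.1 * (S a.1 * v a.1 * (S a.1)⁻¹) = Jo B a.1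
      have e1 : ((S a.1)⁻¹)ᵀ * (S a.1)ᵀ = 1 := by rw [← Matrix.transpose_mul, hS1 _ a.2, Matrix.transpose_one]
      rw [Matrix.transpose_mul, Matrix.transpose_mul]
      calc ((S a.1)⁻¹)ᵀ * ((v a.1)ᵀ * (S a.1)ᵀ) * Jo B a.1 * (S a.1 * v a.1 * (S a.1)⁻¹) =
            ((S a.1)⁻¹)ᵀ * ((v a.1)ᵀ * ((S a.1)ᵀ * Jo B a.1 * S a.1) * v a.1) * (S a.1)⁻¹ := by simp only [Matrix.mul_assoc]
        _ = ((S a.1)⁻¹)ᵀ * ((S a.1)ᵀ * Jo B a.1 * S a.1) * (S a.1)⁻¹ := by rw [hS _ a.2, (hv a.1).2]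
        _ = (((S a.1)⁻¹)ᵀ * (S a.1)ᵀ) * Jo B a.1 * (S a.1 * (S a.1)⁻¹) := by simp only [Matrix.mul_assoc]
        _ = _ := by rw [e1, hS1 _ a.2, Matrix.one_mul, Matrix.mul_one]
  have hall : ∀ x y, OKD (B := B) x y → ∃ v ∈ GV B, x = xx v ∧ y = yy v := by
    intro x y h
    set v : ∀ a, Matrix (Fin (m a)) (Fin (m a)) ℂ := fun a =>
      if h : B a = 0 then x ⟨a, h⟩ false else (S a)⁻¹ * y ⟨a, h⟩ * S a with hv
    have hv0 : ∀ a : {a // B a = 0}, v a.1 = x a false := fun a => dif_pos a.2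
    have hv3 : ∀ a : {a // B a ≠ 0}, v a.1 = (S a.1)⁻¹ * y a * S a.1 := fun a => dif_neg a.2
    refine ⟨v, fun a => ?_, ?_, ?_⟩
    · by_cases h0 : B a = 0
      · rw [hv0 ⟨a, h0⟩, h0]
        exact ⟨h.l1 _, by rw [Matrix.mul_zero, Matrix.zero_mul]⟩
      · rw [hv3 ⟨a, h0⟩]
        refine ⟨?_, ?_⟩
        · show ((S a)⁻¹ * y ⟨a, h0⟩ * S a).det = 1
          rw [Matrix.det_conj_of_mul_eq_one (hS2 _ h0) (hS1 _ h0)]
          exact h.r1 _
        · obtain ⟨c, hc, hJ⟩ := Jo_sq hB h0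
          have e2 := swap_form' hc hJ (h.r2 ⟨a, h0⟩)
          have e1 : (S a)ᵀ * ((S a)⁻¹)ᵀ = 1 := by rw [← Matrix.transpose_mul, hS2 _ h0, Matrix.transpose_one]
          have e3 : ((S a)⁻¹)ᵀ * B a * (S a)⁻¹ = Jo B a := by
            have e4 : ((S a)⁻¹)ᵀ * (S a)ᵀ = 1 := by rw [← Matrix.transpose_mul, hS1 _ h0, Matrix.transpose_one]
            rw [← hS _ h0]
            calc ((S a)⁻¹)ᵀ * ((S a)ᵀ * Jo B a * S a) * (S a)⁻¹ = (((S a)⁻¹)ᵀ * (S a)ᵀ) * Jo B a * (S a * (S a)⁻¹) := by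
                  simp only [Matrix.mul_assoc]
              _ = _ := by rw [e4, hS1 _ h0, Matrix.one_mul, Matrix.mul_one]
          show ((S a)⁻¹ * y ⟨a, h0⟩ * S a)ᵀ * B a * ((S a)⁻¹ * y ⟨a, h0⟩ * S a) = B a
          rw [Matrix.transpose_mul, Matrix.transpose_mul]
          calc (S a)ᵀ * ((y ⟨a, h0⟩)ᵀ * ((S a)⁻¹)ᵀ) * B a * ((S a)⁻¹ * y ⟨a, h0⟩ * S a) =
                (S a)ᵀ * ((y ⟨a, h0⟩)ᵀ * (((S a)⁻¹)ᵀ * B a * (S a)⁻¹) * y ⟨a, h0⟩) * S a := by simp only [Matrix.mul_assoc]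
            _ = (S a)ᵀ * Jo B a * S a := by rw [e3, e2]
            _ = B a := hS _ h0
    · funext a b
      rcases b with _ | _
      · exact (hv0 a).symm
      · show x a true = Rv (m a.1) * ((v a.1)⁻¹)ᵀ * Rv (m a.1)
        rw [hv0, h.l2]
    · funext a
      show y a = S a.1 * v a.1 * (S a.1)⁻¹
      rw [hv3]
      calc y a = (S a.1 * (S a.1)⁻¹) * y a * (S a.1 * (S a.1)⁻¹) := by rw [hS1 _ a.2, Matrix.one_mul, Matrix.mul_one]
        _ = _ := by simp only [Matrix.mul_assoc]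
  set V : Set (∀ i : IA B, Matrix (Fin ((LA B).dim i)) (Fin ((LA B).dim i)) ℂ) := {D | ∃ v ∈ GV B, D = Dof (xx v) (yy v)} with hV
  have hGD : GD (LA B) (eA B) = BD V := by
    ext g
    constructor
    · intro hg
      obtain ⟨x, y, h1, h2⟩ := of_inD hB hg
      obtain ⟨v, hv, rfl, rfl⟩ := hall x y h1
      exact ⟨_, ⟨v, hv, rfl⟩, h2⟩
    · rintro ⟨_, ⟨v, hv, rfl⟩, rfl⟩
      exact inD_of (hok v hv)
  have hε : ∀ x : Letter (LA B), ¬ (LA B).orth x.1 = true → eA B (dual x) = -eA B x := by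
    rintro ⟨⟨a, b⟩ | a, p⟩ ho
    · have h1 : dual (⟨Sum.inl (a, b), p⟩ : Letter (LA B)) = ⟨Sum.inl (a, !b), (Fin.rev p : Fin (m a.1))⟩ := by
        rw [dual_of_not ho]
        rfl
      rw [h1]
      show (if (!b) = true then (-1 : ℂ) else 1) = -(if b = true then (-1 : ℂ) else 1)
      rcases b with _ | _
      · simp
      · simp
    · have ho' : ¬ (B a.1)ᵀ = B a.1 := by
        intro h
        apply ho
        show decide ((B a.1)ᵀ = B a.1) = true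
        rw [decide_eq_true_iff]
        exact h
      have h1 : dual (⟨Sum.inr a, p⟩ : Letter (LA B)) = ⟨Sum.inr a, (Fin.rev p : Fin (m a.1))⟩ := by
        rw [dual_of_not ho]
        rfl
      rw [h1]
      exact eA_rev hB a ho' p
  have hε0 : ∀ x, eA B x ≠ 0 := by
    rintro ⟨⟨a, b⟩ | a, p⟩
    · show (if b = true then (-1 : ℂ) else 1) ≠ 0
      split_ifs
      · norm_num
      · norm_num
    · show (if (B a.1)ᵀ = B a.1 then (1 : ℂ) else if ((p : Fin (m a.1)) : ℕ) < Fin.rev (p : Fin (m a.1)) then 1 else -1) ≠ 0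
      split_ifs
      · norm_num
      · norm_num
      · norm_num
  have h1 := fgen (Λ := LA B) (ε := eA B) hε hε0
  rw [hGD] at h1
  have h2 : GenP (BD V) (Dl B) := by
    refine h1.mono ?_
    rintro s (rfl | ⟨i, hi, rfl⟩)
    · exact Or.inl rfl
    · rcases i with ⟨a, b⟩ | a
      · refine Or.inr ⟨a.1, fun h => ?_, rfl⟩
        have h3 := h.1
        rw [a.2] at h3
        have : Nonempty (Fin (m a.1)) := ⟨⟨0, hm _⟩⟩
        exact not_isUnit_zero h3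
      · rcases hi with hi | hi
        · exact absurd rfl hi
        · refine Or.inr ⟨a.1, fun h => ?_, rfl⟩
          have hi' : (B a.1)ᵀ = B a.1 := by
            have h4 : decide ((B a.1)ᵀ = B a.1) = true := hi
            rwa [decide_eq_true_iff] at h4
          have h5 := h.2
          rw [hi'] at h5
          have h6 : (2 : ℂ) • B a.1 = 0 := by
            rw [two_smul]
            nth_rewrite 2 [h5]
            exact add_neg_cancel _
          rw [smul_eq_zero] at h6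
          exact a.2 (h6.resolve_left (by norm_num))
  have hN : ∀ p : A × Bool, ∃ (i : IA B) (N : Matrix (Fin ((LA B).dim i)) (Fin (m p.1)) ℂ) (N' : Matrix (Fin (m p.1)) (Fin ((LA B).dim i)) ℂ),
      N' * N = 1 ∧ ∀ v ∈ GV B, Dof (xx v) (yy v) i * N = N * wv v p ∧ wv v p * N' = N' * Dof (xx v) (yy v) i := by
    rintro ⟨a, b⟩
    by_cases h : B a = 0
    · rcases b with _ | _
      · refine ⟨Sum.inl (⟨a, h⟩, false), (1 : Matrix (Fin (m a)) (Fin (m a)) ℂ), (1 : Matrix (Fin (m a)) (Fin (m a)) ℂ), Matrix.mul_one _,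
          fun v hv => ⟨?_, ?_⟩⟩
        · exact (Matrix.mul_one (v a)).trans (Matrix.one_mul (v a)).symm
        · exact (Matrix.mul_one (v a)).trans (Matrix.one_mul (v a)).symm
      · refine ⟨Sum.inl (⟨a, h⟩, true), Rv (m a), Rv (m a), Rv_mul _, fun v hv => ⟨?_, ?_⟩⟩
        · have e1 : Rv (m a) * ((v a)⁻¹)ᵀ * Rv (m a) * Rv (m a) = Rv (m a) * ((v a)⁻¹)ᵀ := by
            rw [Matrix.mul_assoc, Rv_mul, Matrix.mul_one]
          exact e1
        · have e1 : ((v a)⁻¹)ᵀ * Rv (m a) = Rv (m a) * (Rv (m a) * ((v a)⁻¹)ᵀ * Rv (m a)) := by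
            rw [← Matrix.mul_assoc, ← Matrix.mul_assoc, Rv_mul, Matrix.one_mul]
          exact e1
    · have hBu := (Matrix.isUnit_iff_isUnit_det _).1 (hB a h).1
      have hB1 : B a * (B a)⁻¹ = 1 := Matrix.mul_nonsing_inv _ hBu
      have hB2 : (B a)⁻¹ * B a = 1 := Matrix.nonsing_inv_mul _ hBu
      rcases b with _ | _
      · refine ⟨Sum.inr ⟨a, h⟩, S a, ((S a)⁻¹ : Matrix (Fin (m a)) (Fin (m a)) ℂ), hS2 a h, fun v hv => ⟨?_, ?_⟩⟩
        · have e1 : S a * v a * (S a)⁻¹ * S a = S a * v a := by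
            rw [Matrix.mul_assoc, hS2 a h, Matrix.mul_one]
          exact e1
        · have e1 : v a * (S a)⁻¹ = (S a)⁻¹ * (S a * v a * (S a)⁻¹) := by
            rw [← Matrix.mul_assoc, ← Matrix.mul_assoc, hS2 a h, Matrix.one_mul]
          exact e1
      · have hkey : ∀ v ∈ GV B, ((v a)⁻¹)ᵀ * B a = B a * v a := by
          intro v hv
          have e1 : ((v a)⁻¹)ᵀ * (v a)ᵀ = 1 := by rw [← Matrix.transpose_mul, hv1 v hv, Matrix.transpose_one]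
          calc ((v a)⁻¹)ᵀ * B a = ((v a)⁻¹)ᵀ * ((v a)ᵀ * B a * v a) := by rw [(hv a).2]
            _ = (((v a)⁻¹)ᵀ * (v a)ᵀ) * B a * v a := by simp only [Matrix.mul_assoc]
            _ = _ := by rw [e1, Matrix.one_mul]
        refine ⟨Sum.inr ⟨a, h⟩, (S a * (B a)⁻¹ : Matrix (Fin (m a)) (Fin (m a)) ℂ), (B a * (S a)⁻¹ : Matrix (Fin (m a)) (Fin (m a)) ℂ), ?_, fun v hv => ⟨?_, ?_⟩⟩
        · calc B a * (S a)⁻¹ * (S a * (B a)⁻¹) = B a * ((S a)⁻¹ * S a) * (B a)⁻¹ := by simp only [Matrix.mul_assoc]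
            _ = 1 := by rw [hS2 a h, Matrix.mul_one, hB1]
        · have e1 : S a * v a * (S a)⁻¹ * (S a * (B a)⁻¹) = S a * (B a)⁻¹ * ((v a)⁻¹)ᵀ := by
           calc S a * v a * (S a)⁻¹ * (S a * (B a)⁻¹) = S a * v a * ((S a)⁻¹ * S a) * (B a)⁻¹ := by simp only [Matrix.mul_assoc]
            _ = S a * (((B a)⁻¹ * B a) * v a) * (B a)⁻¹ := by rw [hS2 a h, hB2, Matrix.mul_one, Matrix.one_mul]
            _ = S a * (B a)⁻¹ * (B a * v a) * (B a)⁻¹ := by simp only [Matrix.mul_assoc]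
            _ = S a * (B a)⁻¹ * (((v a)⁻¹)ᵀ * B a) * (B a)⁻¹ := by rw [hkey v hv]
            _ = S a * (B a)⁻¹ * ((v a)⁻¹)ᵀ * (B a * (B a)⁻¹) := by simp only [Matrix.mul_assoc]
            _ = _ := by rw [hB1, Matrix.mul_one]
          exact e1
        · have e1 : ((v a)⁻¹)ᵀ * (B a * (S a)⁻¹) = B a * (S a)⁻¹ * (S a * v a * (S a)⁻¹) := by
           calc ((v a)⁻¹)ᵀ * (B a * (S a)⁻¹) = (((v a)⁻¹)ᵀ * B a) * (S a)⁻¹ := by simp only [Matrix.mul_assoc]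
            _ = B a * ((S a)⁻¹ * S a) * v a * (S a)⁻¹ := by rw [hkey v hv, hS2 a h, Matrix.mul_one]
            _ = _ := by simp only [Matrix.mul_assoc]
          exact e1
  choose ι N N' hN0 hN1 using hN
  refine h2.bd (d' := fun p : A × Bool => m p.1) ι N N' hN0 ?_ ?_
  · rintro _ ⟨v, hv, rfl⟩
    exact ⟨_, ⟨v, hv, rfl⟩, fun p => (hN1 p v hv).1⟩
  · rintro _ ⟨v, hv, rfl⟩
    exact ⟨_, ⟨v, hv, rfl⟩, fun p => (hN1 p v hv).2⟩

/-- the group of an embedding -/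
def WJ {J : Type} {ν : J → ℕ} (B : ∀ a, Matrix (Fin (m a)) (Fin (m a)) ℂ) (q : J → A) (d : J → Bool)
    (P : ∀ j, Matrix (Fin (ν j)) (Fin (m (q j))) ℂ) (P' : ∀ j, Matrix (Fin (m (q j))) (Fin (ν j)) ℂ) :
    Set (∀ j, Matrix (Fin (ν j)) (Fin (ν j)) ℂ) := {w | ∃ v ∈ GV B, ∀ j, w j = lk (d j) (P j) (P' j) (v (q j))}

/-- **The invariant tensors of an embedded product of classical groups are generated in degree 2 and the degrees of the
determinants.** -/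
theorem stB (hB : Okf B) (hm : ∀ a, 0 < m a) {J : Type} [Fintype J] [DecidableEq J] {ν : J → ℕ} {q : J → A} {d : J → Bool}
    {P : ∀ j, Matrix (Fin (ν j)) (Fin (m (q j))) ℂ} {P' : ∀ j, Matrix (Fin (m (q j))) (Fin (ν j)) ℂ} (h1 : ∀ j, P j * P' j = 1)
    (h2 : ∀ j, P' j * P j = 1) : GenP (BD (WJ B q d P P')) (Dl B) := by
  refine (stA hB hm).bd (d' := ν) (fun j => (q j, d j)) P' P h1 ?_ ?_
  · rintro _ ⟨v, hv, rfl⟩
    refine ⟨fun j => lk (d j) (P j) (P' j) (v (q j)), ⟨v, hv, fun j => rfl⟩, fun j => ?_⟩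
    show (if d j then ((v (q j))⁻¹)ᵀ else v (q j)) * P' j = P' j * (P j * (if d j then ((v (q j))⁻¹)ᵀ else v (q j)) * P' j)
    rw [← Matrix.mul_assoc, ← Matrix.mul_assoc, h2, Matrix.one_mul]
  · rintro w ⟨v, hv, hw⟩
    refine ⟨wv v, ⟨v, hv, rfl⟩, fun j => ?_⟩
    rw [hw]
    show P j * (if d j then ((v (q j))⁻¹)ᵀ else v (q j)) * P' j * P j = P j * (if d j then ((v (q j))⁻¹)ᵀ else v (q j))
    rw [Matrix.mul_assoc, h2, Matrix.mul_one]

end Q207.DB
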