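import Pool.Agent.Q207.DB.GFft

/-!
# Tensors, products of tensors, and the generation of invariant tensors
-/

set_option autoImplicit false

open Finset

namespace Q207.DB

section ten

variable {X Y Z κ : Type} [Fintype X] [Fintype Y] [Fintype Z] [Fintype κ] [DecidableEq κ]

omit [Fintype X] in
/-- different matrices at the places of a tensor -/
noncomputable def actM (g : κ → Matrix X Y ℂ) : ((κ → Y) → ℂ) →ₗ[ℂ] ((κ → X) → ℂ) where
  toFun x := fun w => ∑ v : κ → Y, (∏ k, g k (w k) (v k)) * x v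
  map_add' x y := by
    funext w
    simp only [Pi.add_apply, mul_add, sum_add_distrib]
  map_smul' c x := by
    funext w
    simp only [Pi.smul_apply, smul_eq_mul, RingHom.id_apply, mul_sum]
    exact sum_congr rfl fun v _ => by ring

omit [Fintype X] in
lemma actM_apply (g : κ → Matrix X Y ℂ) (x : (κ → Y) → ℂ) (w : κ → X) :
    actM g x w = ∑ v : κ → Y, (∏ k, g k (w k) (v k)) * x v := rfl

omit [Fintype X] in
lemma actM_comp (g : κ → Matrix X Y ℂ) (h : κ → Matrix Y Z ℂ) (x : (κ → Z) → ℂ) :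
    actM g (actM h x) = actM (fun k => g k * h k) x := by
  funext w
  rw [actM_apply, actM_apply]
  simp only [actM_apply, mul_sum]
  rw [sum_comm]
  refine sum_congr rfl fun u _ => ?_
  have h1 : ∏ k, (g k * h k) (w k) (u k) = ∑ v : κ → Y, ∏ k, g k (w k) (v k) * h k (v k) (u k) := by
    have h2 := Finset.prod_univ_sum (fun _ : κ => (univ : Finset Y)) (fun k y => g k (w k) y * h k y (u k))
    rw [Fintype.piFinset_univ] at h2
    exact h2
  rw [h1, sum_mul]
  refine sum_congr rfl fun v _ => ?_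
  rw [prod_mul_distrib]
  ring

lemma actM_one [DecidableEq X] (x : (κ → X) → ℂ) : actM (fun _ => (1 : Matrix X X ℂ)) x = x := by
  funext w
  rw [actM_apply, sum_eq_single w]
  · rw [prod_eq_one fun k _ => Matrix.one_apply_eq _, one_mul]
  · intro v _ hv
    obtain ⟨k, hk⟩ := Function.ne_iff.1 hv
    have h0 : (1 : Matrix X X ℂ) (w k) (v k) = 0 := Matrix.one_apply_ne' hk
    rw [prod_eq_zero (mem_univ k) h0, zero_mul]
  · intro h
    exact absurd (mem_univ _) h

omit [Fintype X] in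
lemma actM_sum {J : Type} [Fintype J] (E : J → Matrix X Y ℂ) (x : (κ → Y) → ℂ) :
    actM (fun _ => ∑ j, E j) x = ∑ τ : κ → J, actM (fun k => E (τ k)) x := by
  funext w
  rw [Finset.sum_apply, actM_apply]
  simp only [actM_apply]
  rw [sum_comm]
  refine sum_congr rfl fun v _ => ?_
  rw [← sum_mul]
  congr 1
  have h2 := Finset.prod_univ_sum (fun _ : κ => (univ : Finset J)) (fun k j => E j (w k) (v k))
  rw [Fintype.piFinset_univ] at h2
  rw [← h2]
  exact prod_congr rfl fun k _ => Matrix.sum_apply _ _ _ _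

omit [Fintype X] [Fintype κ] [DecidableEq κ] in
/-- the product of tensors -/
def prodT {L : Type} [Fintype L] {s : L → ℕ} (e : (Σ l, Fin (s l)) ≃ κ) (u : ∀ l, (Fin (s l) → X) → ℂ) :
    (κ → X) → ℂ := fun w => ∏ l, u l fun a => w (e ⟨l, a⟩)

/-- the words on the blocks -/
def splitW {Y κ : Type} {L : Type} {s : L → ℕ} (e : (Σ l, Fin (s l)) ≃ κ) : (κ → Y) ≃ (∀ l, Fin (s l) → Y) where
  toFun v := fun l a => v (e ⟨l, a⟩)
  invFun v := fun k => v (e.symm k).1 (e.symm k).2
  left_inv v := by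
    funext k
    show v (e (e.symm k)) = v k
    rw [Equiv.apply_symm_apply]
  right_inv v := by
    funext l a
    show v (e.symm (e ⟨l, a⟩)).1 (e.symm (e ⟨l, a⟩)).2 = v l a
    rw [Equiv.symm_apply_apply]

omit [Fintype X] in
lemma actM_prodT {L : Type} [Fintype L] [DecidableEq L] {s : L → ℕ} (e : (Σ l, Fin (s l)) ≃ κ)
    (g : κ → Matrix X Y ℂ) (u : ∀ l, (Fin (s l) → Y) → ℂ) :
    actM g (prodT e u) = prodT e fun l => actM (fun a => g (e ⟨l, a⟩)) (u l) := by
  funext w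
  unfold prodT
  rw [actM_apply]
  simp only [actM_apply]
  have h2 := Finset.prod_univ_sum (fun l : L => (univ : Finset (Fin (s l) → Y)))
    (fun l v => (∏ a, g (e ⟨l, a⟩) (w (e ⟨l, a⟩)) (v a)) * u l v)
  rw [Fintype.piFinset_univ] at h2
  rw [h2]
  refine Fintype.sum_equiv (splitW e) _ _ fun v => ?_
  rw [prod_mul_distrib]
  congr 1
  rw [← Fintype.prod_equiv e (fun p : Σ l, Fin (s l) => g (e p) (w (e p)) (v (e p))) _ fun p => rfl, Fintype.prod_sigma]
  rfl

/-- invariance -/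
def Inv (H : Set (Matrix X X ℂ)) (x : (κ → X) → ℂ) : Prop := ∀ g ∈ H, actM (fun _ => g) x = x

/-- the span of the products of invariant tensors of some degrees -/
noncomputable def gens (H : Set (Matrix X X ℂ)) (Δ : ℕ → Prop) (κ : Type) : Submodule ℂ ((κ → X) → ℂ) :=
  Submodule.span ℂ {x | ∃ (l : ℕ) (s : Fin l → ℕ) (e : (Σ j, Fin (s j)) ≃ κ) (u : ∀ j, (Fin (s j) → X) → ℂ),
    (∀ j, Δ (s j) ∧ Inv H (u j)) ∧ x = prodT e u}

/-- the invariant tensors are generated in the degrees `Δ` -/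
def GenP (H : Set (Matrix X X ℂ)) (Δ : ℕ → Prop) : Prop :=
  ∀ (κ : Type) [Fintype κ] [DecidableEq κ] (x : (κ → X) → ℂ), Inv H x → x ∈ gens H Δ κ

omit [Fintype κ] [DecidableEq κ] in
lemma gens_of {H : Set (Matrix X X ℂ)} {Δ : ℕ → Prop} {L : Type} [Fintype L] {s : L → ℕ} (e : (Σ l, Fin (s l)) ≃ κ)
    (u : ∀ l, (Fin (s l) → X) → ℂ) (h : ∀ l, Δ (s l) ∧ Inv H (u l)) : prodT e u ∈ gens H Δ κ := by
  set η := Fintype.equivFin L
  refine Submodule.subset_span ⟨Fintype.card L, fun j => s (η.symm j), (Equiv.sigmaCongrLeft (β := fun j => Fin (s j)) η.symm).trans e,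
    fun j => u (η.symm j), fun j => h _, ?_⟩
  funext w
  unfold prodT
  exact Fintype.prod_equiv η _ _ fun j => by
    obtain ⟨j', rfl⟩ := η.symm.surjective j
    rw [Equiv.apply_symm_apply]
    rfl

/-- **Transport.** -/
theorem GenP.trans [DecidableEq X] {HX : Set (Matrix X X ℂ)} {HY : Set (Matrix Y Y ℂ)} {Δ : ℕ → Prop} (hY : GenP HY Δ) {J : Type}
    [Fintype J] (Q : J → Matrix Y X ℂ) (Q' : J → Matrix X Y ℂ) (h1 : ∀ h ∈ HY, ∃ g ∈ HX, ∀ j, h * Q j = Q j * g)
    (h2 : ∀ g ∈ HX, ∃ h ∈ HY, ∀ j, g * Q' j = Q' j * h) (h3 : ∑ j, Q' j * Q j = 1) : GenP HX Δ := by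
  classical
  intro κ _ _ x hx
  have e1 : x = ∑ τ : κ → J, actM (fun k => Q' (τ k)) (actM (fun k => Q (τ k)) x) := by
    have e2 := actM_sum (κ := κ) (fun j => Q' j * Q j) x
    rw [h3, actM_one] at e2
    rw [e2]
    refine sum_congr rfl fun τ _ => ?_
    rw [actM_comp, ← e2]
  rw [e1]
  refine Submodule.sum_mem _ fun τ _ => ?_
  have e3 : actM (fun k => Q (τ k)) x ∈ gens HY Δ κ := by
    refine hY κ _ fun h hh => ?_
    obtain ⟨g, hg, hgh⟩ := h1 h hh
    rw [actM_comp]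
    have e4 : (fun k => h * Q (τ k)) = fun k => Q (τ k) * g := by
      funext k
      exact hgh _
    rw [e4, ← actM_comp, hx g hg]
  have e5 : gens HY Δ κ ≤ (gens HX Δ κ).comap (actM fun k => Q' (τ k)) := by
    unfold gens
    rw [Submodule.span_le]
    rintro y ⟨l, s, e, u, hu, rfl⟩
    show actM (fun k => Q' (τ k)) (prodT e u) ∈ gens HX Δ κ
    rw [actM_prodT]
    refine gens_of e _ fun j => ⟨(hu j).1, fun g hg => ?_⟩
    obtain ⟨h, hh, hgh⟩ := h2 g hg
    rw [actM_comp]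
    have e6 : (fun a => g * Q' (τ (e ⟨j, a⟩))) = fun a => Q' (τ (e ⟨j, a⟩)) * h := by
      funext a
      exact hgh _
    rw [e6, ← actM_comp, (hu j).2 h hh]
  exact e5 e3

end ten

end Q207.DB
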